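import Mathlib

set_option autoImplicit false

open Polynomial

namespace Pool.Agent.MP01c1f4

section formal

variable {R : Type*} [CommRing R]

/-- Formal-degree multiplicativity of the resultant on the left. -/
lemma res_mul_left (f₁ f₂ g : R[X]) (m₁ m₂ n : ℕ) (h₁ : f₁.natDegree ≤ m₁)
    (h₂ : f₂.natDegree ≤ m₂) (hg : g.natDegree ≤ n) :
    resultant (f₁ * f₂) g (m₁ + m₂) n = resultant f₁ g m₁ n * resultant f₂ g m₂ n := by
  obtain ⟨k₁, rfl⟩ := Nat.exists_eq_add_of_le h₁
  obtain ⟨k₂, rfl⟩ := Nat.exists_eq_add_of_le h₂
  have e : f₁.natDegree + k₁ + (f₂.natDegree + k₂)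
      = (f₁.natDegree + f₂.natDegree) + (k₁ + k₂) := by ring
  rw [e, resultant_add_left_deg _ _ _ _ _ natDegree_mul_le, resultant_mul_left _ _ _ _ hg,
    resultant_add_left_deg _ _ _ _ _ le_rfl, resultant_add_left_deg _ _ _ _ _ le_rfl]
  ring

/-- Homogeneous evaluation of a polynomial of formal degree `n`. -/
def evH (f : R[X]) (n : ℕ) (p q : R) : R :=
  ∑ i ∈ Finset.range (n + 1), f.coeff i * p ^ i * q ^ (n - i)

lemma evH_one (f : R[X]) (n : ℕ) (h : f.natDegree ≤ n) (p : R) : evH f n p 1 = f.eval p := by
  rw [evH, eval_eq_sum_range' (Nat.lt_succ_of_le h)]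
  simp

lemma evH_smul (f : R[X]) (n : ℕ) (t p q : R) : evH f n (t * p) (t * q) = t ^ n * evH f n p q := by
  rw [evH, evH, Finset.mul_sum]
  refine Finset.sum_congr rfl fun i hi => ?_
  have hi' : i ≤ n := Nat.lt_succ_iff.mp (Finset.mem_range.mp hi)
  have : t ^ n = t ^ i * t ^ (n - i) := by rw [← pow_add, Nat.add_sub_cancel' hi']
  rw [mul_pow, mul_pow, this]; ring

end formal

section field

variable {K : Type*} [Field K]

lemma evH_of_ne (f : K[X]) (n : ℕ) (h : f.natDegree ≤ n) (p q : K) (hq : q ≠ 0) :
    evH f n p q = q ^ n * f.eval (p / q) := by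
  have := evH_smul f n q (p / q) 1
  rw [mul_div_cancel₀ _ hq, mul_one, evH_one f n h] at this
  exact this

lemma evH_zero_right (f : K[X]) (n : ℕ) (p : K) : evH f n p 0 = f.coeff n * p ^ n := by
  rw [evH, Finset.sum_eq_single n]
  · simp
  · intro b hb hbn
    have : b < n := lt_of_le_of_ne (Nat.lt_succ_iff.mp (Finset.mem_range.mp hb)) hbn
    rw [zero_pow (by omega), mul_zero]
  · intro h; simp at h

lemma res_linear (p q : K) (g : K[X]) (n : ℕ) (hg : g.natDegree ≤ n) :
    resultant (C q * X - C p) g 1 n = evH g n p q := by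
  by_cases hq : q = 0
  · subst hq
    have : (C (0 : K) * X - C p) = C (-p) := by simp
    rw [this, resultant_C_left, evH_zero_right]
    rcases Nat.even_or_odd n with h | h <;> simp [h.neg_one_pow, h.neg_pow]
  · have : (C q * X - C p) = C q * (X - C (p / q)) := by
      rw [mul_sub, ← C_mul, mul_div_cancel₀ _ hq]
    rw [this, resultant_C_mul_left, resultant_X_sub_C_left _ _ _ hg, evH_of_ne g n hg p q hq]

lemma natDegree_lin (p q : K) : (C q * X - C p : K[X]).natDegree ≤ 1 := by
  compute_degree

lemma res_quad (p₀ q₀ p₁ q₁ : K) (g : K[X]) (n : ℕ) (hg : g.natDegree ≤ n) :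
    resultant ((C q₀ * X - C p₀) * (C q₁ * X - C p₁)) g 2 n
      = evH g n p₀ q₀ * evH g n p₁ q₁ := by
  have := res_mul_left (C q₀ * X - C p₀) (C q₁ * X - C p₁) g 1 1 n (natDegree_lin _ _)
    (natDegree_lin _ _) hg
  rw [show (1 + 1 : ℕ) = 2 from rfl] at this
  rw [this, res_linear _ _ _ _ hg, res_linear _ _ _ _ hg]

end field

section cont

variable {T : Type*} [TopologicalSpace T]
variable {K : Type*} [CommRing K] [TopologicalSpace K] [IsTopologicalRing K]

/-- A family of polynomials all of whose coefficients depend continuously on the parameter. -/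
def CoeffCont (F : T → K[X]) : Prop := ∀ k, Continuous fun t => (F t).coeff k

lemma CoeffCont.add {F G : T → K[X]} (hF : CoeffCont F) (hG : CoeffCont G) :
    CoeffCont fun t => F t + G t := fun k => by
  simp only [coeff_add]; exact (hF k).add (hG k)

lemma CoeffCont.neg {F : T → K[X]} (hF : CoeffCont F) :
    CoeffCont fun t => - F t := fun k => by
  simp only [coeff_neg]; exact (hF k).neg

lemma CoeffCont.sub {F G : T → K[X]} (hF : CoeffCont F) (hG : CoeffCont G) :
    CoeffCont fun t => F t - G t := fun k => by
  simp only [coeff_sub]; exact (hF k).sub (hG k)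

lemma CoeffCont.mul {F G : T → K[X]} (hF : CoeffCont F) (hG : CoeffCont G) :
    CoeffCont fun t => F t * G t := fun k => by
  simp only [coeff_mul]
  exact continuous_finset_sum _ fun i _ => (hF i.1).mul (hG i.2)

lemma CoeffCont.const (f : K[X]) : CoeffCont fun _ : T => f := fun _ => continuous_const

lemma CoeffCont.C {g : T → K} (hg : Continuous g) : CoeffCont fun t => (C (g t) : K[X]) :=
  fun k => by
    by_cases hk : k = 0
    · subst hk; simpa using hg
    · simp only [coeff_C, hk, if_false]; exact continuous_const

lemma CoeffCont.sum {ι : Type*} (s : Finset ι) {F : ι → T → K[X]}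
    (hF : ∀ i ∈ s, CoeffCont (F i)) : CoeffCont fun t => ∑ i ∈ s, F i t := fun k => by
  simp only [finset_sum_coeff]
  exact continuous_finset_sum _ fun i hi => hF i hi k

lemma CoeffCont.prod {ι : Type*} (s : Finset ι) {F : ι → T → K[X]}
    (hF : ∀ i ∈ s, CoeffCont (F i)) : CoeffCont fun t => ∏ i ∈ s, F i t := by
  classical
  induction s using Finset.induction with
  | empty => simpa using CoeffCont.const (T := T) (1 : K[X])
  | insert a s ha ih =>
    simp only [Finset.prod_insert ha]
    exact (hF a (Finset.mem_insert_self _ _)).mul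
      (ih fun i hi => hF i (Finset.mem_insert_of_mem hi))

lemma CoeffCont.det {n : ℕ} {M : T → Matrix (Fin n) (Fin n) K[X]}
    (hM : ∀ i j, CoeffCont fun t => M t i j) : CoeffCont fun t => (M t).det := by
  simp only [Matrix.det_apply']
  refine CoeffCont.sum _ fun σ _ => ?_
  refine CoeffCont.mul ?_ (CoeffCont.prod _ fun i _ => hM _ _)
  exact CoeffCont.const _

/-- Continuity of a resultant in the parameters. -/
lemma continuous_resultant {F G : T → K[X]} (hF : CoeffCont F) (hG : CoeffCont G) (m n : ℕ) :
    Continuous fun t => resultant (F t) (G t) m n := by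
  unfold resultant
  refine Continuous.matrix_det ?_
  refine continuous_matrix fun i j => ?_
  induction j using Fin.addCases with
  | left j =>
    simp only [sylvester, Matrix.of_apply, Fin.addCases_left]
    split_ifs
    · exact hG _
    · exact continuous_const
  | right j =>
    simp only [sylvester, Matrix.of_apply, Fin.addCases_right]
    split_ifs
    · exact hF _
    · exact continuous_const

/-- Coefficientwise continuity of a resultant over a polynomial ring. -/
lemma coeffCont_resultant {F G : T → K[X][X]} (hF : ∀ i, CoeffCont fun t => (F t).coeff i)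
    (hG : ∀ i, CoeffCont fun t => (G t).coeff i) (m n : ℕ) :
    CoeffCont fun t => resultant (F t) (G t) m n := by
  unfold resultant
  refine CoeffCont.det fun i j => ?_
  induction j using Fin.addCases with
  | left j =>
    simp only [sylvester, Matrix.of_apply, Fin.addCases_left]
    split_ifs
    · exact hG _
    · exact CoeffCont.const _
  | right j =>
    simp only [sylvester, Matrix.of_apply, Fin.addCases_right]
    split_ifs
    · exact hF _
    · exact CoeffCont.const _

end cont

section degree

variable {K : Type*} [CommRing K]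

/-- Degree bound for a determinant from column-wise bounds. -/
lemma natDegree_det_le {n : ℕ} (M : Matrix (Fin n) (Fin n) K[X]) (d : Fin n → ℕ)
    (h : ∀ i j, (M i j).natDegree ≤ d j) : M.det.natDegree ≤ ∑ j, d j := by
  rw [Matrix.det_apply']
  refine natDegree_sum_le_of_forall_le _ _ fun σ _ => ?_
  refine (natDegree_mul_le).trans ?_
  have h1 : ((((Equiv.Perm.sign σ : ℤˣ) : ℤ) : K[X])).natDegree = 0 := by
    rw [← C_eq_intCast]; exact natDegree_C _
  rw [h1, zero_add]
  refine (natDegree_prod_le _ _).trans (Finset.sum_le_sum fun i _ => h _ _)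

/-- Degree bound for a resultant of a polynomial with constant coefficients and a polynomial
whose coefficients have degree at most `d`. -/
lemma natDegree_resultant_le (f : K[X]) (g : K[X][X]) (m n d : ℕ)
    (hg : ∀ i, (g.coeff i).natDegree ≤ d) :
    (resultant (f.map C) g m n).natDegree ≤ m * d := by
  unfold resultant
  refine (natDegree_det_le _ (fun j => Fin.addCases (fun _ => d) (fun _ => 0) j) ?_).trans ?_
  · intro i j
    induction j using Fin.addCases with
    | left j =>
      simp only [sylvester, Matrix.of_apply, Fin.addCases_left]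
      split_ifs
      · exact hg _
      · simp
    | right j =>
      simp only [sylvester, Matrix.of_apply, Fin.addCases_right]
      split_ifs
      · simp
      · simp
  · rw [Fin.sum_univ_add]
    simp

end degree

end Pool.Agent.MP01c1f4
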