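import Mathlib
import Pool.Agent.MP01c1f4.Res

set_option autoImplicit false

open Polynomial

namespace Pool.Agent.MP01c1f4

section defs

variable {K : Type*} [CommRing K]

/-- Coefficient of `r ^ 2` in the bar equation. -/
def cA (P0 R p q : K) : K := q * (P0 * p - R * q)

/-- Coefficient of `r * s` in the bar equation. -/
def cB (P0 P R l p q : K) : K := (q - p) * (P0 * p - R * q) + (P - l) * p * q

/-- Coefficient of `s ^ 2` in the bar equation. -/
def cC (P p q : K) : K := P * p * (q - p)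

/-- The bar equation in homogeneous coordinates `x = p / q`, `V = r / s`. -/
def cH (P0 P R l p q r s : K) : K :=
  cA P0 R p q * r ^ 2 + cB P0 P R l p q * (r * s) + cC P p q * s ^ 2

/-- The resultant (in `V`) of two bar equations. -/
def EH (P0 P R l p q R' l' p' q' : K) : K :=
  (cA P0 R p q * cC P p' q' - cA P0 R' p' q' * cC P p q) ^ 2
    - (cA P0 R p q * cB P0 P R' l' p' q' - cA P0 R' p' q' * cB P0 P R l p q)
      * (cB P0 P R l p q * cC P p' q' - cB P0 P R' l' p' q' * cC P p q)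

/-- The bar equation as a polynomial in `x`. -/
noncomputable def Cx (P0 P R l V : K) : K[X] :=
  C (-(P0 * V + P)) * X ^ 2 + C ((1 + V) * (P0 * V + P) + (R - l) * V) * X
    - C (R * V * (1 + V))

/-- `EH` as a polynomial in the last position `x' = p' / 1`. -/
noncomputable def Epoly (P0 P R l p q R' l' : K) : K[X] :=
  EH (C P0) (C P) (C R) (C l) (C p) (C q) (C R') (C l') X 1

end defs

/-- The thirteen squared edge lengths. -/
structure Par (K : Type*) where
  P0 : K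
  P1 : K
  P2 : K
  P3 : K
  R1 : K
  R2 : K
  R3 : K
  l12 : K
  l13 : K
  l21 : K
  l23 : K
  l31 : K
  l32 : K

/-- Map a parameter set along a function. -/
def Par.map {K L : Type*} (f : K → L) (a : Par K) : Par L :=
  ⟨f a.P0, f a.P1, f a.P2, f a.P3, f a.R1, f a.R2, f a.R3, f a.l12, f a.l13, f a.l21, f a.l23,
    f a.l31, f a.l32⟩

section defs2

variable {K : Type*} [CommRing K]

/-- The closing condition, as a polynomial in `x₂` over the polynomials in `x₃`. -/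
noncomputable def E1X (a : Par K) : K[X][X] :=
  Epoly (C a.P0) (C a.P1) (C a.R3) (C a.l13) X 1 (C a.R2) (C a.l12)

/-- Elimination of `x₂` for given `W = V₃`. -/
noncomputable def Gp (a : Par K) (W : K) : K[X] :=
  resultant ((Cx a.P0 a.P3 a.R2 a.l32 W).map C) (E1X a) 2 4

/-- Elimination of `x₂`, `x₃` for given `V = V₂`, `W = V₃`. -/
noncomputable def HH (a : Par K) (V W : K) : K :=
  resultant (Cx a.P0 a.P2 a.R3 a.l23 V) (Gp a W) 2 8

/-- Elimination of `x₂` for given `x = x₁`. -/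
noncomputable def GG (a : Par K) (x : K) : K[X] :=
  resultant ((Epoly a.P0 a.P3 a.R1 a.l31 x 1 a.R2 a.l32).map C) (E1X a) 4 4

/-- The full eliminant, for given `x = x₁`. -/
noncomputable def NN (a : Par K) (x : K) : K :=
  resultant (Epoly a.P0 a.P2 a.R1 a.l21 x 1 a.R3 a.l23) (GG a x) 4 16

end defs2

section basic

variable {K : Type*} [CommRing K]

lemma res_mul_right (f g₁ g₂ : K[X]) (m n₁ n₂ : ℕ) (hf : f.natDegree ≤ m)
    (h₁ : g₁.natDegree ≤ n₁) (h₂ : g₂.natDegree ≤ n₂) :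
    resultant f (g₁ * g₂) m (n₁ + n₂) = resultant f g₁ m n₁ * resultant f g₂ m n₂ := by
  rw [resultant_comm, res_mul_left _ _ _ _ _ _ h₁ h₂ hf, resultant_comm g₁, resultant_comm g₂]
  have e1 : (-1 : K) ^ (m * (n₁ + n₂)) = (-1) ^ (n₁ * m) * (-1) ^ (n₂ * m) := by
    rw [← pow_add]; congr 1; ring
  have e2 : ((-1 : K) ^ (n₁ * m)) * (-1) ^ (n₁ * m) = 1 := by
    rw [← mul_pow]; simp
  have e3 : ((-1 : K) ^ (n₂ * m)) * (-1) ^ (n₂ * m) = 1 := by
    rw [← mul_pow]; simp
  calc _ = (((-1 : K) ^ (n₁ * m)) * (-1) ^ (n₁ * m)) * (((-1 : K) ^ (n₂ * m)) * (-1) ^ (n₂ * m))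
        * (resultant f g₁ m n₁ * resultant f g₂ m n₂) := by rw [e1]; ring
    _ = _ := by rw [e2, e3]; ring

lemma natDegree_Cx (P0 P R l V : K) : (Cx P0 P R l V).natDegree ≤ 2 := by
  unfold Cx
  compute_degree

lemma eval_Cx (P0 P R l V x : K) : (Cx P0 P R l V).eval x = cH P0 P R l x 1 V 1 := by
  simp only [Cx, cH, cA, cB, cC, eval_add, eval_sub, eval_mul, eval_C, eval_X, eval_pow]
  ring

lemma natDegree_cA (P0 R : K) : (cA (C P0) (C R) X 1 : K[X]).natDegree ≤ 1 := by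
  unfold cA
  compute_degree

lemma natDegree_cB (P0 P R l : K) : (cB (C P0) (C P) (C R) (C l) X 1 : K[X]).natDegree ≤ 2 := by
  have : (cB (C P0) (C P) (C R) (C l) X 1 : K[X])
      = C (-P0) * X ^ 2 + C (P0 + R + P - l) * X + C (-R) := by
    simp only [cB, C_neg, C_add, C_sub]; ring
  rw [this]
  compute_degree

lemma natDegree_cC (P : K) : (cC (C P) X 1 : K[X]).natDegree ≤ 2 := by
  have : (cC (C P) X 1 : K[X]) = C (-P) * X ^ 2 + C P * X := by
    simp only [cC, C_neg]; ring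
  rw [this]
  compute_degree

lemma natDegree_Epoly (P0 P R l p q R' l' : K) :
    (Epoly P0 P R l p q R' l').natDegree ≤ 4 := by
  have hA := natDegree_cA P0 R'
  have hB := natDegree_cB P0 P R' l'
  have hC := natDegree_cC P
  have eA : cA (C P0) (C R) (C p) (C q) = C (cA P0 R p q) := by
    simp [cA]
  have eB : cB (C P0) (C P) (C R) (C l) (C p) (C q) = C (cB P0 P R l p q) := by
    simp [cB]
  have eC : cC (C P) (C p) (C q) = C (cC P p q) := by
    simp [cC]
  unfold Epoly EH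
  rw [eA, eB, eC]
  refine (natDegree_sub_le _ _).trans (max_le ?_ ?_)
  · refine (natDegree_pow_le).trans ?_
    have : (C (cA P0 R p q) * cC (C P) X 1 - cA (C P0) (C R') X 1 * C (cC P p q)).natDegree ≤ 2 := by
      refine (natDegree_sub_le _ _).trans (max_le ?_ ?_)
      · exact (natDegree_C_mul_le _ _).trans hC
      · exact (natDegree_mul_C_le _ _).trans (hA.trans (by norm_num))
    omega
  · refine natDegree_mul_le.trans ?_
    have h1 : (C (cA P0 R p q) * cB (C P0) (C P) (C R') (C l') X 1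
        - cA (C P0) (C R') X 1 * C (cB P0 P R l p q)).natDegree ≤ 2 := by
      refine (natDegree_sub_le _ _).trans (max_le ?_ ?_)
      · exact (natDegree_C_mul_le _ _).trans hB
      · exact (natDegree_mul_C_le _ _).trans (hA.trans (by norm_num))
    have h2 : (C (cB P0 P R l p q) * cC (C P) X 1
        - cB (C P0) (C P) (C R') (C l') X 1 * C (cC P p q)).natDegree ≤ 2 := by
      refine (natDegree_sub_le _ _).trans (max_le ?_ ?_)
      · exact (natDegree_C_mul_le _ _).trans hC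
      · exact (natDegree_mul_C_le _ _).trans hB
    omega

lemma map_EH {L : Type*} [CommRing L] (φ : K →+* L) (P0 P R l p q R' l' p' q' : K) :
    φ (EH P0 P R l p q R' l' p' q')
      = EH (φ P0) (φ P) (φ R) (φ l) (φ p) (φ q) (φ R') (φ l') (φ p') (φ q') := by
  simp [EH, cA, cB, cC]

lemma eval_Epoly (P0 P R l p q R' l' x : K) :
    (Epoly P0 P R l p q R' l').eval x = EH P0 P R l p q R' l' x 1 := by
  have := map_EH (evalRingHom x) (C P0) (C P) (C R) (C l) (C p) (C q) (C R') (C l') X 1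
  simpa [Epoly] using this

lemma map_Epoly {L : Type*} [CommRing L] (φ : K →+* L) (P0 P R l p q R' l' : K) :
    (Epoly P0 P R l p q R' l').map φ
      = Epoly (φ P0) (φ P) (φ R) (φ l) (φ p) (φ q) (φ R') (φ l') := by
  have := map_EH (mapRingHom φ) (C P0) (C P) (C R) (C l) (C p) (C q) (C R') (C l') X 1
  simpa [Epoly] using this

lemma map_Cx {L : Type*} [CommRing L] (φ : K →+* L) (P0 P R l V : K) :
    (Cx P0 P R l V).map φ = Cx (φ P0) (φ P) (φ R) (φ l) (φ V) := by
  simp [Cx]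

lemma map_E1X {L : Type*} [CommRing L] (φ : K →+* L) (a : Par K) :
    (E1X a).map (mapRingHom φ) = E1X (a.map φ) := by
  simp [E1X, map_Epoly, Par.map]

lemma map_Gp {L : Type*} [CommRing L] (φ : K →+* L) (a : Par K) (W : K) :
    (Gp a W).map φ = Gp (a.map φ) (φ W) := by
  unfold Gp
  rw [← coe_mapRingHom, ← resultant_map_map, map_E1X]
  congr 1
  rw [Polynomial.map_map]
  have : (mapRingHom φ).comp C = C.comp φ := by
    ext x : 1; simp
  rw [this, ← Polynomial.map_map, map_Cx]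
  rfl

lemma map_GG {L : Type*} [CommRing L] (φ : K →+* L) (a : Par K) (x : K) :
    (GG a x).map φ = GG (a.map φ) (φ x) := by
  unfold GG
  rw [← coe_mapRingHom, ← resultant_map_map, map_E1X]
  congr 1
  rw [Polynomial.map_map]
  have : (mapRingHom φ).comp C = C.comp φ := by
    ext x : 1; simp
  rw [this, ← Polynomial.map_map, map_Epoly]
  simp [Par.map]

lemma map_HH {L : Type*} [CommRing L] (φ : K →+* L) (a : Par K) (V W : K) :
    φ (HH a V W) = HH (a.map φ) (φ V) (φ W) := by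
  unfold HH
  rw [← resultant_map_map, map_Gp, map_Cx]
  rfl

lemma map_NN {L : Type*} [CommRing L] (φ : K →+* L) (a : Par K) (x : K) :
    φ (NN a x) = NN (a.map φ) (φ x) := by
  unfold NN
  rw [← resultant_map_map, map_GG, map_Epoly, map_one]
  rfl

/-- Evaluation of `Gp` at a value of `x₃`. -/
lemma eval_Gp (a : Par K) (W x : K) :
    (Gp a W).eval x = resultant (Cx a.P0 a.P3 a.R2 a.l32 W)
      (Epoly a.P0 a.P1 a.R3 a.l13 x 1 a.R2 a.l12) 2 4 := by
  unfold Gp
  rw [← coe_evalRingHom, ← resultant_map_map, Polynomial.map_map]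
  have h1 : (evalRingHom x).comp C = RingHom.id K := by ext y; simp
  rw [h1, Polynomial.map_id]
  congr 1
  simp [E1X, map_Epoly]

/-- All coefficients have degree at most `d`. -/
def DegLE (d : ℕ) (f : K[X][X]) : Prop := ∀ i, (f.coeff i).natDegree ≤ d

lemma DegLE.mono {d e : ℕ} {f : K[X][X]} (h : DegLE d f) (hde : d ≤ e) : DegLE e f :=
  fun i => (h i).trans hde

lemma DegLE.sub {d : ℕ} {f g : K[X][X]} (hf : DegLE d f) (hg : DegLE d g) : DegLE d (f - g) :=
  fun i => by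
    rw [coeff_sub]
    exact (natDegree_sub_le _ _).trans (max_le (hf i) (hg i))

lemma DegLE.mul {d e : ℕ} {f g : K[X][X]} (hf : DegLE d f) (hg : DegLE e g) :
    DegLE (d + e) (f * g) := fun i => by
  rw [coeff_mul]
  refine natDegree_sum_le_of_forall_le _ _ fun j _ => ?_
  exact natDegree_mul_le.trans (Nat.add_le_add (hf _) (hg _))

lemma DegLE.C {d : ℕ} {c : K[X]} (h : c.natDegree ≤ d) : DegLE d (C c) := fun i => by
  rw [coeff_C]
  split_ifs
  · exact h
  · simp

lemma DegLE.map {f : K[X]} : DegLE 0 (f.map Polynomial.C) := fun i => by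
  rw [coeff_map]; simp

lemma natDegree_E1X_coeff (a : Par K) (i : ℕ) : ((E1X a).coeff i).natDegree ≤ 4 := by
  have hA : DegLE 1 (cA (C (C a.P0)) (C (C a.R3)) (C X) (C 1) : K[X][X]) := by
    have : (cA (C (C a.P0)) (C (C a.R3)) (C X) (C 1) : K[X][X]) = C (cA (C a.P0) (C a.R3) X 1) := by
      simp [cA]
    rw [this]; exact DegLE.C (natDegree_cA _ _)
  have hB : DegLE 2 (cB (C (C a.P0)) (C (C a.P1)) (C (C a.R3)) (C (C a.l13)) (C X) (C 1)
      : K[X][X]) := by
    have : (cB (C (C a.P0)) (C (C a.P1)) (C (C a.R3)) (C (C a.l13)) (C X) (C 1) : K[X][X])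
        = C (cB (C a.P0) (C a.P1) (C a.R3) (C a.l13) X 1) := by
      simp [cB]
    rw [this]; exact DegLE.C (natDegree_cB _ _ _ _)
  have hC : DegLE 2 (cC (C (C a.P1)) (C X) (C 1) : K[X][X]) := by
    have : (cC (C (C a.P1)) (C X) (C 1) : K[X][X]) = C (cC (C a.P1) X 1) := by
      simp [cC]
    rw [this]; exact DegLE.C (natDegree_cC _)
  have hA' : DegLE 0 (cA (C (C a.P0)) (C (C a.R2)) X 1 : K[X][X]) := by
    have : (cA (C (C a.P0)) (C (C a.R2)) X 1 : K[X][X])
        = (cA (C a.P0) (C a.R2) X 1 : K[X]).map C := by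
      simp [cA]
    rw [this]; exact DegLE.map
  have hB' : DegLE 0 (cB (C (C a.P0)) (C (C a.P1)) (C (C a.R2)) (C (C a.l12)) X 1
      : K[X][X]) := by
    have : (cB (C (C a.P0)) (C (C a.P1)) (C (C a.R2)) (C (C a.l12)) X 1 : K[X][X])
        = (cB (C a.P0) (C a.P1) (C a.R2) (C a.l12) X 1 : K[X]).map C := by
      simp [cB]
    rw [this]; exact DegLE.map
  have hC' : DegLE 0 (cC (C (C a.P1)) X 1 : K[X][X]) := by
    have : (cC (C (C a.P1)) X 1 : K[X][X]) = (cC (C a.P1) X 1 : K[X]).map C := by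
      simp [cC]
    rw [this]; exact DegLE.map
  have key : DegLE 4 (E1X a) := by
    unfold E1X Epoly EH
    rw [pow_two]
    refine DegLE.sub ?_ ?_
    · have h1 := ((hA.mul hC').mono (by norm_num : 1 + 0 ≤ 2)).sub
        ((hA'.mul hC).mono (by norm_num : 0 + 2 ≤ 2))
      exact h1.mul h1
    · have h1 := ((hA.mul hB').mono (by norm_num : 1 + 0 ≤ 2)).sub
        ((hA'.mul hB).mono (by norm_num : 0 + 2 ≤ 2))
      have h2 := ((hB.mul hC').mono (by norm_num : 2 + 0 ≤ 2)).sub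
        ((hB'.mul hC).mono (by norm_num : 0 + 2 ≤ 2))
      exact h1.mul h2
  exact key i

lemma natDegree_E1X (a : Par K) : (E1X a).natDegree ≤ 4 := natDegree_Epoly _ _ _ _ _ _ _ _

lemma natDegree_Gp (a : Par K) (W : K) : (Gp a W).natDegree ≤ 8 :=
  natDegree_resultant_le _ _ 2 4 4 (natDegree_E1X_coeff a)

lemma natDegree_GG (a : Par K) (x : K) : (GG a x).natDegree ≤ 16 :=
  natDegree_resultant_le _ _ 4 4 4 (natDegree_E1X_coeff a)

/-- Factorisation of `Epoly` through the two solutions `V`. -/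
lemma Epoly_eq (P0 P R l x R' l' V₀ V₁ : K)
    (hB : cB P0 P R l x 1 = - cA P0 R x 1 * (V₀ + V₁))
    (hC : cC P x 1 = cA P0 R x 1 * (V₀ * V₁)) :
    Epoly P0 P R l x 1 R' l'
      = C (cA P0 R x 1 ^ 2) * (Cx P0 P R' l' V₀ * Cx P0 P R' l' V₁) := by
  have eA : cA (C P0) (C R) (C x) (C 1) = C (cA P0 R x 1) := by simp [cA]
  have eB : cB (C P0) (C P) (C R) (C l) (C x) (C 1) = C (cB P0 P R l x 1) := by simp [cB]
  have eC : cC (C P) (C x) (C 1) = C (cC P x 1) := by simp [cC]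
  unfold Epoly EH
  rw [eA, eB, eC, hB, hC]
  set A := cA P0 R x 1
  simp only [Cx, cA, cB, cC, C_mul, C_add, C_neg, C_pow, C_sub, C_1]
  ring

lemma GG_eq (a : Par K) (x W₀ W₁ : K)
    (hB : cB a.P0 a.P3 a.R1 a.l31 x 1 = - cA a.P0 a.R1 x 1 * (W₀ + W₁))
    (hC : cC a.P3 x 1 = cA a.P0 a.R1 x 1 * (W₀ * W₁)) :
    GG a x = C (cA a.P0 a.R1 x 1 ^ 8) * (Gp a W₀ * Gp a W₁) := by
  unfold GG
  rw [Epoly_eq _ _ _ _ _ _ _ _ _ hB hC, Polynomial.map_mul, Polynomial.map_mul, map_C,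
    resultant_C_mul_left]
  have := res_mul_left ((Cx a.P0 a.P3 a.R2 a.l32 W₀).map C) ((Cx a.P0 a.P3 a.R2 a.l32 W₁).map C)
    (E1X a) 2 2 4 (natDegree_map_le.trans (natDegree_Cx _ _ _ _ _))
    (natDegree_map_le.trans (natDegree_Cx _ _ _ _ _)) (natDegree_E1X a)
  rw [show (2 + 2 : ℕ) = 4 from rfl] at this
  rw [this, ← C_pow, ← pow_mul]
  rfl

/-- The eliminant as a product over the four choices of `(V₂, V₃)`. -/
lemma NN_eq (a : Par K) (x V₀ V₁ W₀ W₁ : K)
    (hB : cB a.P0 a.P2 a.R1 a.l21 x 1 = - cA a.P0 a.R1 x 1 * (V₀ + V₁))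
    (hC : cC a.P2 x 1 = cA a.P0 a.R1 x 1 * (V₀ * V₁))
    (hB' : cB a.P0 a.P3 a.R1 a.l31 x 1 = - cA a.P0 a.R1 x 1 * (W₀ + W₁))
    (hC' : cC a.P3 x 1 = cA a.P0 a.R1 x 1 * (W₀ * W₁)) :
    NN a x = cA a.P0 a.R1 x 1 ^ 64 *
      (HH a V₀ W₀ * HH a V₀ W₁ * HH a V₁ W₀ * HH a V₁ W₁) := by
  unfold NN
  rw [GG_eq a x W₀ W₁ hB' hC', Epoly_eq _ _ _ _ _ _ _ _ _ hB hC, resultant_C_mul_left,
    resultant_C_mul_right]
  have h1 := res_mul_left (Cx a.P0 a.P2 a.R3 a.l23 V₀) (Cx a.P0 a.P2 a.R3 a.l23 V₁)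
    (Gp a W₀ * Gp a W₁) 2 2 16 (natDegree_Cx _ _ _ _ _) (natDegree_Cx _ _ _ _ _)
    (natDegree_mul_le.trans (Nat.add_le_add (natDegree_Gp a W₀) (natDegree_Gp a W₁)))
  have h2 : ∀ V, resultant (Cx a.P0 a.P2 a.R3 a.l23 V) (Gp a W₀ * Gp a W₁) 2 16
      = HH a V W₀ * HH a V W₁ := fun V => by
    have := res_mul_right (Cx a.P0 a.P2 a.R3 a.l23 V) (Gp a W₀) (Gp a W₁) 2 8 8
      (natDegree_Cx _ _ _ _ _) (natDegree_Gp a W₀) (natDegree_Gp a W₁)
    exact this
  rw [show (2 + 2 : ℕ) = 4 from rfl] at h1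
  rw [h1, h2, h2]
  ring

end basic

end Pool.Agent.MP01c1f4
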