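import Mathlib
import Pool.Agent.MP01c1f4.Link

set_option autoImplicit false

open Polynomial

namespace Pool.Agent.MP01c1f4

section field

variable {K : Type*} [Field K]

lemma EH_smul_left (P0 P R l t p q R' l' p' q' : K) :
    EH P0 P R l (t * p) (t * q) R' l' p' q' = t ^ 4 * EH P0 P R l p q R' l' p' q' := by
  simp only [EH, cA, cB, cC]; ring

lemma EH_smul_right (P0 P R l p q R' l' t p' q' : K) :
    EH P0 P R l p q R' l' (t * p') (t * q') = t ^ 4 * EH P0 P R l p q R' l' p' q' := by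
  simp only [EH, cA, cB, cC]; ring

lemma EH_symm (P0 P R l p q R' l' p' q' : K) :
    EH P0 P R l p q R' l' p' q' = EH P0 P R' l' p' q' R l p q := by
  simp only [EH]; ring

lemma Epoly_smul (P0 P R l t p q R' l' : K) :
    Epoly P0 P R l (t * p) (t * q) R' l' = C (t ^ 4) * Epoly P0 P R l p q R' l' := by
  simp only [Epoly, EH, cA, cB, cC, C_mul, C_pow]; ring

lemma evH_Epoly_of_ne (P0 P R l p q R' l' p' q' : K) (hq : q' ≠ 0) :
    evH (Epoly P0 P R l p q R' l') 4 p' q' = EH P0 P R l p q R' l' p' q' := by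
  rw [evH_of_ne _ _ (natDegree_Epoly _ _ _ _ _ _ _ _) _ _ hq, eval_Epoly, ← EH_smul_right,
    mul_div_cancel₀ _ hq, mul_one]

lemma evH_Gp_of_ne (a : Par K) (W p q : K) (hq : q ≠ 0) :
    evH (Gp a W) 8 p q = resultant (Cx a.P0 a.P3 a.R2 a.l32 W)
      (Epoly a.P0 a.P1 a.R3 a.l13 p q a.R2 a.l12) 2 4 := by
  rw [evH_of_ne _ _ (natDegree_Gp _ _) _ _ hq, eval_Gp]
  have : Epoly a.P0 a.P1 a.R3 a.l13 p q a.R2 a.l12
      = C (q ^ 4) * Epoly a.P0 a.P1 a.R3 a.l13 (p / q) 1 a.R2 a.l12 := by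
    rw [← Epoly_smul, mul_div_cancel₀ _ hq, mul_one]
  rw [this, resultant_C_mul_right]
  ring

/-- Product formula for `HH` when all positions are finite. -/
lemma HH_eq (a : Par K) (V W A r₀ r₁ B s₀ s₁ : K) (hA : A ≠ 0) (hB : B ≠ 0)
    (h : Cx a.P0 a.P2 a.R3 a.l23 V = C A * ((X - C r₀) * (X - C r₁)))
    (h' : Cx a.P0 a.P3 a.R2 a.l32 W = C B * ((X - C s₀) * (X - C s₁))) :
    HH a V W = (A * B) ^ 8 *
      (EH a.P0 a.P1 a.R3 a.l13 r₀ 1 a.R2 a.l12 s₀ 1 * EH a.P0 a.P1 a.R3 a.l13 r₀ 1 a.R2 a.l12 s₁ 1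
      * (EH a.P0 a.P1 a.R3 a.l13 r₁ 1 a.R2 a.l12 s₀ 1
        * EH a.P0 a.P1 a.R3 a.l13 r₁ 1 a.R2 a.l12 s₁ 1)) := by
  have e1 : Cx a.P0 a.P2 a.R3 a.l23 V = (C A * X - C (A * r₀)) * (C 1 * X - C r₁) := by
    rw [h, C_mul, C_1]; ring
  have e2 : Cx a.P0 a.P3 a.R2 a.l32 W = (C B * X - C (B * s₀)) * (C 1 * X - C s₁) := by
    rw [h', C_mul, C_1]; ring
  unfold HH
  rw [e1, res_quad _ _ _ _ _ _ (natDegree_Gp a W), evH_Gp_of_ne a W _ _ hA,
    evH_Gp_of_ne a W _ _ one_ne_zero, e2, res_quad _ _ _ _ _ _ (natDegree_Epoly _ _ _ _ _ _ _ _),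
    res_quad _ _ _ _ _ _ (natDegree_Epoly _ _ _ _ _ _ _ _),
    evH_Epoly_of_ne _ _ _ _ _ _ _ _ _ _ hB, evH_Epoly_of_ne _ _ _ _ _ _ _ _ _ _ one_ne_zero,
    evH_Epoly_of_ne _ _ _ _ _ _ _ _ _ _ hB, evH_Epoly_of_ne _ _ _ _ _ _ _ _ _ _ one_ne_zero]
  have f1 : ∀ p' q', EH a.P0 a.P1 a.R3 a.l13 (A * r₀) A a.R2 a.l12 p' q'
      = A ^ 4 * EH a.P0 a.P1 a.R3 a.l13 r₀ 1 a.R2 a.l12 p' q' := fun p' q' => by
    rw [← EH_smul_left, mul_one]
  have f2 : ∀ p q, EH a.P0 a.P1 a.R3 a.l13 p q a.R2 a.l12 (B * s₀) B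
      = B ^ 4 * EH a.P0 a.P1 a.R3 a.l13 p q a.R2 a.l12 s₀ 1 := fun p q => by
    rw [← EH_smul_right, mul_one]
  rw [f1, f1, f2, f2]
  ring

end field

section complex

lemma ext_zero {f g : ℂ → ℂ} (hf : Continuous f) (hg : Continuous g)
    (h : ∀ q ≠ 0, f q = g q) : f 0 = g 0 := by
  have := Continuous.ext_on (dense_compl_singleton (0 : ℂ)) hf hg (fun q hq => h q hq)
  exact congrFun this 0

lemma continuous_evH (f : ℂ[X]) (n : ℕ) (p : ℂ) : Continuous fun q => evH f n p q := by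
  unfold evH
  fun_prop

lemma continuous_EH_right (P0 P R l p q R' l' p' : ℂ) :
    Continuous fun q' => EH P0 P R l p q R' l' p' q' := by
  unfold EH cA cB cC
  fun_prop

lemma evH_Epoly (P0 P R l p q R' l' p' q' : ℂ) :
    evH (Epoly P0 P R l p q R' l') 4 p' q' = EH P0 P R l p q R' l' p' q' := by
  by_cases hq : q' = 0
  · subst hq
    exact ext_zero (continuous_evH _ _ _) (continuous_EH_right _ _ _ _ _ _ _ _ _)
      (fun q hq => evH_Epoly_of_ne _ _ _ _ _ _ _ _ _ _ hq)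
  · exact evH_Epoly_of_ne _ _ _ _ _ _ _ _ _ _ hq

/-- `Epoly` depends continuously on its parameters. -/
lemma coeffCont_Epoly {T K : Type*} [TopologicalSpace T] [CommRing K] [TopologicalSpace K]
    [IsTopologicalRing K] (P0 P R l R' l' : K) {p q : T → K} (hp : Continuous p)
    (hq : Continuous q) : CoeffCont fun t => Epoly P0 P R l (p t) (q t) R' l' := by
  have eA : ∀ t, cA (C P0) (C R) (C (p t)) (C (q t)) = (C (cA P0 R (p t) (q t)) : K[X]) := by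
    intro t; simp [cA]
  have eB : ∀ t, cB (C P0) (C P) (C R) (C l) (C (p t)) (C (q t))
      = (C (cB P0 P R l (p t) (q t)) : K[X]) := by intro t; simp [cB]
  have eC : ∀ t, cC (C P) (C (p t)) (C (q t)) = (C (cC P (p t) (q t)) : K[X]) := by
    intro t; simp [cC]
  have hA : CoeffCont fun t => (C (cA P0 R (p t) (q t)) : K[X]) := by
    apply CoeffCont.C; unfold cA; fun_prop
  have hB : CoeffCont fun t => (C (cB P0 P R l (p t) (q t)) : K[X]) := by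
    apply CoeffCont.C; unfold cB; fun_prop
  have hC : CoeffCont fun t => (C (cC P (p t) (q t)) : K[X]) := by
    apply CoeffCont.C; unfold cC; fun_prop
  unfold Epoly EH
  simp only [eA, eB, eC, pow_two]
  refine CoeffCont.sub ?_ ?_
  · have h1 := (hA.mul (CoeffCont.const (T := T) (cC (C P) X 1))).sub
      ((CoeffCont.const (T := T) (cA (C P0) (C R') X 1)).mul hC)
    exact h1.mul h1
  · have h1 := (hA.mul (CoeffCont.const (T := T) (cB (C P0) (C P) (C R') (C l') X 1))).sub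
      ((CoeffCont.const (T := T) (cA (C P0) (C R') X 1)).mul hB)
    have h2 := (hB.mul (CoeffCont.const (T := T) (cC (C P) X 1))).sub
      ((CoeffCont.const (T := T) (cB (C P0) (C P) (C R') (C l') X 1)).mul hC)
    exact h1.mul h2

lemma coeffCont_Cx {T K : Type*} [TopologicalSpace T] [CommRing K] [TopologicalSpace K]
    [IsTopologicalRing K] (P0 P R l : K) {V : T → K} (hV : Continuous V) :
    CoeffCont fun t => Cx P0 P R l (V t) := by
  unfold Cx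
  refine CoeffCont.sub (CoeffCont.add (CoeffCont.mul (CoeffCont.C ?_) (CoeffCont.const _))
    (CoeffCont.mul (CoeffCont.C ?_) (CoeffCont.const _))) (CoeffCont.C ?_)
  all_goals fun_prop

lemma evH_Gp (a : Par ℂ) (W p q : ℂ) :
    evH (Gp a W) 8 p q = resultant (Cx a.P0 a.P3 a.R2 a.l32 W)
      (Epoly a.P0 a.P1 a.R3 a.l13 p q a.R2 a.l12) 2 4 := by
  by_cases hq : q = 0
  · subst hq
    exact ext_zero (f := fun q => evH (Gp a W) 8 p q) (g := fun q => resultant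
      (Cx a.P0 a.P3 a.R2 a.l32 W) (Epoly a.P0 a.P1 a.R3 a.l13 p q a.R2 a.l12) 2 4)
      (continuous_evH _ _ _)
      (continuous_resultant (CoeffCont.const _)
        (coeffCont_Epoly _ _ _ _ _ _ continuous_const continuous_id) _ _)
      (fun q hq => evH_Gp_of_ne a W p q hq)
  · exact evH_Gp_of_ne a W p q hq

/-- Product formula for `HH` in projective form. -/
lemma HH_eq_proj (a : Par ℂ) (V W p₀ q₀ p₁ q₁ p₀' q₀' p₁' q₁' : ℂ)
    (h : Cx a.P0 a.P2 a.R3 a.l23 V = (C q₀ * X - C p₀) * (C q₁ * X - C p₁))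
    (h' : Cx a.P0 a.P3 a.R2 a.l32 W = (C q₀' * X - C p₀') * (C q₁' * X - C p₁')) :
    HH a V W =
      EH a.P0 a.P1 a.R3 a.l13 p₀ q₀ a.R2 a.l12 p₀' q₀'
      * EH a.P0 a.P1 a.R3 a.l13 p₀ q₀ a.R2 a.l12 p₁' q₁'
      * (EH a.P0 a.P1 a.R3 a.l13 p₁ q₁ a.R2 a.l12 p₀' q₀'
        * EH a.P0 a.P1 a.R3 a.l13 p₁ q₁ a.R2 a.l12 p₁' q₁') := by
  unfold HH
  rw [h, res_quad _ _ _ _ _ _ (natDegree_Gp a W), evH_Gp, evH_Gp, h',
    res_quad _ _ _ _ _ _ (natDegree_Epoly _ _ _ _ _ _ _ _),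
    res_quad _ _ _ _ _ _ (natDegree_Epoly _ _ _ _ _ _ _ _),
    evH_Epoly, evH_Epoly, evH_Epoly, evH_Epoly]

/-- Every binary quadratic form over `ℂ` is a product of two linear forms. -/
lemma exists_linear_factors (a b c : ℂ) (h : ¬ (a = 0 ∧ b = 0 ∧ c = 0)) :
    ∃ p₀ q₀ p₁ q₁ : ℂ, (p₀ ≠ 0 ∨ q₀ ≠ 0) ∧ (p₁ ≠ 0 ∨ q₁ ≠ 0) ∧
      a = q₀ * q₁ ∧ b = -(q₀ * p₁ + q₁ * p₀) ∧ c = p₀ * p₁ := by
  by_cases ha : a = 0
  · subst ha
    refine ⟨-1, 0, -c, b, Or.inl (by norm_num), ?_, by ring, by ring, by ring⟩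
    by_contra hh
    push Not at hh
    exact h ⟨rfl, hh.2, by simpa using hh.1⟩
  · obtain ⟨s, hs⟩ : ∃ s : ℂ, s ^ 2 = b ^ 2 - 4 * a * c :=
      IsAlgClosed.exists_pow_nat_eq (b ^ 2 - 4 * a * c) (n := 2) (by norm_num)
    refine ⟨-b + s, 2 * a, (-b - s) / (4 * a), 1 / 2, Or.inr (by simpa using ha),
      Or.inr (by norm_num), by ring, ?_, ?_⟩
    · field_simp; ring
    · field_simp
      linear_combination hs
end complex

end Pool.Agent.MP01c1f4
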