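import Mathlib
import Pool.Agent.MP01c1f4.Prod

set_option autoImplicit false

open Polynomial

namespace Pool.Agent.MP01c1f4

/-- Two binary quadratic forms with vanishing resultant have a common zero. -/
lemma common_root (A B C A' B' C' : ℂ)
    (h : (A * C' - A' * C) ^ 2 - (A * B' - A' * B) * (B * C' - B' * C) = 0) :
    ∃ r s : ℂ, (r ≠ 0 ∨ s ≠ 0) ∧ A * r ^ 2 + B * (r * s) + C * s ^ 2 = 0
      ∧ A' * r ^ 2 + B' * (r * s) + C' * s ^ 2 = 0 := by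
  by_cases h1 : A = 0 ∧ B = 0 ∧ C = 0
  · obtain ⟨rfl, rfl, rfl⟩ := h1
    by_cases h2 : A' = 0 ∧ B' = 0 ∧ C' = 0
    · obtain ⟨rfl, rfl, rfl⟩ := h2
      exact ⟨1, 0, Or.inl one_ne_zero, by ring, by ring⟩
    · obtain ⟨p₀, q₀, p₁, q₁, hp, -, rfl, rfl, rfl⟩ := exists_linear_factors A' B' C' h2
      exact ⟨p₀, q₀, hp, by ring, by ring⟩
  · obtain ⟨p₀, q₀, p₁, q₁, hp, hp', rfl, rfl, rfl⟩ := exists_linear_factors A B C h1
    by_cases h2 : A' = 0 ∧ B' = 0 ∧ C' = 0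
    · obtain ⟨rfl, rfl, rfl⟩ := h2
      exact ⟨p₀, q₀, hp, by ring, by ring⟩
    · obtain ⟨p₂, q₂, p₃, q₃, -, -, rfl, rfl, rfl⟩ := exists_linear_factors A' B' C' h2
      have hprod : (q₀ * p₂ - p₀ * q₂) * (q₀ * p₃ - p₀ * q₃) *
          ((q₁ * p₂ - p₁ * q₂) * (q₁ * p₃ - p₁ * q₃)) = 0 := by
        rw [← h]; ring
      rcases mul_eq_zero.mp hprod with h3 | h3 <;> rcases mul_eq_zero.mp h3 with h4 | h4
      · refine ⟨p₀, q₀, hp, by ring, ?_⟩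
        linear_combination (-(q₃ * p₀ - p₃ * q₀)) * h4
      · refine ⟨p₀, q₀, hp, by ring, ?_⟩
        linear_combination (-(q₂ * p₀ - p₂ * q₀)) * h4
      · refine ⟨p₁, q₁, hp', by ring, ?_⟩
        linear_combination (-(q₃ * p₁ - p₃ * q₁)) * h4
      · refine ⟨p₁, q₁, hp', by ring, ?_⟩
        linear_combination (-(q₂ * p₁ - p₂ * q₁)) * h4

/-- Basic nondegeneracy of a parameter set. -/
structure Par.Nz {K : Type*} [Field K] (a : Par K) : Prop where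
  P0 : a.P0 ≠ 0
  P1 : a.P1 ≠ 0
  P2 : a.P2 ≠ 0
  P3 : a.P3 ≠ 0
  R1 : a.R1 ≠ 0
  R2 : a.R2 ≠ 0
  R3 : a.R3 ≠ 0
  P01 : a.P0 ≠ a.P1
  P02 : a.P0 ≠ a.P2
  P03 : a.P0 ≠ a.P3
  R01 : a.P0 ≠ a.R1
  R02 : a.P0 ≠ a.R2
  R03 : a.P0 ≠ a.R3

section field

variable {K : Type*} [Field K]

/-- The bar equation is not identically zero as a form in `(r, s)`. -/
lemma form_V_ne (P0 P R l p q : K) (hP0 : P0 ≠ 0) (hP : P ≠ 0) (hR : R ≠ 0) (h0 : P0 ≠ R)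
    (hpq : p ≠ 0 ∨ q ≠ 0) :
    ¬ (cA P0 R p q = 0 ∧ cB P0 P R l p q = 0 ∧ cC P p q = 0) := by
  rintro ⟨h1, -, h3⟩
  simp only [cA, cC, mul_eq_zero] at h1 h3
  rcases h1 with h1 | h1
  · subst h1
    rcases h3 with (h3 | h3) | h3
    · exact hP h3
    · simp [h3] at hpq
    · have : p = 0 := by simpa using h3
      simp [this] at hpq
  · rcases h3 with (h3 | h3) | h3
    · exact hP h3
    · subst h3
      have : q = 0 := by
        have : R * q = 0 := by linear_combination -h1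
        exact (mul_eq_zero.mp this).resolve_left hR
      simp [this] at hpq
    · have hq : q = p := by linear_combination h3
      subst hq
      have : (P0 - R) * q = 0 := by linear_combination h1
      have : q = 0 := (mul_eq_zero.mp this).resolve_left (sub_ne_zero.mpr h0)
      simp [this] at hpq

/-- The bar equation is not identically zero as a form in `(p, q)`. -/
lemma form_x_ne (P0 P R l r s : K) (hP0 : P0 ≠ 0) (hP : P ≠ 0) (hR : R ≠ 0) (h0 : P0 ≠ P)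
    (hrs : r ≠ 0 ∨ s ≠ 0) :
    ¬ (-(s * (P0 * r + P * s)) = 0 ∧
      (r + s) * (P0 * r + P * s) + (R - l) * r * s = 0 ∧ -(R * r * (s + r)) = 0) := by
  rintro ⟨h1, -, h3⟩
  have h1' : s = 0 ∨ P0 * r + P * s = 0 := by simpa using h1
  have h3' : (R = 0 ∨ r = 0) ∨ s + r = 0 := by simpa using h3
  rcases h1' with h1 | h1
  · subst h1
    rcases h3' with (h3 | h3) | h3
    · exact hR h3
    · simp [h3] at hrs
    · have : r = 0 := by simpa using h3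
      simp [this] at hrs
  · rcases h3' with (h3 | h3) | h3
    · exact hR h3
    · subst h3
      have : s = 0 := by
        have : P * s = 0 := by linear_combination h1
        exact (mul_eq_zero.mp this).resolve_left hP
      simp [this] at hrs
    · have hs : s = -r := by linear_combination h3
      subst hs
      have : (P0 - P) * r = 0 := by linear_combination h1
      have : r = 0 := (mul_eq_zero.mp this).resolve_left (sub_ne_zero.mpr h0)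
      simp [this] at hrs

/-- The bar equation as a form in `(p, q)`. -/
lemma cH_eq_form (P0 P R l p q r s : K) :
    cH P0 P R l p q r s = -(s * (P0 * r + P * s)) * p ^ 2
      + ((r + s) * (P0 * r + P * s) + (R - l) * r * s) * (p * q) + -(R * r * (s + r)) * q ^ 2 := by
  simp only [cH, cA, cB, cC]; ring

end field

/-- Factorisation of `Cx` into linear forms. -/
lemma exists_factor_Cx (P0 P R l V : ℂ) (hP0 : P0 ≠ 0) (hP : P ≠ 0) (hR : R ≠ 0) (h0 : P0 ≠ P) :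
    ∃ p₀ q₀ p₁ q₁ : ℂ, (p₀ ≠ 0 ∨ q₀ ≠ 0) ∧ (p₁ ≠ 0 ∨ q₁ ≠ 0) ∧
      Cx P0 P R l V = (C q₀ * X - C p₀) * (C q₁ * X - C p₁) ∧
      cH P0 P R l p₀ q₀ V 1 = 0 ∧ cH P0 P R l p₁ q₁ V 1 = 0 := by
  have hne := form_x_ne P0 P R l V 1 hP0 hP hR h0 (Or.inr one_ne_zero)
  obtain ⟨p₀, q₀, p₁, q₁, hp, hp', ha, hb, hc⟩ := exists_linear_factors _ _ _ hne
  refine ⟨p₀, q₀, p₁, q₁, hp, hp', ?_, ?_, ?_⟩
  · have e1 : -(P0 * V + P) = q₀ * q₁ := by linear_combination ha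
    have e2 : (1 + V) * (P0 * V + P) + (R - l) * V = -(q₀ * p₁ + q₁ * p₀) := by
      linear_combination hb
    have e3 : R * V * (1 + V) = -(p₀ * p₁) := by linear_combination -hc
    unfold Cx
    rw [e1, e2, e3]
    simp only [C_mul, C_neg, C_add]
    ring
  · rw [cH_eq_form, ha, hb, hc]; ring
  · rw [cH_eq_form, ha, hb, hc]; ring

/-- A zero of the eliminant `HH` produces a closed chain in projective coordinates. -/
lemma chain_of_HH (a : Par ℂ) (ha : a.Nz) (V W : ℂ) (h : HH a V W = 0) :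
    ∃ p q p' q' r s : ℂ, (p ≠ 0 ∨ q ≠ 0) ∧ (p' ≠ 0 ∨ q' ≠ 0) ∧ (r ≠ 0 ∨ s ≠ 0) ∧
      cH a.P0 a.P2 a.R3 a.l23 p q V 1 = 0 ∧ cH a.P0 a.P3 a.R2 a.l32 p' q' W 1 = 0 ∧
      cH a.P0 a.P1 a.R3 a.l13 p q r s = 0 ∧ cH a.P0 a.P1 a.R2 a.l12 p' q' r s = 0 := by
  obtain ⟨p₀, q₀, p₁, q₁, hp, hp', e, f0, f1⟩ :=
    exists_factor_Cx a.P0 a.P2 a.R3 a.l23 V ha.P0 ha.P2 ha.R3 ha.P02
  obtain ⟨p₂, q₂, p₃, q₃, hp2, hp3, e', f2, f3⟩ :=
    exists_factor_Cx a.P0 a.P3 a.R2 a.l32 W ha.P0 ha.P3 ha.R2 ha.P03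
  rw [HH_eq_proj a V W _ _ _ _ _ _ _ _ e e'] at h
  rcases mul_eq_zero.mp h with h | h <;> rcases mul_eq_zero.mp h with h | h
  · obtain ⟨r, s, hrs, g1, g2⟩ := common_root _ _ _ _ _ _ h
    exact ⟨p₀, q₀, p₂, q₂, r, s, hp, hp2, hrs, f0, f2, g1, g2⟩
  · obtain ⟨r, s, hrs, g1, g2⟩ := common_root _ _ _ _ _ _ h
    exact ⟨p₀, q₀, p₃, q₃, r, s, hp, hp3, hrs, f0, f3, g1, g2⟩
  · obtain ⟨r, s, hrs, g1, g2⟩ := common_root _ _ _ _ _ _ h
    exact ⟨p₁, q₁, p₂, q₂, r, s, hp', hp2, hrs, f1, f2, g1, g2⟩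
  · obtain ⟨r, s, hrs, g1, g2⟩ := common_root _ _ _ _ _ _ h
    exact ⟨p₁, q₁, p₃, q₃, r, s, hp', hp3, hrs, f1, f3, g1, g2⟩

/-! ### The propagation argument -/

/-- A subfield of `ℂ` closed under roots of quadratic polynomials. -/
def QuadClosed (F : Subfield ℂ) : Prop :=
  ∀ a ∈ F, ∀ b ∈ F, ∀ c ∈ F, ¬ (a = 0 ∧ b = 0 ∧ c = 0) →
    ∀ z : ℂ, a * z ^ 2 + b * z + c = 0 → z ∈ F

/-- The projective point `(p : q)` is defined over `F`. -/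
def FP (F : Subfield ℂ) (p q : ℂ) : Prop := q = 0 ∨ p / q ∈ F

lemma FP.rep {F : Subfield ℂ} {p q : ℂ} (h : FP F p q) (hpq : p ≠ 0 ∨ q ≠ 0) :
    ∃ t p' q', t ≠ 0 ∧ p' ∈ F ∧ q' ∈ F ∧ (p' ≠ 0 ∨ q' ≠ 0) ∧ p = t * p' ∧ q = t * q' := by
  by_cases hq : q = 0
  · subst hq
    exact ⟨p, 1, 0, by simpa using hpq, F.one_mem, F.zero_mem, Or.inl one_ne_zero, by ring,
      by ring⟩
  · refine ⟨q, p / q, 1, hq, h.resolve_left hq, F.one_mem, Or.inr one_ne_zero, ?_, by ring⟩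
    field_simp

lemma FP.of_quad {F : Subfield ℂ} (hF : QuadClosed F) {a b c p q : ℂ} (ha : a ∈ F) (hb : b ∈ F)
    (hc : c ∈ F) (hne : ¬ (a = 0 ∧ b = 0 ∧ c = 0)) (h : a * p ^ 2 + b * (p * q) + c * q ^ 2 = 0) :
    FP F p q := by
  by_cases hq : q = 0
  · exact Or.inl hq
  · refine Or.inr (hF a ha b hb c hc hne _ ?_)
    field_simp
    linear_combination h

lemma FP.propV {F : Subfield ℂ} (hF : QuadClosed F) {P0 P R l p q r s : ℂ} (h0 : P0 ∈ F)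
    (h1 : P ∈ F) (h2 : R ∈ F) (h3 : l ∈ F) (hP0 : P0 ≠ 0) (hP : P ≠ 0) (hR : R ≠ 0)
    (hPR : P0 ≠ R) (hpq : p ≠ 0 ∨ q ≠ 0) (h : FP F p q) (he : cH P0 P R l p q r s = 0) :
    FP F r s := by
  obtain ⟨t, p', q', ht, hp', hq', hpq', rfl, rfl⟩ := h.rep hpq
  have e : cH P0 P R l (t * p') (t * q') r s = t ^ 2 * cH P0 P R l p' q' r s := by
    simp only [cH, cA, cB, cC]; ring
  rw [e] at he
  have he' := (mul_eq_zero.mp he).resolve_left (pow_ne_zero 2 ht)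
  refine FP.of_quad hF ?_ ?_ ?_ (form_V_ne P0 P R l p' q' hP0 hP hR hPR hpq') he'
  · unfold cA
    exact F.mul_mem hq' (F.sub_mem (F.mul_mem h0 hp') (F.mul_mem h2 hq'))
  · unfold cB
    exact F.add_mem (F.mul_mem (F.sub_mem hq' hp') (F.sub_mem (F.mul_mem h0 hp')
      (F.mul_mem h2 hq'))) (F.mul_mem (F.mul_mem (F.sub_mem h1 h3) hp') hq')
  · unfold cC
    exact F.mul_mem (F.mul_mem h1 hp') (F.sub_mem hq' hp')

lemma FP.propx {F : Subfield ℂ} (hF : QuadClosed F) {P0 P R l p q r s : ℂ} (h0 : P0 ∈ F)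
    (h1 : P ∈ F) (h2 : R ∈ F) (h3 : l ∈ F) (hP0 : P0 ≠ 0) (hP : P ≠ 0) (hR : R ≠ 0)
    (hPR : P0 ≠ P) (hrs : r ≠ 0 ∨ s ≠ 0) (h : FP F r s) (he : cH P0 P R l p q r s = 0) :
    FP F p q := by
  obtain ⟨t, r', s', ht, hr', hs', hrs', rfl, rfl⟩ := h.rep hrs
  have e : cH P0 P R l p q (t * r') (t * s') = t ^ 2 * cH P0 P R l p q r' s' := by
    simp only [cH, cA, cB, cC]; ring
  rw [e] at he
  have he' := (mul_eq_zero.mp he).resolve_left (pow_ne_zero 2 ht)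
  rw [cH_eq_form] at he'
  refine FP.of_quad hF ?_ ?_ ?_ (form_x_ne P0 P R l r' s' hP0 hP hR hPR hrs') he'
  · exact F.neg_mem (F.mul_mem hs' (F.add_mem (F.mul_mem h0 hr') (F.mul_mem h1 hs')))
  · exact F.add_mem (F.mul_mem (F.add_mem hr' hs') (F.add_mem (F.mul_mem h0 hr')
      (F.mul_mem h1 hs'))) (F.mul_mem (F.mul_mem (F.sub_mem h2 h3) hr') hs')
  · exact F.neg_mem (F.mul_mem (F.mul_mem h2 hr') (F.add_mem hs' hr'))

/-- All parameters except possibly `l21` lie in `F`. -/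
structure InExcept21 (F : Subfield ℂ) (a : Par ℂ) : Prop where
  P0 : a.P0 ∈ F
  P1 : a.P1 ∈ F
  P2 : a.P2 ∈ F
  P3 : a.P3 ∈ F
  R1 : a.R1 ∈ F
  R2 : a.R2 ∈ F
  R3 : a.R3 ∈ F
  l12 : a.l12 ∈ F
  l13 : a.l13 ∈ F
  l23 : a.l23 ∈ F
  l31 : a.l31 ∈ F
  l32 : a.l32 ∈ F
  l21 : a.l21 ∉ F
  quad : QuadClosed F

/-- In a closed hexagon whose vertices `x₁`, `V₂` are finite and nonzero, no vertex is defined
over a quadratically closed field containing all parameters but `l21`. -/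
lemma no_FP {F : Subfield ℂ} {a : Par ℂ} (hF : InExcept21 F a) (ha : a.Nz)
    {x V W p q p' q' r s : ℂ} (hx : x ≠ 0) (hV : V ≠ 0)
    (hpq : p ≠ 0 ∨ q ≠ 0) (hpq' : p' ≠ 0 ∨ q' ≠ 0) (hrs : r ≠ 0 ∨ s ≠ 0)
    (e21 : cH a.P0 a.P2 a.R1 a.l21 x 1 V 1 = 0) (e31 : cH a.P0 a.P3 a.R1 a.l31 x 1 W 1 = 0)
    (e23 : cH a.P0 a.P2 a.R3 a.l23 p q V 1 = 0) (e32 : cH a.P0 a.P3 a.R2 a.l32 p' q' W 1 = 0)
    (e13 : cH a.P0 a.P1 a.R3 a.l13 p q r s = 0) (e12 : cH a.P0 a.P1 a.R2 a.l12 p' q' r s = 0) :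
    ¬ FP F x 1 ∧ ¬ FP F W 1 ∧ ¬ FP F p' q' ∧ ¬ FP F r s ∧ ¬ FP F p q := by
  have one : ∀ z : ℂ, (z ≠ 0 ∨ (1 : ℂ) ≠ 0) := fun z => Or.inr one_ne_zero
  -- forward propagation
  have s1 : FP F x 1 → FP F W 1 := fun h => h.propV hF.quad hF.P0 hF.P3 hF.R1 hF.l31 ha.P0 ha.P3
    ha.R1 ha.R01 (one x) e31
  have s2 : FP F W 1 → FP F p' q' := fun h => h.propx hF.quad hF.P0 hF.P3 hF.R2 hF.l32 ha.P0 ha.P3
    ha.R2 ha.P03 (one W) e32
  have s3 : FP F p' q' → FP F r s := fun h => h.propV hF.quad hF.P0 hF.P1 hF.R2 hF.l12 ha.P0 ha.P1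
    ha.R2 ha.R02 hpq' e12
  have s4 : FP F r s → FP F p q := fun h => h.propx hF.quad hF.P0 hF.P1 hF.R3 hF.l13 ha.P0 ha.P1
    ha.R3 ha.P01 hrs e13
  have s5 : FP F p q → FP F V 1 := fun h => h.propV hF.quad hF.P0 hF.P2 hF.R3 hF.l23 ha.P0 ha.P2
    ha.R3 ha.R03 hpq e23
  -- backward propagation
  have b4 : FP F p q → FP F r s := fun h => h.propV hF.quad hF.P0 hF.P1 hF.R3 hF.l13 ha.P0 ha.P1
    ha.R3 ha.R03 hpq e13
  have b3 : FP F r s → FP F p' q' := fun h => h.propx hF.quad hF.P0 hF.P1 hF.R2 hF.l12 ha.P0 ha.P1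
    ha.R2 ha.P01 hrs e12
  have b2 : FP F p' q' → FP F W 1 := fun h => h.propV hF.quad hF.P0 hF.P3 hF.R2 hF.l32 ha.P0 ha.P3
    ha.R2 ha.R02 hpq' e32
  have b1 : FP F W 1 → FP F x 1 := fun h => h.propx hF.quad hF.P0 hF.P3 hF.R1 hF.l31 ha.P0 ha.P3
    ha.R1 ha.P03 (one W) e31
  have key : ¬ FP F p q := by
    intro h
    have hV' : V ∈ F := by simpa using (s5 h).resolve_left one_ne_zero
    have hx' : x ∈ F := by simpa using (b1 (b2 (b3 (b4 h)))).resolve_left one_ne_zero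
    apply hF.l21
    have e : a.l21 = ((1 - x) * (a.P0 * x - a.R1) * V + a.P2 * x * V
        + (a.P0 * x - a.R1) * V ^ 2 + a.P2 * x * (1 - x)) / (x * V) := by
      field_simp
      simp only [cH, cA, cB, cC] at e21
      linear_combination -e21
    rw [e]
    have h1 : a.P0 * x - a.R1 ∈ F := F.sub_mem (F.mul_mem hF.P0 hx') hF.R1
    have h2 : 1 - x ∈ F := F.sub_mem F.one_mem hx'
    exact F.div_mem (F.add_mem (F.add_mem (F.add_mem (F.mul_mem (F.mul_mem h2 h1) hV')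
      (F.mul_mem (F.mul_mem hF.P2 hx') hV')) (F.mul_mem h1 (F.pow_mem hV' 2)))
      (F.mul_mem (F.mul_mem hF.P2 hx') h2)) (F.mul_mem hx' hV')
  exact ⟨fun h => key (s4 (s3 (s2 (s1 h)))), fun h => key (s4 (s3 (s2 h))),
    fun h => key (s4 (s3 h)), fun h => key (s4 h), key⟩

end Pool.Agent.MP01c1f4
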