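import Mathlib
import Pool.Agent.MP01c1f4.Chain

set_option autoImplicit false

open Polynomial

namespace Pool.Agent.MP01c1f4

section field

variable {K : Type*} [Field K]

/-- `r₀`, `r₁` are the two positions compatible with `V`. -/
def Roots (P0 P R l V r₀ r₁ : K) : Prop :=
  (P0 * V + P) * (r₀ + r₁) = (1 + V) * (P0 * V + P) + (R - l) * V ∧
    (P0 * V + P) * (r₀ * r₁) = R * V * (1 + V)

lemma Roots.cx {P0 P R l V r₀ r₁ : K} (h : Roots P0 P R l V r₀ r₁) :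
    Cx P0 P R l V = C (-(P0 * V + P)) * ((X - C r₀) * (X - C r₁)) := by
  unfold Cx
  rw [← h.1, ← h.2]
  simp only [C_mul, C_add, C_neg]
  ring

/-- Product formula for `HH` in terms of `Roots`. -/
lemma HH_roots (a : Par K) {V W r₀ r₁ s₀ s₁ : K} (hA : a.P0 * V + a.P2 ≠ 0)
    (hB : a.P0 * W + a.P3 ≠ 0) (h : Roots a.P0 a.P2 a.R3 a.l23 V r₀ r₁)
    (h' : Roots a.P0 a.P3 a.R2 a.l32 W s₀ s₁) :
    HH a V W = ((a.P0 * V + a.P2) * (a.P0 * W + a.P3)) ^ 8 *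
      (EH a.P0 a.P1 a.R3 a.l13 r₀ 1 a.R2 a.l12 s₀ 1 * EH a.P0 a.P1 a.R3 a.l13 r₀ 1 a.R2 a.l12 s₁ 1
      * (EH a.P0 a.P1 a.R3 a.l13 r₁ 1 a.R2 a.l12 s₀ 1
        * EH a.P0 a.P1 a.R3 a.l13 r₁ 1 a.R2 a.l12 s₁ 1)) := by
  rw [HH_eq a V W _ r₀ r₁ _ s₀ s₁ (neg_ne_zero.mpr hA) (neg_ne_zero.mpr hB) h.cx h'.cx]
  ring

lemma cA_iota {P0 P R x : K} (hP0 : P0 ≠ 0) (hP : P ≠ 0) (hx : x ≠ 0) :
    cA P0 R (R / (P0 * x)) 1 = R / (P0 * x ^ 2) * (P0 / P) * cC P x 1 := by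
  simp only [cA, cC]; field_simp

lemma cB_iota {P0 P R l x : K} (hP0 : P0 ≠ 0) (hx : x ≠ 0) :
    cB P0 P R l (R / (P0 * x)) 1 = R / (P0 * x ^ 2) * cB P0 P R l x 1 := by
  simp only [cB]; field_simp

lemma cC_iota {P0 P R x : K} (hP0 : P0 ≠ 0) (hP : P ≠ 0) (hx : x ≠ 0) :
    cC P (R / (P0 * x)) 1 = R / (P0 * x ^ 2) * (P / P0) * cA P0 R x 1 := by
  simp only [cA, cC]; field_simp

/-- Covariance of `EH` under the mirror symmetry. -/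
lemma EH_iota {P0 P R l x R' l' x' : K} (hP0 : P0 ≠ 0) (hP : P ≠ 0) (hx : x ≠ 0)
    (hx' : x' ≠ 0) :
    EH P0 P R l (R / (P0 * x)) 1 R' l' (R' / (P0 * x')) 1
      = (R / (P0 * x ^ 2)) ^ 2 * (R' / (P0 * x' ^ 2)) ^ 2 * EH P0 P R l x 1 R' l' x' 1 := by
  simp only [EH]
  rw [cA_iota (P := P) hP0 hP hx, cA_iota (P := P) hP0 hP hx', cB_iota hP0 hx, cB_iota hP0 hx',
    cC_iota hP0 hP hx, cC_iota hP0 hP hx']
  field_simp
  ring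

lemma Roots.iota {P0 P R l V r₀ r₁ : K} (h : Roots P0 P R l V r₀ r₁) (hP0 : P0 ≠ 0)
    (hR : R ≠ 0) (hV : V ≠ 0) (h0 : r₀ ≠ 0) (h1 : r₁ ≠ 0)
    (hA : P0 * V + P ≠ 0) :
    Roots P0 P R l (P / (P0 * V)) (R / (P0 * r₀)) (R / (P0 * r₁)) := by
  obtain ⟨e1, e2⟩ := h
  have hV1 : 1 + V ≠ 0 := by
    intro h
    rw [h, mul_zero] at e2
    rcases mul_eq_zero.mp e2 with h | h
    · exact hA h
    · rcases mul_eq_zero.mp h with h | h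
      · exact h0 h
      · exact h1 h
  have hr : r₀ * r₁ = R * V * (1 + V) / (P0 * V + P) := by
    rw [eq_div_iff hA]; linear_combination e2
  have hs : r₀ + r₁ = ((1 + V) * (P0 * V + P) + (R - l) * V) / (P0 * V + P) := by
    rw [eq_div_iff hA]; linear_combination e1
  have hinv : R / (P0 * r₀) + R / (P0 * r₁) = R / P0 * (r₀ + r₁) / (r₀ * r₁) := by
    field_simp; ring
  have hinv2 : R / (P0 * r₀) * (R / (P0 * r₁)) = (R / P0) ^ 2 / (r₀ * r₁) := by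
    field_simp
  constructor
  · rw [hinv, hs, hr]
    field_simp
  · rw [hinv2, hr]
    field_simp

/-- Covariance of `HH` under the mirror symmetry. -/
lemma HH_iota (a : Par K) (ha : a.Nz) {V W r₀ r₁ s₀ s₁ : K} (hV : V ≠ 0) (hW : W ≠ 0)
    (hV1 : 1 + V ≠ 0) (hW1 : 1 + W ≠ 0)
    (hA : a.P0 * V + a.P2 ≠ 0) (hB : a.P0 * W + a.P3 ≠ 0)
    (h : Roots a.P0 a.P2 a.R3 a.l23 V r₀ r₁) (h' : Roots a.P0 a.P3 a.R2 a.l32 W s₀ s₁) :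
    a.P0 ^ 16 * (V * W) ^ 16 * HH a (a.P2 / (a.P0 * V)) (a.P3 / (a.P0 * W))
      = (a.P2 * a.P3) ^ 8 * HH a V W := by
  have hP0 := ha.P0
  have hr : r₀ ≠ 0 ∧ r₁ ≠ 0 := by
    have : r₀ * r₁ ≠ 0 := fun h0 => by
      have := h.2
      rw [h0, mul_zero] at this
      exact (mul_ne_zero (mul_ne_zero ha.R3 hV) hV1) this.symm
    exact mul_ne_zero_iff.mp this
  have hs : s₀ ≠ 0 ∧ s₁ ≠ 0 := by
    have : s₀ * s₁ ≠ 0 := fun h0 => by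
      have := h'.2
      rw [h0, mul_zero] at this
      exact (mul_ne_zero (mul_ne_zero ha.R2 hW) hW1) this.symm
    exact mul_ne_zero_iff.mp this
  obtain ⟨hr0, hr1⟩ := hr
  obtain ⟨hs0, hs1⟩ := hs
  have i1 := h.iota hP0 ha.R3 hV hr0 hr1 hA
  have i2 := h'.iota hP0 ha.R2 hW hs0 hs1 hB
  have hA' : a.P0 * (a.P2 / (a.P0 * V)) + a.P2 = a.P2 * (1 + V) / V := by
    field_simp
  have hB' : a.P0 * (a.P3 / (a.P0 * W)) + a.P3 = a.P3 * (1 + W) / W := by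
    field_simp
  have hA'' : a.P0 * (a.P2 / (a.P0 * V)) + a.P2 ≠ 0 := by
    rw [hA']; exact div_ne_zero (mul_ne_zero ha.P2 hV1) hV
  have hB'' : a.P0 * (a.P3 / (a.P0 * W)) + a.P3 ≠ 0 := by
    rw [hB']; exact div_ne_zero (mul_ne_zero ha.P3 hW1) hW
  rw [HH_roots a hA'' hB'' i1 i2, HH_roots a hA hB h h', hA', hB',
    EH_iota hP0 ha.P1 hr0 hs0, EH_iota hP0 ha.P1 hr0 hs1, EH_iota hP0 ha.P1 hr1 hs0,
    EH_iota hP0 ha.P1 hr1 hs1]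
  have e1 : 1 + V = (a.P0 * V + a.P2) * (r₀ * r₁) / (a.R3 * V) := by
    rw [h.2]; have := ha.R3; field_simp
  have e2 : 1 + W = (a.P0 * W + a.P3) * (s₀ * s₁) / (a.R2 * W) := by
    rw [h'.2]; have := ha.R2; field_simp
  rw [e1, e2]
  have := ha.R2
  have := ha.R3
  generalize EH a.P0 a.P1 a.R3 a.l13 r₀ 1 a.R2 a.l12 s₀ 1 = E00
  generalize EH a.P0 a.P1 a.R3 a.l13 r₀ 1 a.R2 a.l12 s₁ 1 = E01
  generalize EH a.P0 a.P1 a.R3 a.l13 r₁ 1 a.R2 a.l12 s₀ 1 = E10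
  generalize EH a.P0 a.P1 a.R3 a.l13 r₁ 1 a.R2 a.l12 s₁ 1 = E11
  generalize a.P0 * V + a.P2 = A
  generalize a.P0 * W + a.P3 = B
  field_simp

end field

end Pool.Agent.MP01c1f4
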