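import Mathlib
import Pool.Agent.MP01c1f4.Iota

set_option autoImplicit false

open Polynomial

namespace Pool.Agent.MP01c1f4

/-- The two values `V` compatible with `x`. -/
def VRoots {K : Type*} [Field K] (P0 P R l x V₀ V₁ : K) : Prop :=
  cB P0 P R l x 1 = - cA P0 R x 1 * (V₀ + V₁) ∧ cC P x 1 = cA P0 R x 1 * (V₀ * V₁)

lemma VRoots.zero_left {K : Type*} [Field K] {P0 P R l x V₀ V₁ : K}
    (h : VRoots P0 P R l x V₀ V₁) : cH P0 P R l x 1 V₀ 1 = 0 := by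
  simp only [cH]; rw [h.1, h.2]; ring

lemma VRoots.zero_right {K : Type*} [Field K] {P0 P R l x V₀ V₁ : K}
    (h : VRoots P0 P R l x V₀ V₁) : cH P0 P R l x 1 V₁ 1 = 0 := by
  simp only [cH]; rw [h.1, h.2]; ring

lemma exists_VRoots (P0 P R l x : ℂ) (hA : cA P0 R x 1 ≠ 0) :
    ∃ V₀ V₁, VRoots P0 P R l x V₀ V₁ := by
  obtain ⟨s, hs⟩ : ∃ s : ℂ, s ^ 2 = cB P0 P R l x 1 ^ 2 - 4 * cA P0 R x 1 * cC P x 1 :=
    IsAlgClosed.exists_pow_nat_eq _ (n := 2) (by norm_num)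
  refine ⟨(-cB P0 P R l x 1 + s) / (2 * cA P0 R x 1), (-cB P0 P R l x 1 - s) / (2 * cA P0 R x 1),
    ?_, ?_⟩
  · field_simp; ring
  · field_simp
    linear_combination hs

lemma exists_Roots (P0 P R l V : ℂ) (hA : P0 * V + P ≠ 0) :
    ∃ r₀ r₁, Roots P0 P R l V r₀ r₁ := by
  obtain ⟨s, hs⟩ : ∃ s : ℂ, s ^ 2 = ((1 + V) * (P0 * V + P) + (R - l) * V) ^ 2
      - 4 * (P0 * V + P) * (R * V * (1 + V)) :=
    IsAlgClosed.exists_pow_nat_eq _ (n := 2) (by norm_num)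
  refine ⟨(((1 + V) * (P0 * V + P) + (R - l) * V) + s) / (2 * (P0 * V + P)),
    (((1 + V) * (P0 * V + P) + (R - l) * V) - s) / (2 * (P0 * V + P)), ?_, ?_⟩
  · generalize P0 * V + P = A at *
    field_simp; ring
  · generalize P0 * V + P = A at *
    field_simp
    linear_combination -hs

/-- The nondegeneracy of a position `x` with respect to the link `(P, l)`. -/
def Nondeg {K : Type*} [Field K] (P0 P R l x : K) : Prop :=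
  cH P0 P R l x 1 (-1) 1 ≠ 0 ∧ cH P0 P R l x 1 (-(P / P0)) 1 ≠ 0

lemma VRoots.nondeg {K : Type*} [Field K] {P0 P R l x V₀ V₁ : K} (hP0 : P0 ≠ 0) (hP : P ≠ 0)
    (hx : x ≠ 0) (hx1 : x ≠ 1)
    (h : VRoots P0 P R l x V₀ V₁) (hn : Nondeg P0 P R l x) :
    (V₀ ≠ 0 ∧ 1 + V₀ ≠ 0 ∧ P0 * V₀ + P ≠ 0) ∧ (V₁ ≠ 0 ∧ 1 + V₁ ≠ 0 ∧ P0 * V₁ + P ≠ 0) := by
  have hC : cC P x 1 ≠ 0 := by
    unfold cC
    exact mul_ne_zero (mul_ne_zero hP hx) (sub_ne_zero.mpr hx1.symm)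
  have aux : ∀ V, cH P0 P R l x 1 V 1 = 0 → V ≠ 0 ∧ 1 + V ≠ 0 ∧ P0 * V + P ≠ 0 := by
    intro V hV
    refine ⟨?_, ?_, ?_⟩
    · rintro rfl
      apply hC
      simp only [cH] at hV
      linear_combination hV
    · intro h1
      have : V = -1 := by linear_combination h1
      rw [this] at hV
      exact hn.1 hV
    · intro h1
      have : V = -(P / P0) := by field_simp; linear_combination h1
      rw [this] at hV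
      exact hn.2 hV
  exact ⟨aux _ h.zero_left, aux _ h.zero_right⟩

lemma VRoots.iota {K : Type*} [Field K] {P0 P R l x V₀ V₁ : K} (hP0 : P0 ≠ 0) (hP : P ≠ 0)
    (hx : x ≠ 0) (hV₀ : V₀ ≠ 0) (hV₁ : V₁ ≠ 0) (h : VRoots P0 P R l x V₀ V₁) :
    VRoots P0 P R l (R / (P0 * x)) (P / (P0 * V₀)) (P / (P0 * V₁)) := by
  refine ⟨?_, ?_⟩
  · rw [cA_iota (P := P) hP0 hP hx, cB_iota hP0 hx, h.1, h.2]
    field_simp
    ring
  · rw [cA_iota (P := P) hP0 hP hx, cC_iota hP0 hP hx, h.2]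
    field_simp

/-- Covariance of the eliminant, over `ℂ`. -/
lemma NN_iota_aux (a : Par ℂ) (ha : a.Nz) {x V₀ V₁ W₀ W₁ : ℂ} (hx : x ≠ 0) (hx1 : x ≠ 1)
    (hV : VRoots a.P0 a.P2 a.R1 a.l21 x V₀ V₁) (hW : VRoots a.P0 a.P3 a.R1 a.l31 x W₀ W₁)
    (hn : Nondeg a.P0 a.P2 a.R1 a.l21 x) (hn' : Nondeg a.P0 a.P3 a.R1 a.l31 x) :
    NN a (a.R1 / (a.P0 * x)) * (cA a.P0 a.R1 x 1 ^ 64 * ((V₀ * V₁) * (W₀ * W₁)) ^ 32 * a.P0 ^ 64)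
      = cA a.P0 a.R1 (a.R1 / (a.P0 * x)) 1 ^ 64 * (a.P2 * a.P3) ^ 32 * NN a x := by
  obtain ⟨⟨v0, v1, v2⟩, ⟨v3, v4, v5⟩⟩ := hV.nondeg ha.P0 ha.P2 hx hx1 hn
  obtain ⟨⟨w0, w1, w2⟩, ⟨w3, w4, w5⟩⟩ := hW.nondeg ha.P0 ha.P3 hx hx1 hn'
  obtain ⟨r0, r1, hr⟩ := exists_Roots a.P0 a.P2 a.R3 a.l23 V₀ v2
  obtain ⟨r2, r3, hr'⟩ := exists_Roots a.P0 a.P2 a.R3 a.l23 V₁ v5
  obtain ⟨s0, s1, hs⟩ := exists_Roots a.P0 a.P3 a.R2 a.l32 W₀ w2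
  obtain ⟨s2, s3, hs'⟩ := exists_Roots a.P0 a.P3 a.R2 a.l32 W₁ w5
  have h00 := HH_iota a ha v0 w0 v1 w1 v2 w2 hr hs
  have h01 := HH_iota a ha v0 w3 v1 w4 v2 w5 hr hs'
  have h10 := HH_iota a ha v3 w0 v4 w1 v5 w2 hr' hs
  have h11 := HH_iota a ha v3 w3 v4 w4 v5 w5 hr' hs'
  have iV := hV.iota ha.P0 ha.P2 hx v0 v3
  have iW := hW.iota ha.P0 ha.P3 hx w0 w3
  rw [NN_eq a _ _ _ _ _ iV.1 iV.2 iW.1 iW.2, NN_eq a _ _ _ _ _ hV.1 hV.2 hW.1 hW.2]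
  generalize HH a (a.P2 / (a.P0 * V₀)) (a.P3 / (a.P0 * W₀)) = I00 at *
  generalize HH a (a.P2 / (a.P0 * V₀)) (a.P3 / (a.P0 * W₁)) = I01 at *
  generalize HH a (a.P2 / (a.P0 * V₁)) (a.P3 / (a.P0 * W₀)) = I10 at *
  generalize HH a (a.P2 / (a.P0 * V₁)) (a.P3 / (a.P0 * W₁)) = I11 at *
  generalize cA a.P0 a.R1 x 1 = A at *
  generalize cA a.P0 a.R1 (a.R1 / (a.P0 * x)) 1 = A' at *
  calc _ = A' ^ 64 * A ^ 64 * ((a.P0 ^ 16 * (V₀ * W₀) ^ 16 * I00) * (a.P0 ^ 16 * (V₀ * W₁) ^ 16 * I01)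
        * (a.P0 ^ 16 * (V₁ * W₀) ^ 16 * I10) * (a.P0 ^ 16 * (V₁ * W₁) ^ 16 * I11)) := by ring
    _ = _ := by rw [h00, h01, h10, h11]; ring

/-- Coercion of a real parameter set. -/
noncomputable def Par.toC (a : Par ℝ) : Par ℂ := a.map Complex.ofRealHom

lemma Par.Nz.toC {a : Par ℝ} (ha : a.Nz) : a.toC.Nz := by
  constructor <;> simp only [Par.toC, Par.map, Complex.ofRealHom_eq_coe, ne_eq,
    Complex.ofReal_eq_zero, Complex.ofReal_inj]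
  exacts [ha.P0, ha.P1, ha.P2, ha.P3, ha.R1, ha.R2, ha.R3, ha.P01, ha.P02, ha.P03, ha.R01, ha.R02,
    ha.R03]

lemma NN_toC (a : Par ℝ) (x : ℝ) : ((NN a x : ℝ) : ℂ) = NN a.toC x :=
  map_NN Complex.ofRealHom a x

lemma HH_toC (a : Par ℝ) (V W : ℝ) : ((HH a V W : ℝ) : ℂ) = HH a.toC V W :=
  map_HH Complex.ofRealHom a V W

lemma HH_conj (a : Par ℝ) (V W : ℂ) :
    (starRingEnd ℂ) (HH a.toC V W) = HH a.toC ((starRingEnd ℂ) V) ((starRingEnd ℂ) W) := by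
  have := map_HH (starRingEnd ℂ) a.toC V W
  rw [this]
  congr 1
  simp [Par.toC, Par.map]

lemma ofReal_cA (P0 R x : ℝ) : ((cA P0 R x 1 : ℝ) : ℂ) = cA (P0 : ℂ) R x 1 := by
  simp [cA]

lemma ofReal_cB (P0 P R l x : ℝ) : ((cB P0 P R l x 1 : ℝ) : ℂ) = cB (P0 : ℂ) P R l x 1 := by
  simp [cB]

lemma ofReal_cC (P x : ℝ) : ((cC P x 1 : ℝ) : ℂ) = cC (P : ℂ) x 1 := by
  simp [cC]

lemma ofReal_cH (P0 P R l x V : ℝ) :
    ((cH P0 P R l x 1 V 1 : ℝ) : ℂ) = cH (P0 : ℂ) P R l x 1 V 1 := by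
  simp [cH, cA, cB, cC]

lemma Nondeg.toC {P0 P R l x : ℝ} (h : Nondeg P0 P R l x) : Nondeg (P0 : ℂ) P R l x := by
  constructor
  · have := h.1
    intro h0
    apply this
    have e := ofReal_cH P0 P R l x (-1)
    push_cast at e
    rw [h0] at e
    exact_mod_cast e
  · have := h.2
    intro h0
    apply this
    have e := ofReal_cH P0 P R l x (-(P / P0))
    push_cast at e
    rw [h0] at e
    exact_mod_cast e

set_option maxRecDepth 10000 in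
/-- Covariance of the eliminant, over `ℝ`: the sign is preserved by the mirror symmetry. -/
lemma NN_iota (a : Par ℝ) (ha : a.Nz) {x : ℝ} (hx : x ≠ 0) (hx1 : x ≠ 1)
    (hxk : a.P0 * x - a.R1 ≠ 0)
    (hn : Nondeg a.P0 a.P2 a.R1 a.l21 x) (hn' : Nondeg a.P0 a.P3 a.R1 a.l31 x) :
    ∃ k : ℝ, 0 < k ∧ NN a (a.R1 / (a.P0 * x)) = k * NN a x := by
  have hA : cA a.P0 a.R1 x 1 ≠ 0 := by simpa [cA] using hxk
  have hAC : cA (a.P0 : ℂ) a.R1 x 1 ≠ 0 := by rw [← ofReal_cA]; exact_mod_cast hA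
  obtain ⟨V₀, V₁, hV⟩ := exists_VRoots a.P0 a.P2 a.R1 a.l21 x hAC
  obtain ⟨W₀, W₁, hW⟩ := exists_VRoots a.P0 a.P3 a.R1 a.l31 x hAC
  have hxC : (x : ℂ) ≠ 0 := by exact_mod_cast hx
  have hx1C : (x : ℂ) ≠ 1 := by exact_mod_cast hx1
  have key := NN_iota_aux a.toC ha.toC hxC hx1C hV hW hn.toC hn'.toC
  have hV' : V₀ * V₁ = ((cC a.P2 x 1 / cA a.P0 a.R1 x 1 : ℝ) : ℂ) := by
    rw [Complex.ofReal_div, ofReal_cA, ofReal_cC, eq_div_iff hAC, hV.2]; ring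
  have hW' : W₀ * W₁ = ((cC a.P3 x 1 / cA a.P0 a.R1 x 1 : ℝ) : ℂ) := by
    rw [Complex.ofReal_div, ofReal_cA, ofReal_cC, eq_div_iff hAC, hW.2]; ring
  rw [hV', hW'] at key
  have e1 : (a.toC.R1 / (a.toC.P0 * (x : ℂ))) = ((a.R1 / (a.P0 * x) : ℝ) : ℂ) := by
    simp [Par.toC, Par.map]
  rw [e1, ← NN_toC, ← NN_toC] at key
  have e2 : cA a.toC.P0 a.toC.R1 (x : ℂ) 1 = ((cA a.P0 a.R1 x 1 : ℝ) : ℂ) := by
    rw [ofReal_cA]; rfl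
  have e3 : cA a.toC.P0 a.toC.R1 ((a.R1 / (a.P0 * x) : ℝ) : ℂ) 1
      = ((cA a.P0 a.R1 (a.R1 / (a.P0 * x)) 1 : ℝ) : ℂ) := by
    rw [ofReal_cA]; rfl
  rw [e2, e3] at key
  have e4 : a.toC.P0 = ((a.P0 : ℝ) : ℂ) := rfl
  have e5 : a.toC.P2 = ((a.P2 : ℝ) : ℂ) := rfl
  have e6 : a.toC.P3 = ((a.P3 : ℝ) : ℂ) := rfl
  rw [e4, e5, e6] at key
  have key' : NN a (a.R1 / (a.P0 * x)) * (cA a.P0 a.R1 x 1 ^ 64 *
      ((cC a.P2 x 1 / cA a.P0 a.R1 x 1) * (cC a.P3 x 1 / cA a.P0 a.R1 x 1)) ^ 32 * a.P0 ^ 64)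
      = cA a.P0 a.R1 (a.R1 / (a.P0 * x)) 1 ^ 64 * (a.P2 * a.P3) ^ 32 * NN a x := by
    apply Complex.ofReal_injective
    simp only [Complex.ofReal_mul, Complex.ofReal_pow]
    exact key
  have hC2 : cC a.P2 x 1 ≠ 0 := by
    unfold cC; exact mul_ne_zero (mul_ne_zero ha.P2 hx) (sub_ne_zero.mpr hx1.symm)
  have hC3 : cC a.P3 x 1 ≠ 0 := by
    unfold cC; exact mul_ne_zero (mul_ne_zero ha.P3 hx) (sub_ne_zero.mpr hx1.symm)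
  have hA' : cA a.P0 a.R1 (a.R1 / (a.P0 * x)) 1 ≠ 0 := by
    rw [cA_iota (P := a.P2) ha.P0 ha.P2 hx]
    exact mul_ne_zero (mul_ne_zero (div_ne_zero ha.R1 (mul_ne_zero ha.P0 (pow_ne_zero 2 hx)))
      (div_ne_zero ha.P0 ha.P2)) hC2
  have pos1 : 0 < cA a.P0 a.R1 x 1 ^ 64 *
      ((cC a.P2 x 1 / cA a.P0 a.R1 x 1) * (cC a.P3 x 1 / cA a.P0 a.R1 x 1)) ^ 32 * a.P0 ^ 64 := by
    have q1 : 0 < cA a.P0 a.R1 x 1 ^ 64 := by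
      have : Even 64 := by decide
      exact this.pow_pos hA
    have q2 : 0 < ((cC a.P2 x 1 / cA a.P0 a.R1 x 1) * (cC a.P3 x 1 / cA a.P0 a.R1 x 1)) ^ 32 := by
      have : Even 32 := by decide
      exact this.pow_pos (mul_ne_zero (div_ne_zero hC2 hA) (div_ne_zero hC3 hA))
    have q3 : 0 < a.P0 ^ 64 := by
      have : Even 64 := by decide
      exact this.pow_pos ha.P0
    positivity
  have pos2 : 0 < cA a.P0 a.R1 (a.R1 / (a.P0 * x)) 1 ^ 64 * (a.P2 * a.P3) ^ 32 := by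
    have q1 : 0 < cA a.P0 a.R1 (a.R1 / (a.P0 * x)) 1 ^ 64 := by
      have : Even 64 := by decide
      exact this.pow_pos hA'
    have q2 : 0 < (a.P2 * a.P3) ^ 32 := by
      have : Even 32 := by decide
      exact this.pow_pos (mul_ne_zero ha.P2 ha.P3)
    positivity
  refine ⟨(cA a.P0 a.R1 (a.R1 / (a.P0 * x)) 1 ^ 64 * (a.P2 * a.P3) ^ 32) /
    (cA a.P0 a.R1 x 1 ^ 64 *
      ((cC a.P2 x 1 / cA a.P0 a.R1 x 1) * (cC a.P3 x 1 / cA a.P0 a.R1 x 1)) ^ 32 * a.P0 ^ 64),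
    div_pos pos2 pos1, ?_⟩
  rw [div_mul_eq_mul_div, eq_div_iff pos1.ne', key']

end Pool.Agent.MP01c1f4
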