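import Mathlib
import Pool.Agent.MP01c1f4.Sym

set_option autoImplicit false

open Polynomial

namespace Pool.Agent.MP01c1f4

/-- At a mirror-symmetric position the roots `V` are exchanged by the mirror symmetry. -/
lemma exists_VRoots_sym (P0 P R l c : ℂ) (hP0 : P0 ≠ 0) (hP : P ≠ 0) (hR : R ≠ 0) (hc1 : c ≠ 1)
    (hc : P0 * c ^ 2 = R) :
    ∃ V, V ≠ 0 ∧ VRoots P0 P R l c V (P / (P0 * V)) := by
  have hc0 : c ≠ 0 := by rintro rfl; apply hR; rw [← hc]; ring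
  have hAe : cA P0 R c 1 = P0 * c * (1 - c) := by
    simp only [cA]; rw [← hc]; ring
  have hA : cA P0 R c 1 ≠ 0 := by
    rw [hAe]; exact mul_ne_zero (mul_ne_zero hP0 hc0) (sub_ne_zero.mpr hc1.symm)
  obtain ⟨V₀, V₁, hV⟩ := exists_VRoots P0 P R l c hA
  have hprod : V₀ * V₁ = P / P0 := by
    have h2 := hV.2
    rw [hAe] at h2
    have : cC P c 1 = P * c * (1 - c) := by simp [cC]
    rw [this] at h2
    have h1c : (1 - c) ≠ 0 := sub_ne_zero.mpr hc1.symm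
    rw [eq_div_iff hP0]
    have : c * (1 - c) * (V₀ * V₁ * P0) = c * (1 - c) * P := by linear_combination -h2
    exact mul_left_cancel₀ (mul_ne_zero hc0 h1c) this
  have hV₀ : V₀ ≠ 0 := by
    rintro rfl
    rw [zero_mul] at hprod
    exact (div_ne_zero hP hP0) hprod.symm
  have hV₁ : V₁ = P / (P0 * V₀) := by
    field_simp
    rw [eq_div_iff hP0] at hprod
    linear_combination hprod
  exact ⟨V₀, hV₀, hV₁ ▸ hV⟩

/-- The set of the two roots is stable under conjugation. -/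
lemma conj_VRoots (P0 P R l c : ℝ) {V₀ V₁ : ℂ} (h : VRoots (P0 : ℂ) P R l c V₀ V₁)
    (hA : cA (P0 : ℂ) R c 1 ≠ 0) :
    ((starRingEnd ℂ) V₀ = V₀ ∧ (starRingEnd ℂ) V₁ = V₁) ∨
      ((starRingEnd ℂ) V₀ = V₁ ∧ (starRingEnd ℂ) V₁ = V₀) := by
  have hconj : cH (P0 : ℂ) P R l c 1 ((starRingEnd ℂ) V₀) 1 = 0 := by
    have := congrArg (starRingEnd ℂ) h.zero_left
    simpa [cH, cA, cB, cC] using this
  have hfac : cA (P0 : ℂ) R c 1 * (((starRingEnd ℂ) V₀ - V₀) * ((starRingEnd ℂ) V₀ - V₁)) = 0 := by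
    rw [← hconj]
    simp only [cH]
    rw [h.1, h.2]; ring
  rcases mul_eq_zero.mp ((mul_eq_zero.mp hfac).resolve_left hA) with h1 | h1
  · left
    have e0 : (starRingEnd ℂ) V₀ = V₀ := sub_eq_zero.mp h1
    refine ⟨e0, ?_⟩
    have hsum : cA (P0 : ℂ) R c 1 * (V₀ + V₁)
        = cA (P0 : ℂ) R c 1 * (V₀ + (starRingEnd ℂ) V₁) := by
      have e1 : cA (P0 : ℂ) R c 1 * (V₀ + V₁) = - cB (P0 : ℂ) P R l c 1 := by rw [h.1]; ring
      have e2 := congrArg (starRingEnd ℂ) e1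
      have e3 : (starRingEnd ℂ) (cA (P0 : ℂ) R c 1) = cA (P0 : ℂ) R c 1 := by simp [cA]
      have e4 : (starRingEnd ℂ) (cB (P0 : ℂ) P R l c 1) = cB (P0 : ℂ) P R l c 1 := by simp [cB]
      rw [map_mul, map_add, map_neg, e3, e4, e0] at e2
      rw [e1, e2]
    exact (add_left_cancel (mul_left_cancel₀ hA hsum)).symm
  · right
    have e0 : (starRingEnd ℂ) V₀ = V₁ := sub_eq_zero.mp h1
    refine ⟨e0, ?_⟩
    rw [← e0]; exact Complex.conj_conj V₀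

set_option maxRecDepth 10000 in
/-- At a mirror-symmetric position the eliminant is nonnegative. -/
lemma NN_nonneg (a : Par ℝ) (ha : a.Nz) {c : ℝ} (hc1 : c ≠ 1) (hc : a.P0 * c ^ 2 = a.R1)
    (hn : Nondeg a.P0 a.P2 a.R1 a.l21 c) (hn' : Nondeg a.P0 a.P3 a.R1 a.l31 c) :
    0 ≤ NN a c := by
  have haC := ha.toC
  have hc1C : (c : ℂ) ≠ 1 := by exact_mod_cast hc1
  have hcC : (a.P0 : ℂ) * (c : ℂ) ^ 2 = a.R1 := by exact_mod_cast hc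
  have hc0 : c ≠ 0 := by rintro rfl; apply ha.R1; rw [← hc]; ring
  have hc0C : (c : ℂ) ≠ 0 := by exact_mod_cast hc0
  have hP0 : (a.P0 : ℂ) ≠ 0 := haC.P0
  have hP2 : (a.P2 : ℂ) ≠ 0 := haC.P2
  have hP3 : (a.P3 : ℂ) ≠ 0 := haC.P3
  have hR1 : (a.R1 : ℂ) ≠ 0 := haC.R1
  have hA : cA (a.P0 : ℂ) a.R1 c 1 ≠ 0 := by
    have : cA (a.P0 : ℂ) a.R1 c 1 = a.P0 * c * (1 - c) := by
      simp only [cA]; rw [← hcC]; ring
    rw [this]; exact mul_ne_zero (mul_ne_zero hP0 hc0C) (sub_ne_zero.mpr hc1C.symm)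
  obtain ⟨V, hV0, hV⟩ := exists_VRoots_sym (a.P0 : ℂ) a.P2 a.R1 a.l21 c hP0 hP2 hR1 hc1C hcC
  obtain ⟨W, hW0, hW⟩ := exists_VRoots_sym (a.P0 : ℂ) a.P3 a.R1 a.l31 c hP0 hP3 hR1 hc1C hcC
  obtain ⟨⟨v0, v1, v2⟩, ⟨v3, v4, v5⟩⟩ := hV.nondeg hP0 hP2 hc0C hc1C hn.toC
  obtain ⟨⟨w0, w1, w2⟩, ⟨w3, w4, w5⟩⟩ := hW.nondeg hP0 hP3 hc0C hc1C hn'.toC
  obtain ⟨r0, r1, hr⟩ := exists_Roots (a.P0 : ℂ) a.P2 a.R3 a.l23 V v2
  obtain ⟨s0, s1, hs⟩ := exists_Roots (a.P0 : ℂ) a.P3 a.R2 a.l32 W w2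
  obtain ⟨s2, s3, hs'⟩ := exists_Roots (a.P0 : ℂ) a.P3 a.R2 a.l32 (a.P3 / (a.P0 * W)) w5
  have i1 := HH_iota a.toC haC v0 w0 v1 w1 v2 w2 hr hs
  have i2 := HH_iota a.toC haC v0 w3 v1 w4 v2 w5 hr hs'
  have ec0 : a.toC.P0 = (a.P0 : ℂ) := rfl
  have ec2 : a.toC.P2 = (a.P2 : ℂ) := rfl
  have ec3 : a.toC.P3 = (a.P3 : ℂ) := rfl
  rw [ec0, ec2, ec3] at i1 i2
  have ew : (a.P3 : ℂ) / (a.P0 * (a.P3 / (a.P0 * W))) = W := by field_simp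
  rw [ew] at i2
  have eN := NN_eq a.toC (c : ℂ) _ _ _ _ hV.1 hV.2 hW.1 hW.2
  -- the square root
  obtain ⟨h00, e00⟩ : ∃ z, z = HH a.toC V W := ⟨_, rfl⟩
  obtain ⟨h01, e01⟩ : ∃ z, z = HH a.toC V (a.P3 / (a.P0 * W)) := ⟨_, rfl⟩
  obtain ⟨h10, e10⟩ : ∃ z, z = HH a.toC (a.P2 / (a.P0 * V)) W := ⟨_, rfl⟩
  obtain ⟨h11, e11⟩ : ∃ z, z = HH a.toC (a.P2 / (a.P0 * V)) (a.P3 / (a.P0 * W)) := ⟨_, rfl⟩
  rw [← e00, ← e01, ← e10, ← e11] at eN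
  rw [← e00, ← e11] at i1
  rw [← e01, ← e10] at i2
  set z : ℂ := h00 * h01 / V ^ 16 with hz
  have e11' : h11 = (a.P2 * a.P3 : ℂ) ^ 8 * h00 / ((a.P0 : ℂ) ^ 16 * (V * W) ^ 16) := by
    rw [eq_div_iff (mul_ne_zero (pow_ne_zero _ hP0) (pow_ne_zero _ (mul_ne_zero hV0 hW0))), ← i1]
    ring
  have e10' : h10 = (a.P2 * a.P3 : ℂ) ^ 8 * h01 /
      ((a.P0 : ℂ) ^ 16 * (V * (a.P3 / (a.P0 * W))) ^ 16) := by
    rw [eq_div_iff (mul_ne_zero (pow_ne_zero _ hP0) (pow_ne_zero _ (mul_ne_zero hV0 w3))), ← i2]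
    ring
  have hprod : h00 * h01 * h10 * h11 = (a.P2 : ℂ) ^ 16 / (a.P0 : ℂ) ^ 16 * z ^ 2 := by
    rw [e10', e11', hz]
    field_simp
  -- realness of `z`
  have hcz : (starRingEnd ℂ) z = z := by
    have c00 : (starRingEnd ℂ) h00 = HH a.toC ((starRingEnd ℂ) V) ((starRingEnd ℂ) W) := by
      rw [e00, HH_conj]
    have c01 : (starRingEnd ℂ) h01 = HH a.toC ((starRingEnd ℂ) V)
        ((starRingEnd ℂ) (a.P3 / (a.P0 * W))) := by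
      rw [e01, HH_conj]
    have hz' : (starRingEnd ℂ) z
        = (starRingEnd ℂ) h00 * (starRingEnd ℂ) h01 / ((starRingEnd ℂ) V) ^ 16 := by
      rw [hz, map_div₀, map_mul, map_pow]
    rw [hz', c00, c01]
    rcases conj_VRoots a.P0 a.P2 a.R1 a.l21 c hV hA with ⟨g1, g2⟩ | ⟨g1, g2⟩ <;>
    rcases conj_VRoots a.P0 a.P3 a.R1 a.l31 c hW hA with ⟨k1, k2⟩ | ⟨k1, k2⟩
    · rw [g1, k1, k2, ← e00, ← e01]
    · rw [g1, k1, k2, ← e00, ← e01, mul_comm h01 h00]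
    · rw [g1, k1, k2, ← e10, ← e11, e10', e11', hz]
      field_simp
    · rw [g1, k1, k2, ← e10, ← e11, e10', e11', hz]
      field_simp
  obtain ⟨y, hy⟩ := Complex.conj_eq_iff_real.mp hcz
  have hfin : NN a c = cA a.P0 a.R1 c 1 ^ 64 * (a.P2 ^ 16 / a.P0 ^ 16 * y ^ 2) := by
    apply Complex.ofReal_injective
    rw [NN_toC, eN, hprod, hy]
    simp only [Complex.ofReal_mul, Complex.ofReal_pow, Complex.ofReal_div, ofReal_cA]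
    rfl
  rw [hfin]
  have e64 : Even 64 := by decide
  have e16 : Even 16 := by decide
  exact mul_nonneg (e64.pow_nonneg _) (mul_nonneg (div_nonneg (e16.pow_nonneg _)
    (e16.pow_nonneg _)) (sq_nonneg _))

end Pool.Agent.MP01c1f4
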