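import Mathlib
import Pool.Agent.MP01c1f4.Square

set_option autoImplicit false

open Polynomial Filter Topology

namespace Pool.Agent.MP01c1f4

/-- Real branches of the roots of a quadratic whose limit has two distinct real roots. -/
lemma quad_branch {l : Filter ℝ} {a b c : ℝ → ℝ} {a0 r s : ℝ} (ha : Tendsto a l (𝓝 a0))
    (hb : Tendsto b l (𝓝 (-a0 * (r + s)))) (hc : Tendsto c l (𝓝 (a0 * (r * s))))
    (h0 : a0 ≠ 0) (hrs : r ≠ s) :
    ∃ r' s' : ℝ → ℝ, Tendsto r' l (𝓝 r) ∧ Tendsto s' l (𝓝 s) ∧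
      ∀ᶠ t in l, b t = - a t * (r' t + s' t) ∧ c t = a t * (r' t * s' t) := by
  obtain ⟨σ, hσ⟩ : ∃ σ : ℝ, σ = ((SignType.sign (a0 * (r - s)) : SignType) : ℝ) := ⟨_, rfl⟩
  have hne : a0 * (r - s) ≠ 0 := mul_ne_zero h0 (sub_ne_zero.mpr hrs)
  have hD : Tendsto (fun t => b t ^ 2 - 4 * a t * c t) l (𝓝 ((a0 * (r - s)) ^ 2)) := by
    have h1 := (hb.pow 2).sub ((ha.const_mul 4).mul hc)
    have e : (-a0 * (r + s)) ^ 2 - 4 * a0 * (a0 * (r * s)) = (a0 * (r - s)) ^ 2 := by ring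
    rw [e] at h1
    exact h1
  have hpos : 0 < (a0 * (r - s)) ^ 2 := by positivity
  have hev : ∀ᶠ t in l, 0 < b t ^ 2 - 4 * a t * c t := hD.eventually_const_lt hpos
  have hev2 : ∀ᶠ t in l, a t ≠ 0 := ha.eventually_ne h0
  have hsq : Tendsto (fun t => σ * Real.sqrt (b t ^ 2 - 4 * a t * c t)) l
      (𝓝 (a0 * (r - s))) := by
    have h1 := (hD.sqrt).const_mul σ
    rw [Real.sqrt_sq_eq_abs, hσ, sign_mul_abs, ← hσ] at h1
    exact h1
  have hσ2 : σ ^ 2 = 1 := by
    rcases lt_or_gt_of_ne hne with h | h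
    · rw [hσ, sign_neg h]; norm_num
    · rw [hσ, sign_pos h]; norm_num
  refine ⟨fun t => (-b t + σ * Real.sqrt (b t ^ 2 - 4 * a t * c t)) / (2 * a t),
    fun t => (-b t - σ * Real.sqrt (b t ^ 2 - 4 * a t * c t)) / (2 * a t), ?_, ?_, ?_⟩
  · have h1 := (hb.neg.add hsq).div (ha.const_mul 2) (mul_ne_zero two_ne_zero h0)
    have e : (-(-a0 * (r + s)) + a0 * (r - s)) / (2 * a0) = r := by field_simp; ring
    rw [e] at h1
    exact h1
  · have h1 := (hb.neg.sub hsq).div (ha.const_mul 2) (mul_ne_zero two_ne_zero h0)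
    have e : (-(-a0 * (r + s)) - a0 * (r - s)) / (2 * a0) = s := by field_simp; ring
    rw [e] at h1
    exact h1
  · filter_upwards [hev, hev2] with t ht ht2
    have hs := Real.sq_sqrt ht.le
    generalize Real.sqrt (b t ^ 2 - 4 * a t * c t) = S at *
    constructor
    · field_simp; ring
    · field_simp
      linear_combination (σ ^ 2) * hs + (b t ^ 2 - 4 * a t * c t) * hσ2

/-- First-order expansion of a root. -/
lemma quad_slope {l : Filter ℝ} {a b c r ε γ : ℝ → ℝ} {a0 b0 r0 γ0 : ℝ}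
    (hr : Tendsto r l (𝓝 r0)) (ha : Tendsto a l (𝓝 a0)) (hb : Tendsto b l (𝓝 b0))
    (hroot : ∀ᶠ t in l, a t * r t ^ 2 + b t * r t + c t = 0)
    (hval : ∀ᶠ t in l, a t * r0 ^ 2 + b t * r0 + c t = ε t * γ t)
    (hγ : Tendsto γ l (𝓝 γ0)) (hδ : 2 * a0 * r0 + b0 ≠ 0) :
    ∃ μ : ℝ → ℝ, Tendsto μ l (𝓝 (-γ0 / (2 * a0 * r0 + b0))) ∧
      ∀ᶠ t in l, r t = r0 + ε t * μ t := by
  have hden : Tendsto (fun t => a t * (r t + r0) + b t) l (𝓝 (2 * a0 * r0 + b0)) := by
    have h1 := (ha.mul (hr.add_const r0)).add hb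
    have e : a0 * (r0 + r0) + b0 = 2 * a0 * r0 + b0 := by ring
    rw [e] at h1
    exact h1
  refine ⟨fun t => -γ t / (a t * (r t + r0) + b t), hγ.neg.div hden hδ, ?_⟩
  filter_upwards [hroot, hval, hden.eventually_ne hδ] with t h1 h2 h3
  have : (r t - r0) * (a t * (r t + r0) + b t) = - (ε t * γ t) := by
    rw [← h2]; linear_combination h1
  have h4 : r t - r0 = - (ε t * γ t) / (a t * (r t + r0) + b t) := by
    rw [eq_div_iff h3]; exact this
  calc r t = r0 + (r t - r0) := by ring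
    _ = _ := by rw [h4]; ring

section steps

variable (P0 P R l : ℝ)

lemma tendsto_cst_add : Tendsto (fun t : ℝ => 1 + t) (𝓝 0) (𝓝 1) := by
  have : Continuous fun t : ℝ => 1 + t := by fun_prop
  simpa using this.tendsto 0

/-- The branches `V` for `x = t → 0`. -/
lemma stepV0 (hR : R ≠ 0) :
    ∃ v0 v1 : ℝ → ℝ, Tendsto v0 (𝓝 0) (𝓝 (P / R)) ∧ Tendsto v1 (𝓝 0) (𝓝 ((R - l) / R)) ∧
      ∀ᶠ t in 𝓝 0, VRoots P0 P R l t (t * v0 t) (-1 + t * v1 t) := by
  have ha : Tendsto (fun t : ℝ => cA P0 R t 1) (𝓝 0) (𝓝 (-R)) := by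
    have : Continuous fun t : ℝ => cA P0 R t 1 := by unfold cA; fun_prop
    simpa [cA] using this.tendsto 0
  have hb : Tendsto (fun t : ℝ => cB P0 P R l t 1) (𝓝 0) (𝓝 (-(-R) * (0 + (-1)))) := by
    have : Continuous fun t : ℝ => cB P0 P R l t 1 := by unfold cB; fun_prop
    simpa [cB] using this.tendsto 0
  have hc : Tendsto (fun t : ℝ => cC P t 1) (𝓝 0) (𝓝 ((-R) * (0 * (-1)))) := by
    have : Continuous fun t : ℝ => cC P t 1 := by unfold cC; fun_prop
    simpa [cC] using this.tendsto 0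
  obtain ⟨r', s', hr, hs, hev⟩ := quad_branch ha hb hc (neg_ne_zero.mpr hR) (by norm_num)
  have hroot : ∀ᶠ t in 𝓝 (0 : ℝ), cA P0 R t 1 * r' t ^ 2 + cB P0 P R l t 1 * r' t + cC P t 1 = 0 := by
    filter_upwards [hev] with t ht; rw [ht.1, ht.2]; ring
  have hroot' : ∀ᶠ t in 𝓝 (0 : ℝ), cA P0 R t 1 * s' t ^ 2 + cB P0 P R l t 1 * s' t + cC P t 1 = 0 := by
    filter_upwards [hev] with t ht; rw [ht.1, ht.2]; ring
  have hγ1 : Tendsto (fun t : ℝ => P * (1 - t)) (𝓝 0) (𝓝 P) := by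
    have : Continuous fun t : ℝ => P * (1 - t) := by fun_prop
    simpa using this.tendsto 0
  have hγ2 : Tendsto (fun t : ℝ => P0 * t - R - P * t + l) (𝓝 0) (𝓝 (l - R)) := by
    have : Continuous fun t : ℝ => P0 * t - R - P * t + l := by fun_prop
    have h := this.tendsto 0
    have e : P0 * 0 - R - P * 0 + l = l - R := by ring
    rw [e] at h; exact h
  obtain ⟨v0, hv0, hv0'⟩ := quad_slope (ε := fun t => t) (γ := fun t => P * (1 - t)) hr ha hb hroot
    (Eventually.of_forall fun t => by simp only [cA, cB, cC]; ring) hγ1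
    (by simpa using hR)
  obtain ⟨v1, hv1, hv1'⟩ := quad_slope (ε := fun t => t)
    (γ := fun t => P0 * t - R - P * t + l) hs ha hb hroot'
    (Eventually.of_forall fun t => by simp only [cA, cB, cC]; ring) hγ2
    (by intro h; apply hR; linear_combination h)
  refine ⟨v0, v1, ?_, ?_, ?_⟩
  · have e : -P / (2 * -R * 0 + -(-R) * (0 + -1)) = P / R := by field_simp; ring
    rw [e] at hv0; exact hv0
  · have e : -(l - R) / (2 * -R * (-1) + -(-R) * (0 + -1)) = (R - l) / R := by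
      have : 2 * -R * (-1) + -(-R) * (0 + -1) = R := by ring
      rw [this]; ring
    rw [e] at hv1; exact hv1
  · filter_upwards [hev, hv0', hv1'] with t h1 h2 h3
    rw [zero_add] at h2
    refine ⟨?_, ?_⟩
    · rw [← h2, ← h3]; exact h1.1
    · rw [← h2, ← h3]; exact h1.2

/-- The branches `V` for `x = 1 + t → 1`. -/
lemma stepV1 (hPR : P0 ≠ R) (hPl : P ≠ l) :
    ∃ v0 V1 : ℝ → ℝ, Tendsto v0 (𝓝 0) (𝓝 (P / (P - l))) ∧
      Tendsto V1 (𝓝 0) (𝓝 ((l - P) / (P0 - R))) ∧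
      ∀ᶠ t in 𝓝 0, VRoots P0 P R l (1 + t) (t * v0 t) (V1 t) := by
  have hPR' : P0 - R ≠ 0 := sub_ne_zero.mpr hPR
  have hPl' : P - l ≠ 0 := sub_ne_zero.mpr hPl
  have hlP : l - P ≠ 0 := sub_ne_zero.mpr hPl.symm
  have ha : Tendsto (fun t : ℝ => cA P0 R (1 + t) 1) (𝓝 0) (𝓝 (P0 - R)) := by
    have : Continuous fun t : ℝ => cA P0 R (1 + t) 1 := by unfold cA; fun_prop
    simpa [cA] using this.tendsto 0
  have hb : Tendsto (fun t : ℝ => cB P0 P R l (1 + t) 1) (𝓝 0)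
      (𝓝 (-(P0 - R) * (0 + (l - P) / (P0 - R)))) := by
    have : Continuous fun t : ℝ => cB P0 P R l (1 + t) 1 := by unfold cB; fun_prop
    have h := this.tendsto 0
    have e : cB P0 P R l (1 + 0) 1 = -(P0 - R) * (0 + (l - P) / (P0 - R)) := by
      simp only [cB]; field_simp; ring
    rw [e] at h; exact h
  have hc : Tendsto (fun t : ℝ => cC P (1 + t) 1) (𝓝 0)
      (𝓝 ((P0 - R) * (0 * ((l - P) / (P0 - R))))) := by
    have : Continuous fun t : ℝ => cC P (1 + t) 1 := by unfold cC; fun_prop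
    have h := this.tendsto 0
    have e : cC P (1 + 0) 1 = (P0 - R) * (0 * ((l - P) / (P0 - R))) := by
      simp only [cC]; ring
    rw [e] at h; exact h
  obtain ⟨r', s', hr, hs, hev⟩ := quad_branch ha hb hc hPR' (by
    exact (div_ne_zero hlP hPR').symm)
  have hroot : ∀ᶠ t in 𝓝 (0 : ℝ), cA P0 R (1 + t) 1 * r' t ^ 2 + cB P0 P R l (1 + t) 1 * r' t
      + cC P (1 + t) 1 = 0 := by
    filter_upwards [hev] with t ht; rw [ht.1, ht.2]; ring
  have hγ1 : Tendsto (fun t : ℝ => -(P * (1 + t))) (𝓝 0) (𝓝 (-P)) := by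
    have : Continuous fun t : ℝ => -(P * (1 + t)) := by fun_prop
    simpa using this.tendsto 0
  have hδ : 2 * (P0 - R) * 0 + -(P0 - R) * (0 + (l - P) / (P0 - R)) = P - l := by
    field_simp; ring
  obtain ⟨v0, hv0, hv0'⟩ := quad_slope (ε := fun t => t) (γ := fun t => -(P * (1 + t))) hr ha hb hroot
    (Eventually.of_forall fun t => by simp only [cA, cB, cC]; ring) hγ1
    (by rw [hδ]; exact hPl')
  refine ⟨v0, s', ?_, hs, ?_⟩
  · rw [hδ, neg_neg] at hv0; exact hv0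
  · filter_upwards [hev, hv0'] with t h1 h2
    rw [zero_add] at h2
    refine ⟨?_, ?_⟩
    · rw [← h2]; exact h1.1
    · rw [← h2]; exact h1.2

/-- The branches `x` for `V = t * v t → 0`. -/
lemma stepX0 (hP : P ≠ 0) {v : ℝ → ℝ} {ν : ℝ} (hv : Tendsto v (𝓝 0) (𝓝 ν)) :
    ∃ μ0 μ1 : ℝ → ℝ, Tendsto μ0 (𝓝 0) (𝓝 (R * ν / P)) ∧
      Tendsto μ1 (𝓝 0) (𝓝 (ν * (P - l) / P)) ∧
      ∀ᶠ t in 𝓝 0, Roots P0 P R l (t * v t) (t * μ0 t) (1 + t * μ1 t) := by
  have hV : Tendsto (fun t => t * v t) (𝓝 0) (𝓝 0) := by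
    have := tendsto_id.mul hv
    simpa using this
  have ha : Tendsto (fun t => -(P0 * (t * v t) + P)) (𝓝 0) (𝓝 (-P)) := by
    have : Continuous fun V : ℝ => -(P0 * V + P) := by fun_prop
    have h := (this.tendsto 0).comp hV
    simpa [Function.comp_def] using h
  have hb : Tendsto (fun t => (1 + t * v t) * (P0 * (t * v t) + P) + (R - l) * (t * v t)) (𝓝 0)
      (𝓝 (-(-P) * (0 + 1))) := by
    have : Continuous fun V : ℝ => (1 + V) * (P0 * V + P) + (R - l) * V := by fun_prop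
    have h := (this.tendsto 0).comp hV
    simpa [Function.comp_def] using h
  have hc : Tendsto (fun t => -(R * (t * v t) * (1 + t * v t))) (𝓝 0) (𝓝 (-P * (0 * 1))) := by
    have : Continuous fun V : ℝ => -(R * V * (1 + V)) := by fun_prop
    have h := (this.tendsto 0).comp hV
    simpa [Function.comp_def] using h
  obtain ⟨r', s', hr, hs, hev⟩ := quad_branch ha hb hc (neg_ne_zero.mpr hP) (by norm_num)
  have hγ1 : Tendsto (fun t : ℝ => -(R * v t * (1 + t * v t))) (𝓝 0) (𝓝 (-(R * ν))) := by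
    have h := ((hv.const_mul R).mul (hV.const_add 1)).neg
    simpa using h
  have hγ2 : Tendsto (fun t : ℝ => v t * (P0 * (t * v t) + P - l - R * (t * v t))) (𝓝 0)
      (𝓝 (ν * (P - l))) := by
    have : Continuous fun V : ℝ => P0 * V + P - l - R * V := by fun_prop
    have h := hv.mul ((this.tendsto 0).comp hV)
    simpa [Function.comp_def] using h
  obtain ⟨v0, hv0, hv0'⟩ := quad_slope (ε := fun t => t)
    (γ := fun t => -(R * v t * (1 + t * v t)))
    (c := fun t => -(R * (t * v t) * (1 + t * v t))) hr ha hb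
    (by filter_upwards [hev] with t ht; rw [ht.1, ht.2]; ring)
    (Eventually.of_forall fun t => by ring) hγ1
    (by simpa using hP)
  obtain ⟨v1, hv1, hv1'⟩ := quad_slope (ε := fun t => t)
    (γ := fun t => v t * (P0 * (t * v t) + P - l - R * (t * v t)))
    (c := fun t => -(R * (t * v t) * (1 + t * v t))) hs ha hb
    (by filter_upwards [hev] with t ht; rw [ht.1, ht.2]; ring)
    (Eventually.of_forall fun t => by ring) hγ2
    (by intro h; apply hP; linear_combination -h)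
  refine ⟨v0, v1, ?_, ?_, ?_⟩
  · have e : -(-(R * ν)) / (2 * -P * 0 + -(-P) * (0 + 1)) = R * ν / P := by
      have : 2 * -P * 0 + -(-P) * (0 + 1) = P := by ring
      rw [this, neg_neg]
    rw [e] at hv0; exact hv0
  · have e : -(ν * (P - l)) / (2 * -P * 1 + -(-P) * (0 + 1)) = ν * (P - l) / P := by
      have : 2 * -P * 1 + -(-P) * (0 + 1) = -P := by ring
      rw [this, neg_div_neg_eq]
    rw [e] at hv1; exact hv1
  · filter_upwards [hev, hv0', hv1'] with t h1 h2 h3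
    rw [zero_add] at h2
    refine ⟨?_, ?_⟩
    · rw [← h2, ← h3]; linear_combination -h1.1
    · rw [← h2, ← h3]; linear_combination h1.2

/-- The branches `x` for `V = -1 + t * v t → -1`. -/
lemma stepX1 (hP : P0 ≠ P) (hRl : R ≠ l) {v : ℝ → ℝ} {ν : ℝ} (hv : Tendsto v (𝓝 0) (𝓝 ν)) :
    ∃ μ0 r1 : ℝ → ℝ, Tendsto μ0 (𝓝 0) (𝓝 (R * ν / (R - l))) ∧
      Tendsto r1 (𝓝 0) (𝓝 ((R - l) / (P0 - P))) ∧
      ∀ᶠ t in 𝓝 0, Roots P0 P R l (-1 + t * v t) (t * μ0 t) (r1 t) := by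
  have hP' : P0 - P ≠ 0 := sub_ne_zero.mpr hP
  have hRl' : R - l ≠ 0 := sub_ne_zero.mpr hRl
  have hV : Tendsto (fun t => -1 + t * v t) (𝓝 0) (𝓝 (-1)) := by
    have := (tendsto_id.mul hv).const_add (-1)
    simpa using this
  have ha : Tendsto (fun t => -(P0 * (-1 + t * v t) + P)) (𝓝 0) (𝓝 (P0 - P)) := by
    have : Continuous fun V : ℝ => -(P0 * V + P) := by fun_prop
    have h := (this.tendsto (-1)).comp hV
    have e : -(P0 * -1 + P) = P0 - P := by ring
    rw [e] at h; exact h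
  have hb : Tendsto (fun t => (1 + (-1 + t * v t)) * (P0 * (-1 + t * v t) + P)
      + (R - l) * (-1 + t * v t)) (𝓝 0) (𝓝 (-(P0 - P) * (0 + (R - l) / (P0 - P)))) := by
    have : Continuous fun V : ℝ => (1 + V) * (P0 * V + P) + (R - l) * V := by fun_prop
    have h := (this.tendsto (-1)).comp hV
    have e : (1 + -1) * (P0 * -1 + P) + (R - l) * -1 = -(P0 - P) * (0 + (R - l) / (P0 - P)) := by
      field_simp; ring
    rw [e] at h; exact h
  have hc : Tendsto (fun t => -(R * (-1 + t * v t) * (1 + (-1 + t * v t)))) (𝓝 0)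
      (𝓝 ((P0 - P) * (0 * ((R - l) / (P0 - P))))) := by
    have : Continuous fun V : ℝ => -(R * V * (1 + V)) := by fun_prop
    have h := (this.tendsto (-1)).comp hV
    have e : -(R * -1 * (1 + -1)) = (P0 - P) * (0 * ((R - l) / (P0 - P))) := by ring
    rw [e] at h; exact h
  obtain ⟨r', s', hr, hs, hev⟩ := quad_branch ha hb hc hP' (div_ne_zero hRl' hP').symm
  have hγ1 : Tendsto (fun t : ℝ => -(R * (-1 + t * v t) * v t)) (𝓝 0) (𝓝 (R * ν)) := by
    have h := ((hV.const_mul R).mul hv).neg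
    have e : -(R * -1 * ν) = R * ν := by ring
    rw [e] at h; exact h
  have hδ : 2 * (P0 - P) * 0 + -(P0 - P) * (0 + (R - l) / (P0 - P)) = -(R - l) := by
    field_simp; ring
  obtain ⟨v0, hv0, hv0'⟩ := quad_slope (ε := fun t => t)
    (γ := fun t => -(R * (-1 + t * v t) * v t))
    (c := fun t => -(R * (-1 + t * v t) * (1 + (-1 + t * v t)))) hr ha hb
    (by filter_upwards [hev] with t ht; rw [ht.1, ht.2]; ring)
    (Eventually.of_forall fun t => by ring) hγ1
    (by rw [hδ]; exact neg_ne_zero.mpr hRl')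
  refine ⟨v0, s', ?_, hs, ?_⟩
  · rw [hδ, neg_div_neg_eq] at hv0; exact hv0
  · filter_upwards [hev, hv0'] with t h1 h2
    rw [zero_add] at h2
    refine ⟨?_, ?_⟩
    · rw [← h2]; linear_combination -h1.1
    · rw [← h2]; linear_combination h1.2

end steps

end Pool.Agent.MP01c1f4
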