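import Mathlib
import Pool.Agent.MP01c1f4.Branch

set_option autoImplicit false

open Polynomial Filter Topology

namespace Pool.Agent.MP01c1f4

lemma tendsto3 {G : ℝ × ℝ × ℝ → ℝ} (hG : Continuous G) {μ ν : ℝ → ℝ} {μ0 ν0 : ℝ}
    (hμ : Tendsto μ (𝓝 0) (𝓝 μ0)) (hν : Tendsto ν (𝓝 0) (𝓝 ν0)) :
    Tendsto (fun t => G (t, μ t, ν t)) (𝓝 0) (𝓝 (G (0, μ0, ν0))) :=
  (hG.tendsto (0, μ0, ν0)).comp (tendsto_id.prodMk_nhds (hμ.prodMk_nhds hν))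

lemma tendsto2 {G : ℝ × ℝ → ℝ} (hG : Continuous G) {μ ν : ℝ → ℝ} {μ0 ν0 : ℝ}
    (hμ : Tendsto μ (𝓝 0) (𝓝 μ0)) (hν : Tendsto ν (𝓝 0) (𝓝 ν0)) :
    Tendsto (fun t => G (μ t, ν t)) (𝓝 0) (𝓝 (G (μ0, ν0))) :=
  (hG.tendsto (μ0, ν0)).comp (hμ.prodMk_nhds hν)

variable (P0 P R l R' l' : ℝ)

lemma EH_00 {μ ν : ℝ → ℝ} {μ0 ν0 : ℝ} (hμ : Tendsto μ (𝓝 0) (𝓝 μ0))
    (hν : Tendsto ν (𝓝 0) (𝓝 ν0)) :
    ∃ F : ℝ → ℝ, Tendsto F (𝓝 0)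
        (𝓝 (P * (R' * μ0 - R * ν0) * (R * (R' - l') * ν0 - R' * (R - l) * μ0))) ∧
      ∀ t, EH P0 P R l (t * μ t) 1 R' l' (t * ν t) 1 = t ^ 2 * F t := by
  let G : ℝ × ℝ × ℝ → ℝ := fun z =>
    ((-R + z.1 * (P0 * z.2.1)) * (P * z.2.2 * (1 - z.1 * z.2.2))
        - (-R' + z.1 * (P0 * z.2.2)) * (P * z.2.1 * (1 - z.1 * z.2.1))) ^ 2
    - ((-R * (P0 * z.2.2 + R' * z.2.2 + (P - l') * z.2.2 - z.1 * P0 * z.2.2 ^ 2)
          - R' * (P0 * z.2.1)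
          + R' * (P0 * z.2.1 + R * z.2.1 + (P - l) * z.2.1 - z.1 * P0 * z.2.1 ^ 2)
          + R * (P0 * z.2.2))
        + z.1 * ((P0 * z.2.1) * (P0 * z.2.2 + R' * z.2.2 + (P - l') * z.2.2
              - z.1 * P0 * z.2.2 ^ 2)
          - (P0 * z.2.2) * (P0 * z.2.1 + R * z.2.1 + (P - l) * z.2.1 - z.1 * P0 * z.2.1 ^ 2)))
      * ((-R + z.1 * (P0 * z.2.1 + R * z.2.1 + (P - l) * z.2.1 - z.1 * P0 * z.2.1 ^ 2))
            * (P * z.2.2 * (1 - z.1 * z.2.2))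
        - (-R' + z.1 * (P0 * z.2.2 + R' * z.2.2 + (P - l') * z.2.2 - z.1 * P0 * z.2.2 ^ 2))
            * (P * z.2.1 * (1 - z.1 * z.2.1)))
  have hG : Continuous G := by fun_prop
  refine ⟨fun t => G (t, μ t, ν t), ?_, fun t => ?_⟩
  · have h := tendsto3 hG hμ hν
    have e : G (0, μ0, ν0)
        = P * (R' * μ0 - R * ν0) * (R * (R' - l') * ν0 - R' * (R - l) * μ0) := by
      simp only [G]; ring
    rw [e] at h; exact h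
  · simp only [G, EH, cA, cB, cC]; ring

lemma EH_01 {μ ν : ℝ → ℝ} {μ0 ν0 : ℝ} (hμ : Tendsto μ (𝓝 0) (𝓝 μ0))
    (hν : Tendsto ν (𝓝 0) (𝓝 ν0)) :
    ∃ F : ℝ → ℝ, Tendsto F (𝓝 0)
        (𝓝 (-(R * ((P0 - R') - (P - l')) * P * (R * ν0 - (P - l') * μ0)))) ∧
      ∀ t, EH P0 P R l (t * μ t) 1 R' l' (1 + t * ν t) 1 = t * F t := by
  let G : ℝ × ℝ × ℝ → ℝ := fun z =>
    z.1 * (cA P0 R (z.1 * z.2.1) 1 * (-P * z.2.2 * (1 + z.1 * z.2.2))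
        - cA P0 R' (1 + z.1 * z.2.2) 1 * (P * z.2.1 * (1 - z.1 * z.2.1))) ^ 2
    - (cA P0 R (z.1 * z.2.1) 1 * cB P0 P R' l' (1 + z.1 * z.2.2) 1
        - cA P0 R' (1 + z.1 * z.2.2) 1 * cB P0 P R l (z.1 * z.2.1) 1)
      * (cB P0 P R l (z.1 * z.2.1) 1 * (-P * z.2.2 * (1 + z.1 * z.2.2))
        - cB P0 P R' l' (1 + z.1 * z.2.2) 1 * (P * z.2.1 * (1 - z.1 * z.2.1)))
  have hG : Continuous G := by
    simp only [G, cA, cB]; fun_prop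
  refine ⟨fun t => G (t, μ t, ν t), ?_, fun t => ?_⟩
  · have h := tendsto3 hG hμ hν
    have e : G (0, μ0, ν0)
        = -(R * ((P0 - R') - (P - l')) * P * (R * ν0 - (P - l') * μ0)) := by
      simp only [G, cA, cB]; ring
    rw [e] at h; exact h
  · simp only [G, EH, cA, cB, cC]; ring

lemma EH_11 {μ ν : ℝ → ℝ} {μ0 ν0 : ℝ} (hμ : Tendsto μ (𝓝 0) (𝓝 μ0))
    (hν : Tendsto ν (𝓝 0) (𝓝 ν0)) :
    ∃ F : ℝ → ℝ, Tendsto F (𝓝 0)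
        (𝓝 (-(((P0 - R) * (P - l') - (P0 - R') * (P - l)) * P
          * ((P - l') * μ0 - (P - l) * ν0)))) ∧
      ∀ t, EH P0 P R l (1 + t * μ t) 1 R' l' (1 + t * ν t) 1 = t * F t := by
  let G : ℝ × ℝ × ℝ → ℝ := fun z =>
    z.1 * (cA P0 R (1 + z.1 * z.2.1) 1 * (-P * z.2.2 * (1 + z.1 * z.2.2))
        - cA P0 R' (1 + z.1 * z.2.2) 1 * (-P * z.2.1 * (1 + z.1 * z.2.1))) ^ 2
    - (cA P0 R (1 + z.1 * z.2.1) 1 * cB P0 P R' l' (1 + z.1 * z.2.2) 1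
        - cA P0 R' (1 + z.1 * z.2.2) 1 * cB P0 P R l (1 + z.1 * z.2.1) 1)
      * (cB P0 P R l (1 + z.1 * z.2.1) 1 * (-P * z.2.2 * (1 + z.1 * z.2.2))
        - cB P0 P R' l' (1 + z.1 * z.2.2) 1 * (-P * z.2.1 * (1 + z.1 * z.2.1)))
  have hG : Continuous G := by
    simp only [G, cA, cB]; fun_prop
  refine ⟨fun t => G (t, μ t, ν t), ?_, fun t => ?_⟩
  · have h := tendsto3 hG hμ hν
    have e : G (0, μ0, ν0)
        = -(((P0 - R) * (P - l') - (P0 - R') * (P - l)) * P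
          * ((P - l') * μ0 - (P - l) * ν0)) := by
      simp only [G, cA, cB]; ring
    rw [e] at h; exact h
  · simp only [G, EH, cA, cB, cC]; ring

/-- The special pair: both positions escape to infinity at the same speed. -/
lemma EH_ii (ρ : ℝ) {w w' η η' : ℝ → ℝ} {w0 w0' κ κ' : ℝ} (hw : Tendsto w (𝓝 0) (𝓝 w0))
    (hw' : Tendsto w' (𝓝 0) (𝓝 w0')) (hη : Tendsto η (𝓝 0) (𝓝 κ))
    (hη' : Tendsto η' (𝓝 0) (𝓝 κ')) (hwR : ρ * w0 = R) (hwR' : ρ * w0' = R') :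
    ∃ F : ℝ → ℝ, Tendsto F (𝓝 0)
        (𝓝 (-(P * (w0 * w0') ^ 2 * (ρ * ((R - l) - (R' - l'))) * (κ' - κ + l' - l)))) ∧
      ∀ t, w t * (ρ + t * η t) = R → w' t * (ρ + t * η' t) = R' →
        EH P0 P R l (t * w t) 1 R' l' (t * w' t) 1 = t ^ 3 * F t := by
  let G : (ℝ × ℝ) × (ℝ × ℝ) × ℝ → ℝ := fun z =>
    P ^ 2 * z.2.2 * (z.1.1 * z.1.2) ^ 2 * (z.2.1.2 - z.2.1.1 + (ρ + z.2.2 * z.2.1.1) * z.1.2
        - (ρ + z.2.2 * z.2.1.2) * z.1.1 + z.2.2 * P0 * (z.1.1 - z.1.2)) ^ 2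
    - P * (z.1.1 * z.1.2) ^ 2 *
      ((z.2.2 * P0 - (ρ + z.2.2 * z.2.1.1)) * (z.2.2 * P0 - (ρ + z.2.2 * z.2.1.2))
          * (z.1.1 - z.1.2) + (P - l') * (z.2.2 * P0 - (ρ + z.2.2 * z.2.1.1))
        - (P - l) * (z.2.2 * P0 - (ρ + z.2.2 * z.2.1.2))) *
      ((1 - z.2.2 * z.1.1) * (1 - z.2.2 * z.1.2) * (z.2.1.2 - z.2.1.1)
        + (P - l) * (1 - z.2.2 * z.1.2) - (P - l') * (1 - z.2.2 * z.1.1))
  have hG : Continuous G := by fun_prop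
  refine ⟨fun t => G ((w t, w' t), (η t, η' t), t), ?_, fun t h1 h2 => ?_⟩
  · have h := (hG.tendsto ((w0, w0'), (κ, κ'), 0)).comp
      ((hw.prodMk_nhds hw').prodMk_nhds ((hη.prodMk_nhds hη').prodMk_nhds tendsto_id))
    have e : G ((w0, w0'), (κ, κ'), 0)
        = -(P * (w0 * w0') ^ 2 * (ρ * ((R - l) - (R' - l'))) * (κ' - κ + l' - l)) := by
      simp only [G]; rw [← hwR, ← hwR']; ring
    rw [e] at h; exact h
  · simp only [G, EH, cA, cB, cC]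
    rw [← h1, ← h2]
    ring

lemma EH_const {μ ν : ℝ → ℝ} {μ0 ν0 : ℝ} (hμ : Tendsto μ (𝓝 0) (𝓝 μ0))
    (hν : Tendsto ν (𝓝 0) (𝓝 ν0)) :
    Tendsto (fun t => EH P0 P R l (μ t) 1 R' l' (ν t) 1) (𝓝 0)
      (𝓝 (EH P0 P R l μ0 1 R' l' ν0 1)) := by
  have hG : Continuous fun z : ℝ × ℝ => EH P0 P R l z.1 1 R' l' z.2 1 := by
    unfold EH cA cB cC; fun_prop
  exact tendsto2 hG hμ hν

/-- The common displacement of two positions attached to the same `V`. -/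
lemma eta_eq {P0 P R l R' l' t V x : ℝ} (hV : V ≠ 0) (h1 : 1 + V - t ≠ 0) (h2 : 1 + V - x ≠ 0)
    (e1 : cH P0 P R l t 1 V 1 = 0) (e2 : cH P0 P R' l' x 1 V 1 = 0) :
    x * (R + t * (l / (1 + V - t) - l' / (1 + V - x))) = R' * t := by
  have k1 : (P0 * t - R) * V + P * t = l * t * V / (1 + V - t) := by
    rw [eq_div_iff h1]
    simp only [cH, cA, cB, cC] at e1
    linear_combination e1
  have k2 : (P0 * x - R') * V + P * x = l' * x * V / (1 + V - x) := by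
    rw [eq_div_iff h2]
    simp only [cH, cA, cB, cC] at e2
    linear_combination e2
  have : V * (x * (R + t * (l / (1 + V - t) - l' / (1 + V - x)))) = V * (R' * t) := by
    have k1' : (P0 * t - R) * V + P * t = l / (1 + V - t) * t * V := by rw [k1]; ring
    have k2' : (P0 * x - R') * V + P * x = l' / (1 + V - x) * x * V := by rw [k2]; ring
    linear_combination x * (-k1') + t * k2'
  exact mul_left_cancel₀ hV this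

end Pool.Agent.MP01c1f4
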