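import Mathlib

set_option autoImplicit false

open Matrix

namespace Pool.Agent.MP01c1f4

/-- First endpoints of the thirteen edges. -/
def eI : Fin 13 → Fin 8 := ![0, 1, 2, 3, 0, 0, 0, 1, 1, 2, 2, 3, 3]

/-- Second endpoints of the thirteen edges. -/
def eJ : Fin 13 → Fin 8 := ![4, 4, 4, 4, 5, 6, 7, 6, 7, 5, 7, 5, 6]

/-- The three pinned coordinates. -/
def pin : Fin 3 → Fin 8 × Fin 2 := ![(0, 0), (0, 1), (4, 0)]

section

variable {K : Type*} [CommRing K]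

/-- Squared distance. -/
def sqd (P : Fin 8 → Fin 2 → K) (i j : Fin 8) : K := ∑ k, (P i k - P j k) ^ 2

/-- The thirteen squared edge lengths. -/
def lam (P : Fin 8 → Fin 2 → K) : Fin 13 → K := fun e => sqd P (eI e) (eJ e)

/-- The rigidity matrix together with three pins. -/
def rmat (P : Fin 8 → Fin 2 → K) : Matrix (Fin 13 ⊕ Fin 3) (Fin 8 × Fin 2) K := fun r c =>
  match r with
  | Sum.inl e => (P (eI e) c.2 - P (eJ e) c.2) *
      ((if c.1 = eI e then 1 else 0) - (if c.1 = eJ e then 1 else 0))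
  | Sum.inr s => if c = pin s then 1 else 0

/-- Identification of rows and columns. -/
def rcEquiv : Fin 13 ⊕ Fin 3 ≃ Fin 8 × Fin 2 :=
  (finSumFinEquiv : Fin 13 ⊕ Fin 3 ≃ Fin 16).trans
    (finProdFinEquiv : Fin 8 × Fin 2 ≃ Fin 16).symm

/-- The square rigidity matrix. -/
def rsq (P : Fin 8 → Fin 2 → K) : Matrix (Fin 13 ⊕ Fin 3) (Fin 13 ⊕ Fin 3) K :=
  (rmat P).submatrix id rcEquiv

lemma map_rmat {L : Type*} [CommRing L] (φ : K →+* L) (P : Fin 8 → Fin 2 → K) :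
    (rmat P).map φ = rmat (fun v k => φ (P v k)) := by
  ext r c
  rcases r with e | s
  · simp only [Matrix.map_apply, rmat, map_mul, map_sub]
    split_ifs <;> simp
  · simp only [Matrix.map_apply, rmat]
    split_ifs <;> simp

lemma map_det_rsq {L : Type*} [CommRing L] (φ : K →+* L) (P : Fin 8 → Fin 2 → K) :
    φ (rsq P).det = (rsq (fun v k => φ (P v k))).det := by
  rw [RingHom.map_det]
  congr 1
  unfold rsq
  rw [← map_rmat]
  rfl

end

/-- An integral test placement. -/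
def P0z : Fin 8 → Fin 2 → ℤ :=
  ![![0, 0], ![-1, 0], ![-2, -2], ![-1, 0], ![-1, -2], ![-1, -1], ![0, -2], ![0, -1]]

/-- Twice the inverse of the rigidity matrix at the test placement, as a list of rows. -/
def Nl : Fin 16 → Fin 16 → ℤ := ![
  ![0, 0, 0, 0, 0, 0, 0, 0, 0, 0, 0, 0, 0, 2, 0, 0],
  ![0, 0, 0, 0, 0, 0, 0, 0, 0, 0, 0, 0, 0, 0, 2, 0],
  ![-1, 1, -1, 0, -1, 0, 3, 0, -2, -1, 1, 0, 0, 2, 0, 0],
  ![-1, 1, 0, 0, 0, 0, 0, 0, 0, 0, 0, 0, 0, 1, 2, -1],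
  ![0, 0, -2, 0, 0, 0, 0, 0, 0, 0, 0, 0, 0, 0, 0, 2],
  ![0, 0, 2, 0, -2, 0, 0, 0, 0, -2, 0, 0, 0, 2, 2, -2],
  ![-1, -1, -1, 2, -1, 0, 3, 2, -2, -1, 1, 0, -2, 2, 0, 0],
  ![-1, 0, 0, 1, 0, 0, 0, 0, 0, 0, 0, 0, 0, 1, 2, -1],
  ![0, 0, 0, 0, 0, 0, 0, 0, 0, 0, 0, 0, 0, 0, 0, 2],
  ![-1, 0, 0, 0, 0, 0, 0, 0, 0, 0, 0, 0, 0, 1, 2, -1],
  ![1, 0, 0, -1, -2, 0, 0, 0, 0, 0, 0, 2, 0, 1, 0, 1],
  ![-1, 0, 0, 1, 0, 0, 0, 0, 0, 0, 0, -2, 0, 1, 2, -1],
  ![1, -1, -1, 0, -1, -2, 3, 2, -2, -1, 1, 0, 0, 0, 0, 2],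
  ![0, 0, 0, 0, 0, -1, 0, 0, 0, 0, 0, 0, 0, 0, 2, 0],
  ![0, 0, -1, 0, -1, 0, 1, 0, 0, -1, 1, 0, 0, 1, 0, 1],
  ![0, 0, 0, 0, 0, 0, -2, 0, 0, 0, 0, 0, 0, 0, 2, 0]]

/-- Twice the inverse of the rigidity matrix at the test placement. -/
def Nz : Matrix (Fin 8 × Fin 2) (Fin 13 ⊕ Fin 3) ℤ := fun c r =>
  Nl (finProdFinEquiv c) (finSumFinEquiv r)

lemma rmat_mul_Nz : ∀ r r', ∑ c, rmat P0z r c * Nz c r' = if r = r' then 2 else 0 := by
  decide +kernel

lemma det_rsq_P0z : (rsq P0z).det ≠ 0 := by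
  have h : rsq P0z * (Nz.submatrix rcEquiv id) = (2 : ℤ) • (1 : Matrix _ _ ℤ) := by
    unfold rsq
    rw [Matrix.submatrix_mul_equiv]
    ext r r'
    have := rmat_mul_Nz r r'
    simp only [Matrix.submatrix_apply, id_eq, Matrix.mul_apply, this, Matrix.smul_apply,
      Matrix.one_apply, smul_eq_mul]
    split_ifs <;> simp
  have h2 := congrArg Matrix.det h
  rw [Matrix.det_mul, Matrix.det_smul, Matrix.det_one, mul_one] at h2
  intro h0
  rw [h0, zero_mul] at h2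
  exact absurd h2.symm (pow_ne_zero _ (by norm_num))

open MvPolynomial in
/-- The generic placement. -/
noncomputable def PX : Fin 8 → Fin 2 → MvPolynomial (Fin 8 × Fin 2) ℚ := fun v k => X (v, k)

lemma det_rsq_PX : (rsq PX).det ≠ 0 := by
  intro h
  have e := map_det_rsq (MvPolynomial.eval (fun c : Fin 8 × Fin 2 => ((P0z c.1 c.2 : ℤ) : ℚ))) PX
  rw [h, map_zero] at e
  have e2 := map_det_rsq (Int.castRingHom ℚ) P0z
  have e3 : (fun v k => (MvPolynomial.eval (fun c : Fin 8 × Fin 2 => ((P0z c.1 c.2 : ℤ) : ℚ)))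
      (PX v k)) = fun v k => (Int.castRingHom ℚ) (P0z v k) := by
    funext v k; simp [PX]
  rw [e3, ← e2] at e
  have e4 : (((rsq P0z).det : ℤ) : ℚ) = 0 := by simpa using e.symm
  exact det_rsq_P0z (by exact_mod_cast e4)

lemma det_rsq_of_gen {p : Fin 8 → Fin 2 → ℝ}
    (hp : AlgebraicIndependent ℚ (fun x : Fin 8 × Fin 2 => p x.1 x.2)) : (rsq p).det ≠ 0 := by
  intro h
  apply det_rsq_PX
  apply hp
  rw [map_zero]
  have e := map_det_rsq ((MvPolynomial.aeval (fun x : Fin 8 × Fin 2 => p x.1 x.2) :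
    MvPolynomial (Fin 8 × Fin 2) ℚ →ₐ[ℚ] ℝ) : MvPolynomial (Fin 8 × Fin 2) ℚ →+* ℝ) PX
  have e3 : (fun v k => ((MvPolynomial.aeval (fun x : Fin 8 × Fin 2 => p x.1 x.2) :
    MvPolynomial (Fin 8 × Fin 2) ℚ →ₐ[ℚ] ℝ) : MvPolynomial (Fin 8 × Fin 2) ℚ →+* ℝ)
      (PX v k)) = p := by
    funext v k; simp [PX]
  rw [e3, h] at e
  exact e

/-- Right kernel. -/
lemma rmat_ker {K : Type*} [CommRing K] [IsDomain K] {P : Fin 8 → Fin 2 → K}
    (h : (rsq P).det ≠ 0) {u : Fin 8 × Fin 2 → K} (hu : rmat P *ᵥ u = 0) : u = 0 := by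
  have h1 : rsq P *ᵥ (u ∘ rcEquiv) = 0 := by
    unfold rsq
    rw [Matrix.submatrix_mulVec_equiv]
    ext r
    have := congrFun hu r
    simpa [Function.comp_def] using this
  have h2 := Matrix.eq_zero_of_mulVec_eq_zero h h1
  funext c
  have := congrFun h2 (rcEquiv.symm c)
  simpa using this

/-- Left kernel. -/
lemma rmat_left_ker {K : Type*} [CommRing K] [IsDomain K] {P : Fin 8 → Fin 2 → K}
    (h : (rsq P).det ≠ 0) {w : Fin 13 → K} (hw : ∀ c, ∑ e, w e * rmat P (Sum.inl e) c = 0) :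
    w = 0 := by
  have h1 : (Sum.elim w 0) ᵥ* rsq P = 0 := by
    funext c
    simp only [Matrix.vecMul, dotProduct, rsq, Matrix.submatrix_apply, id_eq, Fintype.sum_sum_type,
      Sum.elim_inl, Sum.elim_inr, Pi.zero_apply, zero_mul, Finset.sum_const_zero, add_zero]
    exact hw _
  have h2 := Matrix.eq_zero_of_vecMul_eq_zero h h1
  funext e
  have := congrFun h2 (Sum.inl e)
  simpa using this

lemma rmat_mulVec_inl {K : Type*} [CommRing K] (P u : Fin 8 → Fin 2 → K) (e : Fin 13) :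
    (rmat P *ᵥ (fun c => u c.1 c.2)) (Sum.inl e)
      = ∑ k, (P (eI e) k - P (eJ e) k) * (u (eI e) k - u (eJ e) k) := by
  simp only [Matrix.mulVec, dotProduct, rmat, Fintype.sum_prod_type_right]
  refine Finset.sum_congr rfl fun k _ => ?_
  have : ∀ v : Fin 8, (P (eI e) k - P (eJ e) k) *
      ((if v = eI e then (1 : K) else 0) - (if v = eJ e then 1 else 0)) * u v k
      = (if v = eI e then (P (eI e) k - P (eJ e) k) * u v k else 0)
        - (if v = eJ e then (P (eI e) k - P (eJ e) k) * u v k else 0) := by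
    intro v
    split_ifs <;> ring
  rw [Finset.sum_congr rfl fun v _ => this v, Finset.sum_sub_distrib, Finset.sum_ite_eq',
    Finset.sum_ite_eq']
  simp only [Finset.mem_univ, if_true]
  ring

lemma rmat_mulVec_inr {K : Type*} [CommRing K] (P u : Fin 8 → Fin 2 → K) (s : Fin 3) :
    (rmat P *ᵥ (fun c => u c.1 c.2)) (Sum.inr s) = u (pin s).1 (pin s).2 := by
  simp only [Matrix.mulVec, dotProduct, rmat, ite_mul, one_mul, zero_mul]
  rw [Finset.sum_ite_eq']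
  simp

end Pool.Agent.MP01c1f4
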