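import Mathlib
import Pool.Agent.MP01c1f4.Rigid

set_option autoImplicit false

open MvPolynomial

namespace Pool.Agent.MP01c1f4

/-- Chain rule for partial derivatives. -/
lemma pderiv_aeval {σ τ : Type*} [Fintype τ] [DecidableEq τ]
    (f : τ → MvPolynomial σ ℚ) (v : σ) (Q : MvPolynomial τ ℚ) :
    pderiv v (aeval f Q) = ∑ e, aeval f (pderiv e Q) * pderiv v (f e) := by
  induction Q using MvPolynomial.induction_on with
  | C a => simp
  | add p q hp hq => simp only [map_add, hp, hq, add_mul, Finset.sum_add_distrib]
  | mul_X p n hp =>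
    rw [map_mul, aeval_X, pderiv_mul, hp]
    have : ∀ e, aeval f (pderiv e (p * X n)) * pderiv v (f e)
        = aeval f (pderiv e p) * pderiv v (f e) * f n
          + (if n = e then aeval f p * pderiv v (f e) else 0) := by
      intro e
      rw [pderiv_mul, map_add, map_mul, map_mul, aeval_X, pderiv_X]
      by_cases h : n = e
      · subst h; simp; ring
      · rw [Pi.single_eq_of_ne (by simpa using h)]; simp [h]; ring
    rw [Finset.sum_congr rfl fun e _ => this e, Finset.sum_add_distrib, Finset.sum_ite_eq,
      Finset.sum_mul]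
    simp

/-- A polynomial with vanishing partial derivatives is constant. -/
lemma const_of_pderiv {τ : Type*} [DecidableEq τ] (Q : MvPolynomial τ ℚ)
    (h : ∀ e, pderiv e Q = 0) : Q = C (coeff 0 Q) := by
  ext m
  rw [coeff_C]
  by_cases hm : m = 0
  · subst hm; simp
  · rw [if_neg (Ne.symm hm)]
    obtain ⟨e, he⟩ : ∃ e, m e ≠ 0 := by
      by_contra hne
      push Not at hne
      exact hm (Finsupp.ext hne)
    have h1 := congrArg (coeff (m - Finsupp.single e 1)) (h e)
    rw [coeff_pderiv, coeff_zero] at h1
    have h2 : m - Finsupp.single e 1 + Finsupp.single e 1 = m := by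
      apply Finsupp.sub_add_single_one_cancel he
    rw [h2] at h1
    rcases mul_eq_zero.mp h1 with h3 | h3
    · exact h3
    · exfalso
      norm_cast at h3

lemma totalDegree_pderiv_lt {τ : Type*} [DecidableEq τ] (Q : MvPolynomial τ ℚ) (e : τ)
    (h : pderiv e Q ≠ 0) : (pderiv e Q).totalDegree < Q.totalDegree := by
  have key : ∀ m ∈ (pderiv e Q).support, m.degree + 1 ≤ Q.totalDegree := by
    intro m hm
    rw [mem_support_iff, coeff_pderiv] at hm
    have h1 : coeff (m + Finsupp.single e 1) Q ≠ 0 := left_ne_zero_of_mul hm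
    have h2 := le_totalDegree (mem_support_iff.mpr h1)
    have h3 : (m + Finsupp.single e 1).degree = m.degree + 1 := by
      rw [map_add, Finsupp.degree_single]
    have h4 : ((m + Finsupp.single e 1).sum fun _ e => e) = (m + Finsupp.single e 1).degree := rfl
    omega
  obtain ⟨m, hm⟩ := (support_nonempty.mpr h)
  have hpos : 0 < Q.totalDegree := by have := key m hm; omega
  rw [totalDegree, Finset.sup_lt_iff (by simpa using hpos)]
  intro m hm
  have := key m hm
  have h4 : (m.sum fun _ e => e) = m.degree := rfl
  omega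

lemma pderiv_lam (v : Fin 8 × Fin 2) (e : Fin 13) :
    pderiv v (lam PX e) = 2 * rmat PX (Sum.inl e) v := by
  obtain ⟨v, k⟩ := v
  simp only [lam, sqd, PX, rmat, Fin.sum_univ_two, map_add, pderiv_pow, map_sub, pderiv_X,
    Pi.single_apply, Prod.mk.injEq]
  fin_cases k
  · simp only [Fin.zero_eta, and_true, Fin.isValue, one_ne_zero, and_false, if_false, sub_zero,
      mul_zero, add_zero, zero_ne_one, eq_comm]
    split_ifs <;> simp <;> ring
  · simp only [Fin.mk_one, and_true, Fin.isValue, one_ne_zero, and_false, if_false, sub_zero,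
      mul_zero, add_zero, zero_ne_one, eq_comm, zero_add]
    split_ifs <;> simp <;> ring

/-- The thirteen squared lengths are algebraically independent polynomials. -/
lemma algInd_lam_PX : AlgebraicIndependent ℚ (lam PX) := by
  rw [algebraicIndependent_iff]
  have key : ∀ n : ℕ, ∀ Q : MvPolynomial (Fin 13) ℚ, Q.totalDegree < n →
      aeval (lam PX) Q = 0 → Q = 0 := by
    intro n
    induction n with
    | zero => intro Q hQ; omega
    | succ n ih =>
      intro Q hQ h0
      have h1 : (fun e => aeval (lam PX) (pderiv e Q)) = 0 := by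
        apply rmat_left_ker det_rsq_PX
        intro c
        have h2 := pderiv_aeval (lam PX) c Q
        rw [h0, map_zero] at h2
        have h3 : (0 : MvPolynomial (Fin 8 × Fin 2) ℚ)
            = 2 * ∑ e, aeval (lam PX) (pderiv e Q) * rmat PX (Sum.inl e) c := by
          rw [h2, Finset.mul_sum]
          refine Finset.sum_congr rfl fun e _ => ?_
          rw [pderiv_lam]; ring
        exact (mul_eq_zero.mp h3.symm).resolve_left two_ne_zero
      have h2 : ∀ e, pderiv e Q = 0 := by
        intro e
        by_contra hne
        exact hne (ih _ (by have := totalDegree_pderiv_lt Q e hne; omega) (congrFun h1 e))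
      have h3 := const_of_pderiv Q h2
      rw [h3, aeval_C] at h0
      have h4 : coeff 0 Q = 0 := by
        have : Function.Injective (algebraMap ℚ (MvPolynomial (Fin 8 × Fin 2) ℚ)) :=
          (algebraMap ℚ (MvPolynomial (Fin 8 × Fin 2) ℚ)).injective
        exact this (by rw [h0, map_zero])
      rw [h3, h4, C_0]
  intro Q hQ
  exact key _ Q (Nat.lt_succ_self _) hQ

/-- The thirteen squared lengths of a generic placement are algebraically independent. -/
lemma algInd_lam {p : Fin 8 → Fin 2 → ℝ}
    (hp : AlgebraicIndependent ℚ (fun x : Fin 8 × Fin 2 => p x.1 x.2)) :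
    AlgebraicIndependent ℚ (lam p) := by
  have h := algInd_lam_PX.map' (f := aeval (fun x : Fin 8 × Fin 2 => p x.1 x.2)) hp
  have : (aeval (fun x : Fin 8 × Fin 2 => p x.1 x.2) : MvPolynomial (Fin 8 × Fin 2) ℚ →ₐ[ℚ] ℝ)
      ∘ lam PX = lam p := by
    funext e
    simp [lam, sqd, PX]
  rwa [this] at h

end Pool.Agent.MP01c1f4
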