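import Mathlib
import Pool.Agent.MP01c1f4.Indep

set_option autoImplicit false

open MvPolynomial

namespace Pool.Agent.MP01c1f4

/-- Gauge-fixed placements. -/
def gp {K : Type*} [CommRing K] (Y : Fin 13 → K) : Fin 8 → Fin 2 → K :=
  ![![0, 0], ![Y 1, Y 2], ![Y 3, Y 4], ![Y 5, Y 6], ![Y 0, 0], ![Y 7, Y 8], ![Y 9, Y 10],
    ![Y 11, Y 12]]

lemma map_gp {K L : Type*} [CommRing K] [CommRing L] (φ : K →+* L) (Y : Fin 13 → K) (v : Fin 8)
    (k : Fin 2) : φ (gp Y v k) = gp (fun i => φ (Y i)) v k := by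
  fin_cases v <;> fin_cases k <;> simp [gp]

lemma map_sqd {K L : Type*} [CommRing K] [CommRing L] (φ : K →+* L) (P : Fin 8 → Fin 2 → K)
    (i j : Fin 8) : φ (sqd P i j) = sqd (fun v k => φ (P v k)) i j := by
  simp [sqd]

lemma exists_gauge (q : Fin 8 → Fin 2 → ℝ) (h : 0 < sqd q 0 4) :
    ∃ Y : Fin 13 → ℝ, ∀ i j, sqd (gp Y) i j = sqd q i j := by
  obtain ⟨ℓ, hℓ, hℓ2⟩ : ∃ ℓ : ℝ, 0 < ℓ ∧ ℓ ^ 2 = sqd q 0 4 :=
    ⟨Real.sqrt (sqd q 0 4), Real.sqrt_pos.mpr h, Real.sq_sqrt h.le⟩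
  have hℓ0 := hℓ.ne'
  set c : ℝ := (q 4 0 - q 0 0) / ℓ with hc
  set s : ℝ := (q 4 1 - q 0 1) / ℓ with hs
  have hcs : c ^ 2 + s ^ 2 = 1 := by
    rw [hc, hs]
    have : (q 4 0 - q 0 0) ^ 2 + (q 4 1 - q 0 1) ^ 2 = ℓ ^ 2 := by
      rw [hℓ2]; simp only [sqd, Fin.sum_univ_two]; ring
    field_simp
    linear_combination this
  have e4 : c * (q 4 0 - q 0 0) + s * (q 4 1 - q 0 1) = ℓ := by
    rw [hc, hs]
    have : (q 4 0 - q 0 0) ^ 2 + (q 4 1 - q 0 1) ^ 2 = ℓ ^ 2 := by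
      rw [hℓ2]; simp only [sqd, Fin.sum_univ_two]; ring
    field_simp
    linear_combination this
  have e4' : -s * (q 4 0 - q 0 0) + c * (q 4 1 - q 0 1) = 0 := by
    rw [hc, hs]; field_simp; ring
  let q' : Fin 8 → Fin 2 → ℝ := fun v =>
    ![c * (q v 0 - q 0 0) + s * (q v 1 - q 0 1), -s * (q v 0 - q 0 0) + c * (q v 1 - q 0 1)]
  refine ⟨![ℓ, q' 1 0, q' 1 1, q' 2 0, q' 2 1, q' 3 0, q' 3 1, q' 5 0, q' 5 1, q' 6 0, q' 6 1,
    q' 7 0, q' 7 1], ?_⟩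
  have hq' : gp (![ℓ, q' 1 0, q' 1 1, q' 2 0, q' 2 1, q' 3 0, q' 3 1, q' 5 0, q' 5 1, q' 6 0,
      q' 6 1, q' 7 0, q' 7 1]) = q' := by
    funext v k
    fin_cases v
    · fin_cases k <;> simp [gp, q']
    · fin_cases k <;> simp [gp, q']
    · fin_cases k <;> simp [gp, q']
    · fin_cases k <;> simp [gp, q']
    · fin_cases k
      · simp [gp, q', e4]
      · simpa [gp, q'] using e4'.symm
    · fin_cases k <;> simp [gp, q']
    · fin_cases k <;> simp [gp, q']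
    · fin_cases k <;> simp [gp, q']
  intro i j
  rw [hq']
  simp only [sqd, Fin.sum_univ_two, q', Matrix.cons_val_zero, Matrix.cons_val_one]
  linear_combination ((q i 0 - q j 0) ^ 2 + (q i 1 - q j 1) ^ 2) * hcs

lemma exists_relation (i j : Fin 8) : ∃ Φ : MvPolynomial (Fin 14) ℚ, Φ ≠ 0 ∧
    aeval (Fin.cons (sqd (gp (X : Fin 13 → MvPolynomial (Fin 13) ℚ)) i j)
      (lam (gp (X : Fin 13 → MvPolynomial (Fin 13) ℚ))) : Fin 14 → MvPolynomial (Fin 13) ℚ) Φ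
      = 0 := by
  by_contra hno
  push Not at hno
  have h : AlgebraicIndependent ℚ (Fin.cons (sqd (gp (X : Fin 13 → MvPolynomial (Fin 13) ℚ)) i j)
      (lam (gp (X : Fin 13 → MvPolynomial (Fin 13) ℚ))) : Fin 14 → MvPolynomial (Fin 13) ℚ) := by
    rw [algebraicIndependent_iff]
    intro Q hQ
    by_contra hne
    exact hno Q hne hQ
  have h1 := h.cardinalMk_le_trdeg
  rw [MvPolynomial.trdeg_of_isDomain] at h1
  simp only [Cardinal.mk_fin, Cardinal.lift_natCast] at h1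
  norm_cast at h1

lemma aeval_cons_eq (l : Fin 13 → ℝ) (d : ℝ) (Φ : MvPolynomial (Fin 14) ℚ) :
    aeval (Fin.cons d l : Fin 14 → ℝ) Φ
      = ((finSuccEquiv ℚ 13 Φ).map ((aeval l : MvPolynomial (Fin 13) ℚ →ₐ[ℚ] ℝ) :
        MvPolynomial (Fin 13) ℚ →+* ℝ)).eval d := by
  induction Φ using MvPolynomial.induction_on with
  | C a => simp [finSuccEquiv_apply]
  | add p q hp hq => simp only [map_add, Polynomial.map_add, Polynomial.eval_add, hp, hq]
  | mul_X p n hp =>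
    rw [map_mul, map_mul, Polynomial.map_mul, Polynomial.eval_mul, hp, aeval_X]
    congr 1
    refine Fin.cases ?_ (fun n => ?_) n
    · simp [finSuccEquiv_X_zero]
    · simp [finSuccEquiv_X_succ]

lemma finite_values {p : Fin 8 → Fin 2 → ℝ} (hp : AlgebraicIndependent ℚ (lam p))
    (hpos : 0 < sqd p 0 4) (i j : Fin 8) :
    {d : ℝ | ∃ q : Fin 8 → Fin 2 → ℝ, lam q = lam p ∧ d = sqd q i j}.Finite := by
  obtain ⟨Φ, hΦ, hrel⟩ := exists_relation i j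
  set Ψ := (finSuccEquiv ℚ 13 Φ).map ((aeval (lam p) : MvPolynomial (Fin 13) ℚ →ₐ[ℚ] ℝ) :
        MvPolynomial (Fin 13) ℚ →+* ℝ) with hΨ
  have hΨ0 : Ψ ≠ 0 := by
    rw [hΨ]
    intro h0
    apply hΦ
    have h1 : finSuccEquiv ℚ 13 Φ = 0 := by
      apply Polynomial.map_injective _ (show Function.Injective
        ((aeval (lam p) : MvPolynomial (Fin 13) ℚ →ₐ[ℚ] ℝ) : MvPolynomial (Fin 13) ℚ →+* ℝ)
        from hp)
      rw [h0, Polynomial.map_zero]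
    exact (finSuccEquiv ℚ 13).injective (by rw [h1, map_zero])
  refine (Ψ.roots.toFinset.finite_toSet).subset ?_
  rintro d ⟨q, hq, rfl⟩
  have h04 : 0 < sqd q 0 4 := by
    have : lam q 0 = lam p 0 := by rw [hq]
    have e : ∀ r : Fin 8 → Fin 2 → ℝ, lam r 0 = sqd r 0 4 := fun r => rfl
    rw [e, e] at this
    rw [this]; exact hpos
  obtain ⟨Y, hY⟩ := exists_gauge q h04
  simp only [Finset.mem_coe, Multiset.mem_toFinset, Polynomial.mem_roots hΨ0, Polynomial.IsRoot]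
  rw [hΨ, ← aeval_cons_eq]
  have h1 := congrArg (aeval Y) hrel
  rw [map_zero, MvPolynomial.comp_aeval_apply] at h1
  rw [← h1]
  congr 1
  congr 1
  funext n
  have key : ∀ a b, sqd q a b = (aeval Y) (sqd (gp (X : Fin 13 → MvPolynomial (Fin 13) ℚ)) a b) := by
    intro a b
    have h2 := map_sqd ((aeval Y : MvPolynomial (Fin 13) ℚ →ₐ[ℚ] ℝ) : MvPolynomial (Fin 13) ℚ →+* ℝ)
      (gp (X : Fin 13 → MvPolynomial (Fin 13) ℚ)) a b
    have h3 : (fun v k => ((aeval Y : MvPolynomial (Fin 13) ℚ →ₐ[ℚ] ℝ) :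
        MvPolynomial (Fin 13) ℚ →+* ℝ) (gp (X : Fin 13 → MvPolynomial (Fin 13) ℚ) v k))
        = gp Y := by
      funext v k
      rw [map_gp]
      simp
    rw [h3, hY] at h2
    exact h2.symm
  refine Fin.cases ?_ (fun n => ?_) n
  · simpa using key i j
  · simp only [Fin.cons_succ]
    rw [← hq]
    exact key _ _

end Pool.Agent.MP01c1f4
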