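import Mathlib
import Pool.Agent.MP01c1f4.Elim

set_option autoImplicit false

open Polynomial Filter Topology

namespace Pool.Agent.MP01c1f4

/-- `f t` is asymptotic to a nonzero multiple of `t ^ k` as `t → 0`, `t ≠ 0`. -/
def Asy (k : ℕ) (f : ℝ → ℝ) : Prop :=
  ∃ F : ℝ → ℝ, ∃ φ : ℝ, φ ≠ 0 ∧ Tendsto F (𝓝[≠] 0) (𝓝 φ) ∧ ∀ᶠ t in 𝓝[≠] 0, f t = t ^ k * F t

lemma Asy.mul {k m : ℕ} {f g : ℝ → ℝ} (hf : Asy k f) (hg : Asy m g) :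
    Asy (k + m) (fun t => f t * g t) := by
  obtain ⟨F, φ, hφ, hF, hF'⟩ := hf
  obtain ⟨G, ψ, hψ, hG, hG'⟩ := hg
  refine ⟨fun t => F t * G t, φ * ψ, mul_ne_zero hφ hψ, hF.mul hG, ?_⟩
  filter_upwards [hF', hG'] with t h1 h2
  rw [h1, h2, pow_add]; ring

lemma Asy.pow {k : ℕ} {f : ℝ → ℝ} (hf : Asy k f) (n : ℕ) : Asy (k * n) (fun t => f t ^ n) := by
  obtain ⟨F, φ, hφ, hF, hF'⟩ := hf
  refine ⟨fun t => F t ^ n, φ ^ n, pow_ne_zero _ hφ, hF.pow n, ?_⟩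
  filter_upwards [hF'] with t h1
  rw [h1, mul_pow, pow_mul]

lemma Asy.congr {k : ℕ} {f g : ℝ → ℝ} (hf : Asy k f) (h : ∀ᶠ t in 𝓝[≠] 0, g t = f t) :
    Asy k g := by
  obtain ⟨F, φ, hφ, hF, hF'⟩ := hf
  exact ⟨F, φ, hφ, hF, by filter_upwards [hF', h] with t h1 h2; rw [h2, h1]⟩

lemma Asy.of_tendsto {f : ℝ → ℝ} {φ : ℝ} (hφ : φ ≠ 0) (h : Tendsto f (𝓝 0) (𝓝 φ)) :
    Asy 0 f :=
  ⟨f, φ, hφ, h.mono_left nhdsWithin_le_nhds, Eventually.of_forall fun t => by simp⟩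

lemma Asy.of_exists {k : ℕ} {f : ℝ → ℝ} {φ : ℝ} (hφ : φ ≠ 0)
    (h : ∃ F : ℝ → ℝ, Tendsto F (𝓝 0) (𝓝 φ) ∧ ∀ t, f t = t ^ k * F t) : Asy k f := by
  obtain ⟨F, hF, hF'⟩ := h
  exact ⟨F, φ, hφ, hF.mono_left nhdsWithin_le_nhds, Eventually.of_forall hF'⟩

lemma Asy.of_exists_one {f : ℝ → ℝ} {φ : ℝ} (hφ : φ ≠ 0)
    (h : ∃ F : ℝ → ℝ, Tendsto F (𝓝 0) (𝓝 φ) ∧ ∀ t, f t = t * F t) : Asy 1 f := by
  obtain ⟨F, hF, hF'⟩ := h
  exact ⟨F, φ, hφ, hF.mono_left nhdsWithin_le_nhds,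
    Eventually.of_forall fun t => by rw [hF' t, pow_one]⟩

/-- The closing form as a function of the finite positions `x₃`, `x₂`. -/
noncomputable def Ef (a : Par ℝ) (x y : ℝ) : ℝ :=
  EH a.P0 a.P1 a.R3 a.l13 x 1 a.R2 a.l12 y 1

/-- Genericity conditions used in the local analysis. -/
structure Gen (a : Par ℝ) : Prop where
  nz : a.Nz
  n1 : a.R3 ≠ a.l23
  n2 : a.R2 ≠ a.l32
  n3 : a.P2 ≠ a.l21
  n4 : a.P3 ≠ a.l31
  c1 : (a.R3 - a.l13) - (a.R2 - a.l12) ≠ 0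
  c2 : (a.l31 - a.l32) - (a.l21 - a.l23) + a.l12 - a.l13 ≠ 0
  c3 : (a.P0 - a.R2) - (a.P1 - a.l12) ≠ 0
  c4 : (a.P0 - a.R3) - (a.P1 - a.l13) ≠ 0
  c5 : (a.P3 - a.l32) - (a.P1 - a.l12) ≠ 0
  c6 : (a.P2 - a.l23) - (a.P1 - a.l13) ≠ 0
  c7 : (a.P0 - a.R3) * (a.P1 - a.l12) - (a.P0 - a.R2) * (a.P1 - a.l13) ≠ 0
  c8 : (a.P1 - a.l12) * (a.P2 - a.l23) - (a.P1 - a.l13) * (a.P3 - a.l32) ≠ 0
  c9 : (a.R2 - a.l32) - (a.R1 - a.l31) ≠ 0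
  c9' : (a.R3 - a.l23) - (a.R1 - a.l21) ≠ 0
  c10 : (a.R2 - a.l12) * (a.R1 - a.l31) - (a.R3 - a.l13) * (a.R2 - a.l32) ≠ 0
  c10' : (a.R3 - a.l13) * (a.R1 - a.l21) - (a.R2 - a.l12) * (a.R3 - a.l23) ≠ 0
  c11 : (a.P2 - a.l23) * (a.R2 - a.l32) - (a.P1 - a.l13) * (a.R1 - a.l31) ≠ 0
  c11' : (a.P3 - a.l32) * (a.R3 - a.l23) - (a.P1 - a.l12) * (a.R1 - a.l21) ≠ 0
  c12 : Ef a 0 ((a.R2 - a.l32) / (a.P0 - a.P3)) ≠ 0
  c12' : Ef a ((a.R3 - a.l23) / (a.P0 - a.P2)) 0 ≠ 0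
  c13 : Ef a 1 ((a.R2 - a.l32) / (a.P0 - a.P3)) ≠ 0
  c13' : Ef a ((a.R3 - a.l23) / (a.P0 - a.P2)) 1 ≠ 0
  c14 : (a.R1 - a.l21) * (a.R2 - a.l32) - (a.R1 - a.l31) * (a.R3 - a.l23) ≠ 0
  c15 : (a.R2 - a.l12) * (a.R1 - a.l31) * (a.R3 - a.l23)
    - (a.R3 - a.l13) * (a.R1 - a.l21) * (a.R2 - a.l32) ≠ 0
  c16 : Ef a ((a.R3 - a.l23) / (a.P0 - a.P2)) ((a.R2 - a.l32) / (a.P0 - a.P3)) ≠ 0
  d1 : (a.P3 - a.l31) - (a.P2 - a.l21) ≠ 0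
  d2 : (a.R2 - a.l12) * (a.P2 - a.l21) - (a.R3 - a.l13) * (a.P3 - a.l31) ≠ 0
  d3 : (a.P3 - a.l32) * (a.P2 - a.l21) - (a.P1 - a.l12) * (a.P3 - a.l31) ≠ 0
  d4 : (a.P2 - a.l23) * (a.P3 - a.l31) - (a.P1 - a.l13) * (a.P2 - a.l21) ≠ 0
  d5 : (a.P1 - a.l12) * (a.P2 - a.l23) * (a.P3 - a.l31)
    - (a.P1 - a.l13) * (a.P3 - a.l32) * (a.P2 - a.l21) ≠ 0

section

variable {a : Par ℝ}

/-- `HH` as a product, with asymptotics. -/
lemma Asy.HH {V W r₀ r₁ s₀ s₁ : ℝ → ℝ} {k : ℕ} {V0 W0 : ℝ}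
    (hV : Tendsto V (𝓝 0) (𝓝 V0)) (hW : Tendsto W (𝓝 0) (𝓝 W0))
    (hA : a.P0 * V0 + a.P2 ≠ 0) (hB : a.P0 * W0 + a.P3 ≠ 0)
    (h : ∀ᶠ t in 𝓝 0, Roots a.P0 a.P2 a.R3 a.l23 (V t) (r₀ t) (r₁ t))
    (h' : ∀ᶠ t in 𝓝 0, Roots a.P0 a.P3 a.R2 a.l32 (W t) (s₀ t) (s₁ t))
    (hE : Asy k fun t => Ef a (r₀ t) (s₀ t) * Ef a (r₀ t) (s₁ t)
      * (Ef a (r₁ t) (s₀ t) * Ef a (r₁ t) (s₁ t))) :
    Asy k fun t => MP01c1f4.HH a (V t) (W t) := by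
  have hA' : Tendsto (fun t => a.P0 * V t + a.P2) (𝓝 0) (𝓝 (a.P0 * V0 + a.P2)) :=
    (hV.const_mul _).add_const _
  have hB' : Tendsto (fun t => a.P0 * W t + a.P3) (𝓝 0) (𝓝 (a.P0 * W0 + a.P3)) :=
    (hW.const_mul _).add_const _
  have hp : Asy 0 fun t => ((a.P0 * V t + a.P2) * (a.P0 * W t + a.P3)) ^ 8 :=
    Asy.of_tendsto (pow_ne_zero 8 (mul_ne_zero hA hB)) ((hA'.mul hB').pow 8)
  have := hp.mul hE
  rw [zero_add] at this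
  refine this.congr ?_
  have e : ∀ᶠ t in 𝓝 0, MP01c1f4.HH a (V t) (W t)
      = ((a.P0 * V t + a.P2) * (a.P0 * W t + a.P3)) ^ 8 *
        (Ef a (r₀ t) (s₀ t) * Ef a (r₀ t) (s₁ t) * (Ef a (r₁ t) (s₀ t) * Ef a (r₁ t) (s₁ t))) := by
    filter_upwards [h, h', hA'.eventually_ne hA, hB'.eventually_ne hB] with t h1 h2 h3 h4
    exact HH_roots a h3 h4 h1 h2
  exact e.filter_mono nhdsWithin_le_nhds

lemma Asy.E00 {μ ν : ℝ → ℝ} {μ0 ν0 : ℝ} (hμ : Tendsto μ (𝓝 0) (𝓝 μ0))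
    (hν : Tendsto ν (𝓝 0) (𝓝 ν0)) (hP : a.P1 ≠ 0)
    (h1 : a.R2 * μ0 - a.R3 * ν0 ≠ 0)
    (h2 : a.R3 * (a.R2 - a.l12) * ν0 - a.R2 * (a.R3 - a.l13) * μ0 ≠ 0) :
    Asy 2 fun t => Ef a (t * μ t) (t * ν t) :=
  Asy.of_exists (mul_ne_zero (mul_ne_zero hP h1) h2)
    (EH_00 a.P0 a.P1 a.R3 a.l13 a.R2 a.l12 hμ hν)

lemma Asy.E01 {μ ν : ℝ → ℝ} {μ0 ν0 : ℝ} (hμ : Tendsto μ (𝓝 0) (𝓝 μ0))
    (hν : Tendsto ν (𝓝 0) (𝓝 ν0)) (hP : a.P1 ≠ 0) (hR : a.R3 ≠ 0)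
    (h1 : (a.P0 - a.R2) - (a.P1 - a.l12) ≠ 0)
    (h2 : a.R3 * ν0 - (a.P1 - a.l12) * μ0 ≠ 0) :
    Asy 1 fun t => Ef a (t * μ t) (1 + t * ν t) :=
  Asy.of_exists_one (neg_ne_zero.mpr (mul_ne_zero (mul_ne_zero (mul_ne_zero hR h1) hP) h2))
    (EH_01 a.P0 a.P1 a.R3 a.l13 a.R2 a.l12 hμ hν)

lemma Asy.E10 {μ ν : ℝ → ℝ} {μ0 ν0 : ℝ} (hμ : Tendsto μ (𝓝 0) (𝓝 μ0))
    (hν : Tendsto ν (𝓝 0) (𝓝 ν0)) (hP : a.P1 ≠ 0) (hR : a.R2 ≠ 0)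
    (h1 : (a.P0 - a.R3) - (a.P1 - a.l13) ≠ 0)
    (h2 : a.R2 * μ0 - (a.P1 - a.l13) * ν0 ≠ 0) :
    Asy 1 fun t => Ef a (1 + t * μ t) (t * ν t) := by
  have := Asy.of_exists_one (neg_ne_zero.mpr (mul_ne_zero (mul_ne_zero (mul_ne_zero hR h1) hP) h2))
    (EH_01 a.P0 a.P1 a.R2 a.l12 a.R3 a.l13 hν hμ)
  exact this.congr (Eventually.of_forall fun t => EH_symm _ _ _ _ _ _ _ _ _ _)

lemma Asy.E11 {μ ν : ℝ → ℝ} {μ0 ν0 : ℝ} (hμ : Tendsto μ (𝓝 0) (𝓝 μ0))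
    (hν : Tendsto ν (𝓝 0) (𝓝 ν0)) (hP : a.P1 ≠ 0)
    (h1 : (a.P0 - a.R3) * (a.P1 - a.l12) - (a.P0 - a.R2) * (a.P1 - a.l13) ≠ 0)
    (h2 : (a.P1 - a.l12) * μ0 - (a.P1 - a.l13) * ν0 ≠ 0) :
    Asy 1 fun t => Ef a (1 + t * μ t) (1 + t * ν t) :=
  Asy.of_exists_one (neg_ne_zero.mpr (mul_ne_zero (mul_ne_zero h1 hP) h2))
    (EH_11 a.P0 a.P1 a.R3 a.l13 a.R2 a.l12 hμ hν)

lemma Asy.Econst {μ ν : ℝ → ℝ} {μ0 ν0 : ℝ} (hμ : Tendsto μ (𝓝 0) (𝓝 μ0))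
    (hν : Tendsto ν (𝓝 0) (𝓝 ν0)) (h : Ef a μ0 ν0 ≠ 0) :
    Asy 0 fun t => Ef a (μ t) (ν t) :=
  Asy.of_tendsto h (EH_const _ _ _ _ _ _ hμ hν)

lemma tendsto_t_mul {μ : ℝ → ℝ} {μ0 : ℝ} (hμ : Tendsto μ (𝓝 0) (𝓝 μ0)) :
    Tendsto (fun t => t * μ t) (𝓝 0) (𝓝 0) := by
  simpa using tendsto_id.mul hμ

lemma tendsto_c_add_t_mul (c : ℝ) {μ : ℝ → ℝ} {μ0 : ℝ} (hμ : Tendsto μ (𝓝 0) (𝓝 μ0)) :
    Tendsto (fun t => c + t * μ t) (𝓝 0) (𝓝 c) := by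
  simpa using (tendsto_t_mul hμ).const_add c

/-- Asymptotics of the eliminant at `x₁ = 0`. -/
lemma asy_zero (h : Gen a) : Asy 14 fun t => NN a t := by
  have hz := h.nz
  have P03 : a.P0 - a.P3 ≠ 0 := sub_ne_zero.mpr hz.P03
  have P02 : a.P0 - a.P2 ≠ 0 := sub_ne_zero.mpr hz.P02
  have n1 : a.R3 - a.l23 ≠ 0 := sub_ne_zero.mpr h.n1
  have n2 : a.R2 - a.l32 ≠ 0 := sub_ne_zero.mpr h.n2
  have hR1 := hz.R1
  have hR2 := hz.R2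
  have hR3 := hz.R3
  have hP1 := hz.P1
  have hP2 := hz.P2
  have hP3 := hz.P3
  obtain ⟨v0, v1, hv0, hv1, hV⟩ := stepV0 a.P0 a.P2 a.R1 a.l21 hz.R1
  obtain ⟨w0, w1, hw0, hw1, hW⟩ := stepV0 a.P0 a.P3 a.R1 a.l31 hz.R1
  obtain ⟨μ0, μ1, hμ0, hμ1, hM⟩ := stepX0 a.P0 a.P2 a.R3 a.l23 hz.P2 hv0
  obtain ⟨ν0, ν1, hν0, hν1, hN⟩ := stepX0 a.P0 a.P3 a.R2 a.l32 hz.P3 hw0
  obtain ⟨μ2, r, hμ2, hr, hM'⟩ := stepX1 a.P0 a.P2 a.R3 a.l23 hz.P02 h.n1 hv1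
  obtain ⟨ν2, s, hν2, hs, hN'⟩ := stepX1 a.P0 a.P3 a.R2 a.l32 hz.P03 h.n2 hw1
  have eμ0 : a.R3 * (a.P2 / a.R1) / a.P2 = a.R3 / a.R1 := by field_simp
  have eν0 : a.R2 * (a.P3 / a.R1) / a.P3 = a.R2 / a.R1 := by field_simp
  have eμ1 : a.P2 / a.R1 * (a.P2 - a.l23) / a.P2 = (a.P2 - a.l23) / a.R1 := by field_simp
  have eν1 : a.P3 / a.R1 * (a.P3 - a.l32) / a.P3 = (a.P3 - a.l32) / a.R1 := by field_simp
  rw [eμ0] at hμ0
  rw [eν0] at hν0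
  rw [eμ1] at hμ1
  rw [eν1] at hν1
  have tV0 := tendsto_t_mul hv0
  have tV1 := tendsto_c_add_t_mul (-1) hv1
  have tW0 := tendsto_t_mul hw0
  have tW1 := tendsto_c_add_t_mul (-1) hw1
  have A0 : a.P0 * 0 + a.P2 ≠ 0 := by simpa using hz.P2
  have A1 : a.P0 * (-1) + a.P2 ≠ 0 := by
    intro h0; apply P02; linear_combination -h0
  have B0 : a.P0 * 0 + a.P3 ≠ 0 := by simpa using hz.P3
  have B1 : a.P0 * (-1) + a.P3 ≠ 0 := by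
    intro h0; apply P03; linear_combination -h0
  -- the special pair
  have hii : Asy 3 fun t => Ef a (t * μ0 t) (t * ν0 t) := by
    have tη : Tendsto (fun t => a.l21 / (1 + t * v0 t - t) - a.l23 / (1 + t * v0 t - t * μ0 t))
        (𝓝 0) (𝓝 (a.l21 - a.l23)) := by
      have d1 : Tendsto (fun t => 1 + t * v0 t - t) (𝓝 0) (𝓝 1) := by
        simpa using ((tV0.const_add 1).sub tendsto_id)
      have d2 : Tendsto (fun t => 1 + t * v0 t - t * μ0 t) (𝓝 0) (𝓝 1) := by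
        simpa using ((tV0.const_add 1).sub (tendsto_t_mul hμ0))
      simpa using (tendsto_const_nhds.div d1 one_ne_zero).sub
        (tendsto_const_nhds.div d2 one_ne_zero)
    have tη' : Tendsto (fun t => a.l31 / (1 + t * w0 t - t) - a.l32 / (1 + t * w0 t - t * ν0 t))
        (𝓝 0) (𝓝 (a.l31 - a.l32)) := by
      have d1 : Tendsto (fun t => 1 + t * w0 t - t) (𝓝 0) (𝓝 1) := by
        simpa using ((tW0.const_add 1).sub tendsto_id)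
      have d2 : Tendsto (fun t => 1 + t * w0 t - t * ν0 t) (𝓝 0) (𝓝 1) := by
        simpa using ((tW0.const_add 1).sub (tendsto_t_mul hν0))
      simpa using (tendsto_const_nhds.div d1 one_ne_zero).sub
        (tendsto_const_nhds.div d2 one_ne_zero)
    obtain ⟨F, hF, hF'⟩ := EH_ii a.P0 a.P1 a.R3 a.l13 a.R2 a.l12 a.R1 hμ0 hν0 tη tη'
      (by field_simp) (by field_simp)
    refine ⟨F, _, ?_, hF.mono_left nhdsWithin_le_nhds, ?_⟩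
    · refine neg_ne_zero.mpr (mul_ne_zero (mul_ne_zero (mul_ne_zero hP1 (pow_ne_zero 2 ?_))
        (mul_ne_zero hR1 h.c1)) h.c2)
      exact mul_ne_zero (div_ne_zero hR3 hR1) (div_ne_zero hR2 hR1)
    · have q1 : ∀ᶠ t in 𝓝[≠] (0 : ℝ), t ≠ 0 := eventually_mem_nhdsWithin
      have q2 := (hv0.eventually_ne (div_ne_zero hP2 hR1)).filter_mono
        (nhdsWithin_le_nhds (s := {0}ᶜ))
      have q3 := (hw0.eventually_ne (div_ne_zero hP3 hR1)).filter_mono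
        (nhdsWithin_le_nhds (s := {0}ᶜ))
      have d1 : Tendsto (fun t => 1 + t * v0 t - t) (𝓝 0) (𝓝 1) := by
        simpa using ((tV0.const_add 1).sub tendsto_id)
      have d2 : Tendsto (fun t => 1 + t * v0 t - t * μ0 t) (𝓝 0) (𝓝 1) := by
        simpa using ((tV0.const_add 1).sub (tendsto_t_mul hμ0))
      have d3 : Tendsto (fun t => 1 + t * w0 t - t) (𝓝 0) (𝓝 1) := by
        simpa using ((tW0.const_add 1).sub tendsto_id)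
      have d4 : Tendsto (fun t => 1 + t * w0 t - t * ν0 t) (𝓝 0) (𝓝 1) := by
        simpa using ((tW0.const_add 1).sub (tendsto_t_mul hν0))
      have q4 := (d1.eventually_ne one_ne_zero).filter_mono (nhdsWithin_le_nhds (s := {0}ᶜ))
      have q5 := (d2.eventually_ne one_ne_zero).filter_mono (nhdsWithin_le_nhds (s := {0}ᶜ))
      have q6 := (d3.eventually_ne one_ne_zero).filter_mono (nhdsWithin_le_nhds (s := {0}ᶜ))
      have q7 := (d4.eventually_ne one_ne_zero).filter_mono (nhdsWithin_le_nhds (s := {0}ᶜ))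
      have q8 := hV.filter_mono (nhdsWithin_le_nhds (s := {0}ᶜ))
      have q9 := hW.filter_mono (nhdsWithin_le_nhds (s := {0}ᶜ))
      have q10 := hM.filter_mono (nhdsWithin_le_nhds (s := {0}ᶜ))
      have q11 := hN.filter_mono (nhdsWithin_le_nhds (s := {0}ᶜ))
      filter_upwards [q1, q2, q3, q4, q5, q6, q7, q8, q9, q10, q11] with
        t p1 p2 p3 p4 p5 p6 p7 p8 p9 p10 p11
      have z23 : cH a.P0 a.P2 a.R3 a.l23 (t * μ0 t) 1 (t * v0 t) 1 = 0 := by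
        rw [← eval_Cx, p10.cx]; simp
      have z32 : cH a.P0 a.P3 a.R2 a.l32 (t * ν0 t) 1 (t * w0 t) 1 = 0 := by
        rw [← eval_Cx, p11.cx]; simp
      have k1 := eta_eq (mul_ne_zero p1 p2) p4 p5 p8.zero_left z23
      have k2 := eta_eq (mul_ne_zero p1 p3) p6 p7 p9.zero_left z32
      refine hF' t ?_ ?_
      · exact mul_left_cancel₀ p1 (by linear_combination k1)
      · exact mul_left_cancel₀ p1 (by linear_combination k2)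
  -- class (0,0)
  have h00 : Asy 6 fun t => HH a (t * v0 t) (t * w0 t) := by
    refine Asy.HH tV0 tW0 A0 B0 hM hN ?_
    refine (Asy.mul (k := 3) (m := 1) hii ?_).mul (Asy.mul (k := 1) (m := 1) ?_ ?_)
    · refine Asy.E01 (a := a) hμ0 hν1 hP1 hR3 h.c3 ?_
      have : a.R3 * ((a.P3 - a.l32) / a.R1) - (a.P1 - a.l12) * (a.R3 / a.R1)
          = a.R3 / a.R1 * ((a.P3 - a.l32) - (a.P1 - a.l12)) := by field_simp
      rw [this]; exact mul_ne_zero (div_ne_zero hR3 hR1) h.c5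
    · refine Asy.E10 (a := a) hμ1 hν0 hP1 hR2 h.c4 ?_
      have : a.R2 * ((a.P2 - a.l23) / a.R1) - (a.P1 - a.l13) * (a.R2 / a.R1)
          = a.R2 / a.R1 * ((a.P2 - a.l23) - (a.P1 - a.l13)) := by field_simp
      rw [this]; exact mul_ne_zero (div_ne_zero hR2 hR1) h.c6
    · refine Asy.E11 (a := a) hμ1 hν1 hP1 h.c7 ?_
      have : (a.P1 - a.l12) * ((a.P2 - a.l23) / a.R1) - (a.P1 - a.l13) * ((a.P3 - a.l32) / a.R1)
          = ((a.P1 - a.l12) * (a.P2 - a.l23) - (a.P1 - a.l13) * (a.P3 - a.l32)) / a.R1 := by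
        field_simp
      rw [this]; exact div_ne_zero h.c8 hR1
  -- class (0,1)
  have h01 : Asy 3 fun t => HH a (t * v0 t) (-1 + t * w1 t) := by
    refine Asy.HH tV0 tW1 A0 B1 hM hN' ?_
    refine (Asy.mul (k := 2) (m := 0) ?_ ?_).mul (Asy.mul (k := 1) (m := 0) ?_ ?_)
    · refine Asy.E00 (a := a) hμ0 hν2 hP1 ?_ ?_
      · have : a.R2 * (a.R3 / a.R1) - a.R3 * (a.R2 * ((a.R1 - a.l31) / a.R1) / (a.R2 - a.l32))
            = a.R2 * a.R3 / (a.R1 * (a.R2 - a.l32)) * ((a.R2 - a.l32) - (a.R1 - a.l31)) := by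
          field_simp
        rw [this]
        exact mul_ne_zero (div_ne_zero (mul_ne_zero hR2 hR3) (mul_ne_zero hR1 n2)) h.c9
      · have : a.R3 * (a.R2 - a.l12) * (a.R2 * ((a.R1 - a.l31) / a.R1) / (a.R2 - a.l32))
              - a.R2 * (a.R3 - a.l13) * (a.R3 / a.R1)
            = a.R2 * a.R3 / (a.R1 * (a.R2 - a.l32)) *
              ((a.R2 - a.l12) * (a.R1 - a.l31) - (a.R3 - a.l13) * (a.R2 - a.l32)) := by
          field_simp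
        rw [this]
        exact mul_ne_zero (div_ne_zero (mul_ne_zero hR2 hR3) (mul_ne_zero hR1 n2)) h.c10
    · exact Asy.Econst (tendsto_t_mul hμ0) hs h.c12
    · refine Asy.E10 (a := a) hμ1 hν2 hP1 hR2 h.c4 ?_
      have : a.R2 * ((a.P2 - a.l23) / a.R1)
            - (a.P1 - a.l13) * (a.R2 * ((a.R1 - a.l31) / a.R1) / (a.R2 - a.l32))
          = a.R2 / (a.R1 * (a.R2 - a.l32)) *
            ((a.P2 - a.l23) * (a.R2 - a.l32) - (a.P1 - a.l13) * (a.R1 - a.l31)) := by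
        field_simp
      rw [this]
      exact mul_ne_zero (div_ne_zero hR2 (mul_ne_zero hR1 n2)) h.c11
    · exact Asy.Econst (tendsto_c_add_t_mul 1 hμ1) hs h.c13
  -- class (1,0)
  have h10 : Asy 3 fun t => HH a (-1 + t * v1 t) (t * w0 t) := by
    refine Asy.HH tV1 tW0 A1 B0 hM' hN ?_
    refine (Asy.mul (k := 2) (m := 1) ?_ ?_).mul (Asy.mul (k := 0) (m := 0) ?_ ?_)
    · refine Asy.E00 (a := a) hμ2 hν0 hP1 ?_ ?_
      · have : a.R2 * (a.R3 * ((a.R1 - a.l21) / a.R1) / (a.R3 - a.l23)) - a.R3 * (a.R2 / a.R1)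
            = -(a.R2 * a.R3 / (a.R1 * (a.R3 - a.l23)) * ((a.R3 - a.l23) - (a.R1 - a.l21))) := by
          field_simp; ring
        rw [this]
        exact neg_ne_zero.mpr
          (mul_ne_zero (div_ne_zero (mul_ne_zero hR2 hR3) (mul_ne_zero hR1 n1)) h.c9')
      · have : a.R3 * (a.R2 - a.l12) * (a.R2 / a.R1)
              - a.R2 * (a.R3 - a.l13) * (a.R3 * ((a.R1 - a.l21) / a.R1) / (a.R3 - a.l23))
            = -(a.R2 * a.R3 / (a.R1 * (a.R3 - a.l23)) *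
              ((a.R3 - a.l13) * (a.R1 - a.l21) - (a.R2 - a.l12) * (a.R3 - a.l23))) := by
          field_simp; ring
        rw [this]
        exact neg_ne_zero.mpr
          (mul_ne_zero (div_ne_zero (mul_ne_zero hR2 hR3) (mul_ne_zero hR1 n1)) h.c10')
    · refine Asy.E01 (a := a) hμ2 hν1 hP1 hR3 h.c3 ?_
      have : a.R3 * ((a.P3 - a.l32) / a.R1)
            - (a.P1 - a.l12) * (a.R3 * ((a.R1 - a.l21) / a.R1) / (a.R3 - a.l23))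
          = a.R3 / (a.R1 * (a.R3 - a.l23)) *
            ((a.P3 - a.l32) * (a.R3 - a.l23) - (a.P1 - a.l12) * (a.R1 - a.l21)) := by
        field_simp
      rw [this]
      exact mul_ne_zero (div_ne_zero hR3 (mul_ne_zero hR1 n1)) h.c11'
    · exact Asy.Econst hr (tendsto_t_mul hν0) h.c12'
    · exact Asy.Econst hr (tendsto_c_add_t_mul 1 hν1) h.c13'
  -- class (1,1)
  have h11 : Asy 2 fun t => HH a (-1 + t * v1 t) (-1 + t * w1 t) := by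
    refine Asy.HH tV1 tW1 A1 B1 hM' hN' ?_
    refine (Asy.mul (k := 2) (m := 0) ?_ ?_).mul (Asy.mul (k := 0) (m := 0) ?_ ?_)
    · refine Asy.E00 (a := a) hμ2 hν2 hP1 ?_ ?_
      · have : a.R2 * (a.R3 * ((a.R1 - a.l21) / a.R1) / (a.R3 - a.l23))
              - a.R3 * (a.R2 * ((a.R1 - a.l31) / a.R1) / (a.R2 - a.l32))
            = a.R2 * a.R3 / (a.R1 * (a.R3 - a.l23) * (a.R2 - a.l32)) *
              ((a.R1 - a.l21) * (a.R2 - a.l32) - (a.R1 - a.l31) * (a.R3 - a.l23)) := by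
          field_simp
        rw [this]
        exact mul_ne_zero (div_ne_zero (mul_ne_zero hR2 hR3)
          (mul_ne_zero (mul_ne_zero hR1 n1) n2)) h.c14
      · have : a.R3 * (a.R2 - a.l12) * (a.R2 * ((a.R1 - a.l31) / a.R1) / (a.R2 - a.l32))
              - a.R2 * (a.R3 - a.l13) * (a.R3 * ((a.R1 - a.l21) / a.R1) / (a.R3 - a.l23))
            = a.R2 * a.R3 / (a.R1 * (a.R3 - a.l23) * (a.R2 - a.l32)) *
              ((a.R2 - a.l12) * (a.R1 - a.l31) * (a.R3 - a.l23)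
                - (a.R3 - a.l13) * (a.R1 - a.l21) * (a.R2 - a.l32)) := by
          field_simp
        rw [this]
        exact mul_ne_zero (div_ne_zero (mul_ne_zero hR2 hR3)
          (mul_ne_zero (mul_ne_zero hR1 n1) n2)) h.c15
    · exact Asy.Econst (tendsto_t_mul hμ2) hs h.c12
    · exact Asy.Econst hr (tendsto_t_mul hν2) h.c12'
    · exact Asy.Econst hr hs h.c16
  -- assembly
  have hA : Asy 0 fun t => cA a.P0 a.R1 t 1 ^ 64 := by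
    have h1 : Tendsto (fun t : ℝ => cA a.P0 a.R1 t 1) (𝓝 0) (𝓝 (-a.R1)) := by
      have : Continuous fun t : ℝ => cA a.P0 a.R1 t 1 := by unfold cA; fun_prop
      simpa [cA] using this.tendsto 0
    exact Asy.of_tendsto (pow_ne_zero 64 (neg_ne_zero.mpr hR1)) (h1.pow 64)
  have key := hA.mul (((h00.mul h01).mul h10).mul h11)
  refine key.congr ?_
  have q8 := hV.filter_mono (nhdsWithin_le_nhds (s := {0}ᶜ))
  have q9 := hW.filter_mono (nhdsWithin_le_nhds (s := {0}ᶜ))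
  filter_upwards [q8, q9] with t p8 p9
  rw [NN_eq a t _ _ _ _ p8.1 p8.2 p9.1 p9.2]

end

end Pool.Agent.MP01c1f4
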