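import Mathlib
import Pool.Agent.MP01c1f4.Local

set_option autoImplicit false

open Polynomial Filter Topology

namespace Pool.Agent.MP01c1f4

section

variable {T : Type*} [TopologicalSpace T]

lemma coeffCont_map_C {F : T → ℝ[X]} (hF : CoeffCont F) (i : ℕ) :
    CoeffCont fun t => ((F t).map (C : ℝ →+* ℝ[X])).coeff i := by
  simp only [coeff_map]
  exact CoeffCont.C (hF i)

lemma coeffCont_Gp (a : Par ℝ) {W : T → ℝ} (hW : Continuous W) :
    CoeffCont fun t => Gp a (W t) := by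
  unfold Gp
  exact coeffCont_resultant (coeffCont_map_C (coeffCont_Cx _ _ _ _ hW))
    (fun i => CoeffCont.const _) 2 4

lemma continuous_HH (a : Par ℝ) : Continuous fun z : ℝ × ℝ => HH a z.1 z.2 := by
  unfold HH
  exact continuous_resultant (coeffCont_Cx _ _ _ _ continuous_fst)
    (coeffCont_Gp a continuous_snd) 2 8

lemma continuous_NN (a : Par ℝ) : Continuous fun x : ℝ => NN a x := by
  unfold NN GG
  refine continuous_resultant (coeffCont_Epoly _ _ _ _ _ _ continuous_id continuous_const) ?_ 4 16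
  exact coeffCont_resultant (coeffCont_map_C
    (coeffCont_Epoly _ _ _ _ _ _ continuous_id continuous_const)) (fun i => CoeffCont.const _) 4 4

end

variable {a : Par ℝ}

/-- Asymptotics of the eliminant at `x₁ = 1`. -/
lemma asy_one (h : Gen a)
    (g1 : HH a ((a.l21 - a.P2) / (a.P0 - a.R1)) 0 ≠ 0)
    (g2 : HH a 0 ((a.l31 - a.P3) / (a.P0 - a.R1)) ≠ 0)
    (g3 : HH a ((a.l21 - a.P2) / (a.P0 - a.R1)) ((a.l31 - a.P3) / (a.P0 - a.R1)) ≠ 0) :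
    Asy 5 fun t => NN a (1 + t) := by
  have hz := h.nz
  have n3 : a.P2 - a.l21 ≠ 0 := sub_ne_zero.mpr h.n3
  have n4 : a.P3 - a.l31 ≠ 0 := sub_ne_zero.mpr h.n4
  have R01 : a.P0 - a.R1 ≠ 0 := sub_ne_zero.mpr hz.R01
  have hR2 := hz.R2
  have hR3 := hz.R3
  have hP1 := hz.P1
  have hP2 := hz.P2
  have hP3 := hz.P3
  obtain ⟨v0, V1, hv0, hV1, hV⟩ := stepV1 a.P0 a.P2 a.R1 a.l21 hz.R01 h.n3
  obtain ⟨w0, W1, hw0, hW1, hW⟩ := stepV1 a.P0 a.P3 a.R1 a.l31 hz.R01 h.n4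
  obtain ⟨μ0, μ1, hμ0, hμ1, hM⟩ := stepX0 a.P0 a.P2 a.R3 a.l23 hz.P2 hv0
  obtain ⟨ν0, ν1, hν0, hν1, hN⟩ := stepX0 a.P0 a.P3 a.R2 a.l32 hz.P3 hw0
  have eμ0 : a.R3 * (a.P2 / (a.P2 - a.l21)) / a.P2 = a.R3 / (a.P2 - a.l21) := by field_simp
  have eν0 : a.R2 * (a.P3 / (a.P3 - a.l31)) / a.P3 = a.R2 / (a.P3 - a.l31) := by field_simp
  have eμ1 : a.P2 / (a.P2 - a.l21) * (a.P2 - a.l23) / a.P2
      = (a.P2 - a.l23) / (a.P2 - a.l21) := by field_simp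
  have eν1 : a.P3 / (a.P3 - a.l31) * (a.P3 - a.l32) / a.P3
      = (a.P3 - a.l32) / (a.P3 - a.l31) := by field_simp
  rw [eμ0] at hμ0
  rw [eν0] at hν0
  rw [eμ1] at hμ1
  rw [eν1] at hν1
  have tV0 := tendsto_t_mul hv0
  have tW0 := tendsto_t_mul hw0
  have A0 : a.P0 * 0 + a.P2 ≠ 0 := by simpa using hz.P2
  have B0 : a.P0 * 0 + a.P3 ≠ 0 := by simpa using hz.P3
  -- class (0,0)
  have h00 : Asy 5 fun t => HH a (t * v0 t) (t * w0 t) := by
    refine Asy.HH tV0 tW0 A0 B0 hM hN ?_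
    refine (Asy.mul (k := 2) (m := 1) ?_ ?_).mul (Asy.mul (k := 1) (m := 1) ?_ ?_)
    · refine Asy.E00 (a := a) hμ0 hν0 hP1 ?_ ?_
      · have : a.R2 * (a.R3 / (a.P2 - a.l21)) - a.R3 * (a.R2 / (a.P3 - a.l31))
            = a.R2 * a.R3 / ((a.P2 - a.l21) * (a.P3 - a.l31))
              * ((a.P3 - a.l31) - (a.P2 - a.l21)) := by field_simp
        rw [this]
        exact mul_ne_zero (div_ne_zero (mul_ne_zero hR2 hR3) (mul_ne_zero n3 n4)) h.d1
      · have : a.R3 * (a.R2 - a.l12) * (a.R2 / (a.P3 - a.l31))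
              - a.R2 * (a.R3 - a.l13) * (a.R3 / (a.P2 - a.l21))
            = a.R2 * a.R3 / ((a.P2 - a.l21) * (a.P3 - a.l31))
              * ((a.R2 - a.l12) * (a.P2 - a.l21) - (a.R3 - a.l13) * (a.P3 - a.l31)) := by
          field_simp
        rw [this]
        exact mul_ne_zero (div_ne_zero (mul_ne_zero hR2 hR3) (mul_ne_zero n3 n4)) h.d2
    · refine Asy.E01 (a := a) hμ0 hν1 hP1 hR3 h.c3 ?_
      have : a.R3 * ((a.P3 - a.l32) / (a.P3 - a.l31))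
            - (a.P1 - a.l12) * (a.R3 / (a.P2 - a.l21))
          = a.R3 / ((a.P2 - a.l21) * (a.P3 - a.l31))
            * ((a.P3 - a.l32) * (a.P2 - a.l21) - (a.P1 - a.l12) * (a.P3 - a.l31)) := by
        field_simp
      rw [this]
      exact mul_ne_zero (div_ne_zero hR3 (mul_ne_zero n3 n4)) h.d3
    · refine Asy.E10 (a := a) hμ1 hν0 hP1 hR2 h.c4 ?_
      have : a.R2 * ((a.P2 - a.l23) / (a.P2 - a.l21))
            - (a.P1 - a.l13) * (a.R2 / (a.P3 - a.l31))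
          = a.R2 / ((a.P2 - a.l21) * (a.P3 - a.l31))
            * ((a.P2 - a.l23) * (a.P3 - a.l31) - (a.P1 - a.l13) * (a.P2 - a.l21)) := by
        field_simp
      rw [this]
      exact mul_ne_zero (div_ne_zero hR2 (mul_ne_zero n3 n4)) h.d4
    · refine Asy.E11 (a := a) hμ1 hν1 hP1 h.c7 ?_
      have : (a.P1 - a.l12) * ((a.P2 - a.l23) / (a.P2 - a.l21))
            - (a.P1 - a.l13) * ((a.P3 - a.l32) / (a.P3 - a.l31))
          = ((a.P1 - a.l12) * (a.P2 - a.l23) * (a.P3 - a.l31)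
            - (a.P1 - a.l13) * (a.P3 - a.l32) * (a.P2 - a.l21))
            / ((a.P2 - a.l21) * (a.P3 - a.l31)) := by
        field_simp
      rw [this]; exact div_ne_zero h.d5 (mul_ne_zero n3 n4)
  have hc := continuous_HH a
  have h01 : Asy 0 fun t => HH a (t * v0 t) (W1 t) :=
    Asy.of_tendsto g2 (tendsto2 hc tV0 hW1)
  have h10 : Asy 0 fun t => HH a (V1 t) (t * w0 t) :=
    Asy.of_tendsto g1 (tendsto2 hc hV1 tW0)
  have h11 : Asy 0 fun t => HH a (V1 t) (W1 t) :=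
    Asy.of_tendsto g3 (tendsto2 hc hV1 hW1)
  have hA : Asy 0 fun t => cA a.P0 a.R1 (1 + t) 1 ^ 64 := by
    have h1 : Tendsto (fun t : ℝ => cA a.P0 a.R1 (1 + t) 1) (𝓝 0) (𝓝 (a.P0 - a.R1)) := by
      have : Continuous fun t : ℝ => cA a.P0 a.R1 (1 + t) 1 := by unfold cA; fun_prop
      simpa [cA] using this.tendsto 0
    exact Asy.of_tendsto (pow_ne_zero 64 R01) (h1.pow 64)
  have key := hA.mul (((h00.mul h01).mul h10).mul h11)
  refine key.congr ?_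
  have q8 := hV.filter_mono (nhdsWithin_le_nhds (s := {0}ᶜ))
  have q9 := hW.filter_mono (nhdsWithin_le_nhds (s := {0}ᶜ))
  filter_upwards [q8, q9] with t p8 p9
  rw [NN_eq a (1 + t) _ _ _ _ p8.1 p8.2 p9.1 p9.2]

/-! ### Sign consequences -/

lemma Asy.ev_pos {k : ℕ} {f : ℝ → ℝ} (hf : Asy k f) :
    ∃ σ : ℝ, (σ = 1 ∨ σ = -1) ∧ ∀ᶠ t in 𝓝[≠] (0 : ℝ), 0 < σ * (t ^ k * f t) := by
  obtain ⟨F, φ, hφ, hF, hF'⟩ := hf
  have q1 : ∀ᶠ t in 𝓝[≠] (0 : ℝ), t ≠ 0 := eventually_mem_nhdsWithin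
  rcases lt_or_gt_of_ne hφ with h | h
  · refine ⟨-1, Or.inr rfl, ?_⟩
    filter_upwards [hF', hF.eventually_lt_const h, q1] with t h1 h2 h3
    rw [h1]
    have : 0 < t ^ k * t ^ k := by
      have := mul_self_pos.mpr (pow_ne_zero k h3); exact this
    nlinarith
  · refine ⟨1, Or.inl rfl, ?_⟩
    filter_upwards [hF', hF.eventually_const_lt h, q1] with t h1 h2 h3
    rw [h1]
    have : 0 < t ^ k * t ^ k := by
      have := mul_self_pos.mpr (pow_ne_zero k h3); exact this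
    nlinarith

/-- Even order: the same sign on both sides. -/
lemma Asy.even_sign {k : ℕ} (hk : Even k) {f : ℝ → ℝ} (hf : Asy k f) :
    ∃ σ : ℝ, (σ = 1 ∨ σ = -1) ∧ ∀ᶠ t in 𝓝[≠] (0 : ℝ), 0 < σ * f t := by
  obtain ⟨σ, hσ, h⟩ := hf.ev_pos
  have q1 : ∀ᶠ t in 𝓝[≠] (0 : ℝ), t ≠ 0 := eventually_mem_nhdsWithin
  refine ⟨σ, hσ, ?_⟩
  filter_upwards [h, q1] with t h1 h2
  have h3 : 0 < t ^ k := hk.pow_pos h2
  have : σ * (t ^ k * f t) = t ^ k * (σ * f t) := by ring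
  rw [this] at h1
  exact (mul_pos_iff_of_pos_left h3).mp h1

/-- Odd order: opposite signs on the two sides. -/
lemma Asy.odd_sign {k : ℕ} (hk : Odd k) {f : ℝ → ℝ} (hf : Asy k f) :
    ∃ σ : ℝ, (σ = 1 ∨ σ = -1) ∧ ∀ᶠ t in 𝓝[≠] (0 : ℝ), 0 < σ * (t * f t) := by
  obtain ⟨σ, hσ, h⟩ := hf.ev_pos
  have q1 : ∀ᶠ t in 𝓝[≠] (0 : ℝ), t ≠ 0 := eventually_mem_nhdsWithin
  refine ⟨σ, hσ, ?_⟩
  obtain ⟨m, rfl⟩ := hk
  filter_upwards [h, q1] with t h1 h2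
  have h3 : 0 < t ^ (2 * m) := (even_two_mul m).pow_pos h2
  have : σ * (t ^ (2 * m + 1) * f t) = t ^ (2 * m) * (σ * (t * f t)) := by ring
  rw [this] at h1
  exact (mul_pos_iff_of_pos_left h3).mp h1

end Pool.Agent.MP01c1f4
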