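import Mathlib
import Pool.Agent.MP01c1f4.LocalOne

set_option autoImplicit false

open Polynomial Filter Topology

namespace Pool.Agent.MP01c1f4

/-- All the genericity used in the intermediate value argument. -/
structure GenAll (a : Par ℝ) : Prop where
  gen : Gen a
  P0pos : 0 < a.P0
  R1pos : 0 < a.R1
  g1 : HH a ((a.l21 - a.P2) / (a.P0 - a.R1)) 0 ≠ 0
  g2 : HH a 0 ((a.l31 - a.P3) / (a.P0 - a.R1)) ≠ 0
  g3 : HH a ((a.l21 - a.P2) / (a.P0 - a.R1)) ((a.l31 - a.P3) / (a.P0 - a.R1)) ≠ 0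
  e1 : Nondeg a.P0 a.P2 a.R1 a.l21 1
  e2 : Nondeg a.P0 a.P3 a.R1 a.l31 1
  hc : ∀ c : ℝ, a.P0 * c ^ 2 = a.R1 → Nondeg a.P0 a.P2 a.R1 a.l21 c ∧
    Nondeg a.P0 a.P3 a.R1 a.l31 c ∧ NN a c ≠ 0

/-- A continuous function without zeros on an open interval keeps its sign. -/
lemma sign_const {f : ℝ → ℝ} (hf : Continuous f) {u v x y : ℝ}
    (hno : ∀ z, u < z → z < v → f z ≠ 0) (hx : u < x ∧ x < v) (hy : u < y ∧ y < v)
    (hpos : 0 < f x) : 0 < f y := by
  by_contra hneg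
  have hneg' : f y < 0 := lt_of_le_of_ne (not_lt.mp hneg) (hno y hy.1 hy.2)
  rcases le_total x y with hxy | hxy
  · obtain ⟨z, hz, hz0⟩ := intermediate_value_Icc' hxy hf.continuousOn
      (show (0 : ℝ) ∈ Set.Icc (f y) (f x) from ⟨hneg'.le, hpos.le⟩)
    exact hno z (lt_of_lt_of_le hx.1 hz.1) (lt_of_le_of_lt hz.2 hy.2) hz0
  · obtain ⟨z, hz, hz0⟩ := intermediate_value_Icc hxy hf.continuousOn
      (show (0 : ℝ) ∈ Set.Icc (f y) (f x) from ⟨hneg'.le, hpos.le⟩)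
    exact hno z (lt_of_lt_of_le hy.1 hz.1) (lt_of_le_of_lt hz.2 hx.2) hz0

/-- Extract a small positive point from a punctured neighbourhood property. -/
lemma exists_small_pos {p : ℝ → Prop} (h : ∀ᶠ t in 𝓝[≠] (0 : ℝ), p t) {δ : ℝ} (hδ : 0 < δ) :
    ∃ t, 0 < t ∧ t < δ ∧ p t := by
  have h1 : ∀ᶠ t in 𝓝[>] (0 : ℝ), p t :=
    h.filter_mono (nhdsWithin_mono 0 (fun t (ht : 0 < t) => ne_of_gt ht))
  have h2 : ∀ᶠ t in 𝓝[>] (0 : ℝ), t ∈ Set.Ioo 0 δ := Ioo_mem_nhdsGT hδ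
  obtain ⟨t, ht1, ht2⟩ := (h1.and h2).exists
  exact ⟨t, ht2.1, ht2.2, ht1⟩

lemma exists_small_neg {p : ℝ → Prop} (h : ∀ᶠ t in 𝓝[≠] (0 : ℝ), p t) {δ : ℝ} (hδ : 0 < δ) :
    ∃ t, -δ < t ∧ t < 0 ∧ p t := by
  have h1 : ∀ᶠ t in 𝓝[<] (0 : ℝ), p t :=
    h.filter_mono (nhdsWithin_mono 0 (fun t (ht : t < 0) => ne_of_lt ht))
  have h2 : ∀ᶠ t in 𝓝[<] (0 : ℝ), t ∈ Set.Ioo (-δ) 0 := Ioo_mem_nhdsLT (by linarith)
  obtain ⟨t, ht1, ht2⟩ := (h1.and h2).exists
  exact ⟨t, ht2.1, ht2.2, ht1⟩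

/-- The eliminant has a real zero strictly between the two mirror-symmetric positions, away from
the spurious positions. -/
theorem exists_zero (a : Par ℝ) (h : GenAll a) :
    ∃ x : ℝ, x ≠ 0 ∧ x ≠ 1 ∧ a.P0 * x ≠ a.R1 ∧ a.P0 * x ^ 2 < a.R1 ∧ NN a x = 0 := by
  have hz := h.gen.nz
  obtain ⟨c, hc0, hcc⟩ : ∃ c : ℝ, 0 < c ∧ a.P0 * c ^ 2 = a.R1 := by
    refine ⟨Real.sqrt (a.R1 / a.P0), Real.sqrt_pos.mpr (div_pos h.R1pos h.P0pos), ?_⟩
    rw [Real.sq_sqrt (div_pos h.R1pos h.P0pos).le, mul_div_cancel₀ _ h.P0pos.ne']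
  have hP0 := h.P0pos
  have hR1 := h.R1pos
  have hc1 : c ≠ 1 := by
    rintro rfl
    apply hz.R01
    linear_combination hcc
  have hcn1 : -c ≠ 1 := by linarith
  have hcc' : a.P0 * (-c) ^ 2 = a.R1 := by linear_combination hcc
  obtain ⟨d1, d2, d3⟩ := h.hc c hcc
  obtain ⟨d1', d2', d3'⟩ := h.hc (-c) hcc'
  have pos_c : 0 < NN a c := lt_of_le_of_ne (NN_nonneg a hz hc1 hcc d1 d2) (Ne.symm d3)
  have pos_nc : 0 < NN a (-c) := lt_of_le_of_ne (NN_nonneg a hz hcn1 hcc' d1' d2') (Ne.symm d3')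
  have cont := continuous_NN a
  by_contra hno
  push Not at hno
  -- zeros are excluded strictly inside, away from the spurious points
  have key : ∀ x, -c < x → x < c → x ≠ 0 → x ≠ 1 → x ≠ c ^ 2 → NN a x ≠ 0 := by
    intro x h1 h2 h3 h4 h5
    refine hno x h3 h4 ?_ ?_
    · intro h6
      apply h5
      have : a.P0 * x = a.P0 * c ^ 2 := by rw [h6, hcc]
      exact mul_left_cancel₀ hP0.ne' this
    · rw [← hcc]
      have : x ^ 2 < c ^ 2 := by nlinarith
      exact mul_lt_mul_of_pos_left this hP0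
  have hc2 : 0 < c ^ 2 := by positivity
  -- positivity on (-c, 0)
  have s1 : ∀ x, -c < x → x < 0 → 0 < NN a x := by
    intro x h1 h2
    by_contra hneg
    have hx0 : NN a x ≤ 0 := not_lt.mp hneg
    obtain ⟨z, hz1, hz0⟩ := intermediate_value_Icc' h1.le cont.continuousOn
      (show (0 : ℝ) ∈ Set.Icc (NN a x) (NN a (-c)) from ⟨hx0, pos_nc.le⟩)
    have hz2 : -c < z := lt_of_le_of_ne hz1.1 (by rintro rfl; exact d3' hz0)
    exact key z hz2 (by linarith [hz1.2]) (by linarith [hz1.2]) (by linarith [hz1.2])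
      (by linarith [hz1.2]) hz0
  -- passing through 0
  obtain ⟨σ, hσ, hσ'⟩ := (asy_zero h.gen).even_sign (by decide)
  have hσ1 : σ = 1 := by
    rcases hσ with h1 | h1
    · exact h1
    · exfalso
      obtain ⟨t, t1, t2, t3⟩ := exists_small_neg hσ' hc0
      rw [h1] at t3
      have := s1 t t1 t2
      linarith
  rw [hσ1] at hσ'
  have near0 : ∀ δ > 0, ∃ t, 0 < t ∧ t < δ ∧ 0 < NN a t := by
    intro δ hδ
    obtain ⟨t, t1, t2, t3⟩ := exists_small_pos hσ' hδ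
    exact ⟨t, t1, t2, by linarith⟩
  obtain ⟨σ', hσ2, hσ2'⟩ := (asy_one h.gen h.g1 h.g2 h.g3).odd_sign (by decide)
  rcases lt_or_gt_of_ne hc1 with hlt | hgt
  · -- c < 1 : the spurious point is c ^ 2
    have hk : c ^ 2 < c := by nlinarith
    have s2 : ∀ x, 0 < x → x < c ^ 2 → 0 < NN a x := by
      intro x h1 h2
      obtain ⟨t, t1, t2, t3⟩ := near0 (c ^ 2) hc2
      exact sign_const cont (u := 0) (v := c ^ 2)
        (fun z z1 z2 => key z (by linarith) (by linarith) z1.ne' (by linarith) z2.ne)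
        ⟨t1, t2⟩ ⟨h1, h2⟩ t3
    -- nondegeneracy near 1
    have hnd : ∀ᶠ t in 𝓝[≠] (0 : ℝ), Nondeg a.P0 a.P2 a.R1 a.l21 (1 + t) ∧
        Nondeg a.P0 a.P3 a.R1 a.l31 (1 + t) ∧ a.P0 * (1 + t) - a.R1 ≠ 0 := by
      have t1 : Tendsto (fun t : ℝ => 1 + t) (𝓝[≠] 0) (𝓝 1) :=
        tendsto_cst_add.mono_left nhdsWithin_le_nhds
      have c1 : ∀ P l V : ℝ, Continuous fun x : ℝ => cH a.P0 P a.R1 l x 1 V 1 := by
        intro P l V; unfold cH cA cB cC; fun_prop
      have q1 := (((c1 a.P2 a.l21 (-1)).tendsto 1).comp t1).eventually_ne h.e1.1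
      have q2 := (((c1 a.P2 a.l21 (-(a.P2 / a.P0))).tendsto 1).comp t1).eventually_ne h.e1.2
      have q3 := (((c1 a.P3 a.l31 (-1)).tendsto 1).comp t1).eventually_ne h.e2.1
      have q4 := (((c1 a.P3 a.l31 (-(a.P3 / a.P0))).tendsto 1).comp t1).eventually_ne h.e2.2
      have c2 : Continuous fun x : ℝ => a.P0 * x - a.R1 := by fun_prop
      have q5 := ((c2.tendsto 1).comp t1).eventually_ne (by
        have : a.P0 - a.R1 ≠ 0 := sub_ne_zero.mpr hz.R01
        simpa using this)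
      filter_upwards [q1, q2, q3, q4, q5] with t p1 p2 p3 p4 p5
      exact ⟨⟨p1, p2⟩, ⟨p3, p4⟩, p5⟩
    -- sign just right of 1 is positive
    have hσ3 : σ' = 1 := by
      rcases hσ2 with h1 | h1
      · exact h1
      · exfalso
        obtain ⟨t, t1, t2, t3, t4, t5, t6⟩ := exists_small_pos (hσ2'.and hnd) one_pos
        obtain ⟨k, hk0, hk1⟩ := NN_iota a hz (x := 1 + t) (by linarith) (by linarith) t6 t4 t5
        have hx : a.R1 / (a.P0 * (1 + t)) = c ^ 2 / (1 + t) := by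
          rw [← hcc]; field_simp
        have hpos : 0 < NN a (a.R1 / (a.P0 * (1 + t))) := by
          rw [hx]
          apply s2
          · positivity
          · rw [div_lt_iff₀ (by linarith)]; nlinarith
        rw [hk1] at hpos
        have : 0 < NN a (1 + t) := (mul_pos_iff_of_pos_left hk0).mp hpos
        rw [h1] at t3
        nlinarith
    rw [hσ3] at hσ2'
    -- sign just right of c ^ 2 is negative
    obtain ⟨t, t1, t2, t3, t4, t5, t6⟩ := exists_small_neg (hσ2'.and hnd)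
      (show (0 : ℝ) < 1 - c by linarith)
    have ht0 : 0 < 1 + t := by linarith
    obtain ⟨k, hk0, hk1⟩ := NN_iota a hz (x := 1 + t) (by linarith) (by linarith) t6 t4 t5
    have hx : a.R1 / (a.P0 * (1 + t)) = c ^ 2 / (1 + t) := by
      rw [← hcc]; field_simp
    rw [hx] at hk1
    have hneg : NN a (c ^ 2 / (1 + t)) < 0 := by
      rw [hk1]
      have : NN a (1 + t) < 0 := by
        by_contra hh
        have := not_lt.mp hh
        nlinarith
      exact mul_neg_of_pos_of_neg hk0 this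
    have hx1 : c ^ 2 < c ^ 2 / (1 + t) := by
      rw [lt_div_iff₀ ht0]; nlinarith
    have hx2 : c ^ 2 / (1 + t) < c := by
      rw [div_lt_iff₀ ht0]; nlinarith
    obtain ⟨z, hz1, hz0⟩ := intermediate_value_Icc hx2.le cont.continuousOn
      (show (0 : ℝ) ∈ Set.Icc (NN a (c ^ 2 / (1 + t))) (NN a c) from ⟨hneg.le, pos_c.le⟩)
    have hz2 : z < c := lt_of_le_of_ne hz1.2 (by rintro rfl; exact d3 hz0)
    have hz3 : c ^ 2 < z := lt_of_lt_of_le hx1 hz1.1
    exact key z (by linarith) hz2 (by linarith) (by linarith) hz3.ne' hz0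
  · -- c > 1 : the spurious point is 1
    have hk : c < c ^ 2 := by nlinarith
    have s2 : ∀ x, 0 < x → x < 1 → 0 < NN a x := by
      intro x h1 h2
      obtain ⟨t, t1, t2, t3⟩ := near0 1 one_pos
      exact sign_const cont (u := 0) (v := 1)
        (fun z z1 z2 => key z (by linarith) (by linarith) z1.ne' z2.ne (by linarith))
        ⟨t1, t2⟩ ⟨h1, h2⟩ t3
    have hσ3 : σ' = -1 := by
      rcases hσ2 with h1 | h1
      · exfalso
        obtain ⟨t, t1, t2, t3⟩ := exists_small_neg hσ2' one_pos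
        have := s2 (1 + t) (by linarith) (by linarith)
        rw [h1] at t3
        nlinarith
      · exact h1
    rw [hσ3] at hσ2'
    obtain ⟨t, t1, t2, t3⟩ := exists_small_pos hσ2' (show (0 : ℝ) < c - 1 by linarith)
    have hneg : NN a (1 + t) < 0 := by
      by_contra hh
      have := not_lt.mp hh
      nlinarith
    have hx2 : 1 + t < c := by linarith
    obtain ⟨z, hz1, hz0⟩ := intermediate_value_Icc hx2.le cont.continuousOn
      (show (0 : ℝ) ∈ Set.Icc (NN a (1 + t)) (NN a c) from ⟨hneg.le, pos_c.le⟩)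
    have hz2 : z < c := lt_of_le_of_ne hz1.2 (by rintro rfl; exact d3 hz0)
    have hz3 : 1 < z := lt_of_lt_of_le (by linarith) hz1.1
    exact key z (by linarith) hz2 (by linarith) hz3.ne' (by linarith) hz0

end Pool.Agent.MP01c1f4
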