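import Mathlib
import Pool.Agent.MP01c1f4.Ivt

set_option autoImplicit false

open Polynomial Filter Topology

namespace Pool.Agent.MP01c1f4

/-- The parameters as a vector. -/
def Par.vec {K : Type*} (a : Par K) : Fin 13 → K :=
  ![a.P0, a.P1, a.P2, a.P3, a.R1, a.R2, a.R3, a.l12, a.l13, a.l21, a.l23, a.l31, a.l32]

/-- Exchange of the roles of the indices `2` and `3`. -/
def Par.swap {K : Type*} (a : Par K) : Par K :=
  ⟨a.P0, a.P1, a.P3, a.P2, a.R1, a.R3, a.R2, a.l13, a.l12, a.l31, a.l32, a.l21, a.l23⟩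

lemma exists_field {ι : Type*} (v : ι → ℂ) (hv : AlgebraicIndependent ℚ v) (e : ι) :
    ∃ F : Subfield ℂ, QuadClosed F ∧ (∀ i, i ≠ e → v i ∈ F) ∧ v e ∉ F := by
  let K0 := IntermediateField.adjoin ℚ (v '' {i | i ≠ e})
  let F := algebraicClosure K0 ℂ
  refine ⟨F.toSubfield, ?_, ?_, ?_⟩
  · intro a ha b hb c hc hne z hz
    have h1 : IsAlgebraic F z := by
      refine ⟨C (⟨a, ha⟩ : F) * X ^ 2 + C (⟨b, hb⟩ : F) * X + C (⟨c, hc⟩ : F), ?_, ?_⟩
      · intro h0
        apply hne
        have c2 := congrArg (fun p => p.coeff 2) h0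
        have c1 := congrArg (fun p => p.coeff 1) h0
        have c0 := congrArg (fun p => p.coeff 0) h0
        simp [coeff_X, coeff_C] at c2 c1 c0
        exact ⟨congrArg Subtype.val c2, congrArg Subtype.val c1, congrArg Subtype.val c0⟩
      · simpa using hz
    exact mem_algebraicClosure_iff.mpr (h1.restrictScalars K0)
  · intro i hi
    have h1 : v i ∈ K0 := IntermediateField.subset_adjoin _ _ ⟨i, hi, rfl⟩
    exact F.algebraMap_mem ⟨v i, h1⟩
  · intro h
    have h1 : IsAlgebraic K0 (v e) := mem_algebraicClosure_iff.mp h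
    rw [IntermediateField.isAlgebraic_adjoin_iff] at h1
    exact hv.transcendental_adjoin (s := {i | i ≠ e}) (i := e) (by simp) h1

lemma exists_except21 {a : Par ℂ} (hv : AlgebraicIndependent ℚ a.vec) :
    ∃ F : Subfield ℂ, InExcept21 F a := by
  obtain ⟨F, h1, h2, h3⟩ := exists_field a.vec hv 9
  exact ⟨F, ⟨h2 0 (by decide), h2 1 (by decide), h2 2 (by decide), h2 3 (by decide),
    h2 4 (by decide), h2 5 (by decide), h2 6 (by decide), h2 7 (by decide), h2 8 (by decide),
    h2 10 (by decide), h2 11 (by decide), h2 12 (by decide), h3, h1⟩⟩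

lemma exists_except31 {a : Par ℂ} (hv : AlgebraicIndependent ℚ a.vec) :
    ∃ F : Subfield ℂ, InExcept21 F a.swap := by
  obtain ⟨F, h1, h2, h3⟩ := exists_field a.vec hv 11
  exact ⟨F, ⟨h2 0 (by decide), h2 1 (by decide), h2 3 (by decide), h2 2 (by decide),
    h2 4 (by decide), h2 6 (by decide), h2 5 (by decide), h2 8 (by decide), h2 7 (by decide),
    h2 12 (by decide), h2 9 (by decide), h2 10 (by decide), h3, h1⟩⟩

lemma vec_toC (a : Par ℝ) : a.toC.vec = fun i => ((a.vec i : ℝ) : ℂ) := by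
  funext i
  fin_cases i <;> rfl

lemma algInd_toC {a : Par ℝ} (hv : AlgebraicIndependent ℚ a.vec) :
    AlgebraicIndependent ℚ a.toC.vec := by
  rw [vec_toC]
  exact hv.map' (f := (Complex.ofRealAm.restrictScalars ℚ)) Complex.ofReal_injective

lemma Par.Nz.swap {K : Type*} [Field K] {a : Par K} (h : a.Nz) : a.swap.Nz :=
  ⟨h.P0, h.P1, h.P3, h.P2, h.R1, h.R3, h.R2, h.P01, h.P03, h.P02, h.R01, h.R03, h.R02⟩

/-! ### Nonvanishing of polynomials in the parameters -/

/-- A test point. -/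
def pt : Fin 13 → ℚ := ![1, 2, 4, 7, 11, 16, 23, 31, 41, 53, 67, 82, 97]

lemma ne_of_gen {v : Fin 13 → ℝ} (hv : AlgebraicIndependent ℚ v)
    (q : MvPolynomial (Fin 13) ℚ) {r : ℝ} (hr : MvPolynomial.aeval v q = r)
    (h0 : MvPolynomial.eval pt q ≠ 0) : r ≠ 0 := by
  intro h
  apply h0
  have : q = 0 := by
    apply hv
    rw [hr, h, map_zero]
  rw [this, map_zero]

open MvPolynomial in
lemma nz_of_gen {a : Par ℝ} (hv : AlgebraicIndependent ℚ a.vec) : a.Nz := by
  have key : ∀ (q : MvPolynomial (Fin 13) ℚ) (r : ℝ), MvPolynomial.aeval a.vec q = r →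
    MvPolynomial.eval pt q ≠ 0 → r ≠ 0 := fun q r h1 h2 => ne_of_gen hv q h1 h2
  constructor
  · exact key (X 0) _ (by simp [Par.vec]) (by simp [pt])
  · exact key (X 1) _ (by simp [Par.vec]) (by simp [pt])
  · exact key (X 2) _ (by simp [Par.vec]) (by simp [pt])
  · exact key (X 3) _ (by simp [Par.vec]) (by simp [pt])
  · exact key (X 4) _ (by simp [Par.vec]) (by simp [pt])
  · exact key (X 5) _ (by simp [Par.vec]) (by simp [pt])
  · exact key (X 6) _ (by simp [Par.vec]) (by simp [pt])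
  · exact sub_ne_zero.mp (key (X 0 - X 1) _ (by simp [Par.vec]) (by simp [pt]; norm_num))
  · exact sub_ne_zero.mp (key (X 0 - X 2) _ (by simp [Par.vec]) (by simp [pt]; norm_num))
  · exact sub_ne_zero.mp (key (X 0 - X 3) _ (by simp [Par.vec]) (by simp [pt]; norm_num))
  · exact sub_ne_zero.mp (key (X 0 - X 4) _ (by simp [Par.vec]) (by simp [pt]; norm_num))
  · exact sub_ne_zero.mp (key (X 0 - X 5) _ (by simp [Par.vec]) (by simp [pt]; norm_num))
  · exact sub_ne_zero.mp (key (X 0 - X 6) _ (by simp [Par.vec]) (by simp [pt]; norm_num))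

end Pool.Agent.MP01c1f4
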