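import Mathlib
import Pool.Agent.MP01c1f4.Generic

set_option autoImplicit false

open Polynomial Filter Topology

namespace Pool.Agent.MP01c1f4

set_option maxRecDepth 4000 in
open MvPolynomial in
lemma gen_of_gen {a : Par ℝ} (hv : AlgebraicIndependent ℚ a.vec) : Gen a := by
  have nz := nz_of_gen hv
  have key : ∀ (q : MvPolynomial (Fin 13) ℚ) (r : ℝ), MvPolynomial.aeval a.vec q = r →
    MvPolynomial.eval pt q ≠ 0 → r ≠ 0 := fun q r h1 h2 => ne_of_gen hv q h1 h2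
  have P03 : a.P0 - a.P3 ≠ 0 := sub_ne_zero.mpr nz.P03
  have P02 : a.P0 - a.P2 ≠ 0 := sub_ne_zero.mpr nz.P02
  refine
    { nz := nz
      n1 := sub_ne_zero.mp (key (X 6 - X 10) _ (by simp [Par.vec]) (by simp [pt]; norm_num))
      n2 := sub_ne_zero.mp (key (X 5 - X 12) _ (by simp [Par.vec]) (by simp [pt]; norm_num))
      n3 := sub_ne_zero.mp (key (X 2 - X 9) _ (by simp [Par.vec]) (by simp [pt]; norm_num))
      n4 := sub_ne_zero.mp (key (X 3 - X 11) _ (by simp [Par.vec]) (by simp [pt]; norm_num))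
      c1 := key ((X 6 - X 8) - (X 5 - X 7)) _ (by simp [Par.vec]) (by simp [pt]; norm_num)
      c2 := key ((X 11 - X 12) - (X 9 - X 10) + X 7 - X 8) _ (by simp [Par.vec])
        (by simp [pt]; norm_num)
      c3 := key ((X 0 - X 5) - (X 1 - X 7)) _ (by simp [Par.vec]) (by simp [pt]; norm_num)
      c4 := key ((X 0 - X 6) - (X 1 - X 8)) _ (by simp [Par.vec]) (by simp [pt]; norm_num)
      c5 := key ((X 3 - X 12) - (X 1 - X 7)) _ (by simp [Par.vec]) (by simp [pt]; norm_num)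
      c6 := key ((X 2 - X 10) - (X 1 - X 8)) _ (by simp [Par.vec]) (by simp [pt]; norm_num)
      c7 := key ((X 0 - X 6) * (X 1 - X 7) - (X 0 - X 5) * (X 1 - X 8)) _ (by simp [Par.vec])
        (by simp [pt]; norm_num)
      c8 := key ((X 1 - X 7) * (X 2 - X 10) - (X 1 - X 8) * (X 3 - X 12)) _ (by simp [Par.vec])
        (by simp [pt]; norm_num)
      c9 := key ((X 5 - X 12) - (X 4 - X 11)) _ (by simp [Par.vec]) (by simp [pt]; norm_num)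
      c9' := key ((X 6 - X 10) - (X 4 - X 9)) _ (by simp [Par.vec]) (by simp [pt]; norm_num)
      c10 := key ((X 5 - X 7) * (X 4 - X 11) - (X 6 - X 8) * (X 5 - X 12)) _ (by simp [Par.vec])
        (by simp [pt]; norm_num)
      c10' := key ((X 6 - X 8) * (X 4 - X 9) - (X 5 - X 7) * (X 6 - X 10)) _ (by simp [Par.vec])
        (by simp [pt]; norm_num)
      c11 := key ((X 2 - X 10) * (X 5 - X 12) - (X 1 - X 8) * (X 4 - X 11)) _ (by simp [Par.vec])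
        (by simp [pt]; norm_num)
      c11' := key ((X 3 - X 12) * (X 6 - X 10) - (X 1 - X 7) * (X 4 - X 9)) _ (by simp [Par.vec])
        (by simp [pt]; norm_num)
      c12 := ?_
      c12' := ?_
      c13 := ?_
      c13' := ?_
      c14 := key ((X 4 - X 9) * (X 5 - X 12) - (X 4 - X 11) * (X 6 - X 10)) _ (by simp [Par.vec])
        (by simp [pt]; norm_num)
      c15 := key ((X 5 - X 7) * (X 4 - X 11) * (X 6 - X 10)
        - (X 6 - X 8) * (X 4 - X 9) * (X 5 - X 12)) _ (by simp [Par.vec])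
        (by simp [pt]; norm_num)
      c16 := ?_
      d1 := key ((X 3 - X 11) - (X 2 - X 9)) _ (by simp [Par.vec]) (by simp [pt]; norm_num)
      d2 := key ((X 5 - X 7) * (X 2 - X 9) - (X 6 - X 8) * (X 3 - X 11)) _ (by simp [Par.vec])
        (by simp [pt]; norm_num)
      d3 := key ((X 3 - X 12) * (X 2 - X 9) - (X 1 - X 7) * (X 3 - X 11)) _ (by simp [Par.vec])
        (by simp [pt]; norm_num)
      d4 := key ((X 2 - X 10) * (X 3 - X 11) - (X 1 - X 8) * (X 2 - X 9)) _ (by simp [Par.vec])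
        (by simp [pt]; norm_num)
      d5 := key ((X 1 - X 7) * (X 2 - X 10) * (X 3 - X 11)
        - (X 1 - X 8) * (X 3 - X 12) * (X 2 - X 9)) _ (by simp [Par.vec])
        (by simp [pt]; norm_num) }
  · have h := key (EH (X 0) (X 1) (X 6) (X 8) 0 1 (X 5) (X 7) (X 5 - X 12) (X 0 - X 3))
      (EH a.P0 a.P1 a.R3 a.l13 0 1 a.R2 a.l12 (a.R2 - a.l32) (a.P0 - a.P3))
      (by simp [EH, cA, cB, cC, Par.vec]) (by simp [EH, cA, cB, cC, pt]; norm_num)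
    intro h0
    apply h
    have e := EH_smul_right a.P0 a.P1 a.R3 a.l13 0 1 a.R2 a.l12 (a.P0 - a.P3)
      ((a.R2 - a.l32) / (a.P0 - a.P3)) 1
    rw [mul_div_cancel₀ _ P03, mul_one] at e
    rw [e]
    unfold Ef at h0
    rw [h0, mul_zero]
  · have h := key (EH (X 0) (X 1) (X 6) (X 8) (X 6 - X 10) (X 0 - X 2) (X 5) (X 7) 0 1)
      (EH a.P0 a.P1 a.R3 a.l13 (a.R3 - a.l23) (a.P0 - a.P2) a.R2 a.l12 0 1)
      (by simp [EH, cA, cB, cC, Par.vec]) (by simp [EH, cA, cB, cC, pt]; norm_num)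
    intro h0
    apply h
    have e := EH_smul_left a.P0 a.P1 a.R3 a.l13 (a.P0 - a.P2)
      ((a.R3 - a.l23) / (a.P0 - a.P2)) 1 a.R2 a.l12 0 1
    rw [mul_div_cancel₀ _ P02, mul_one] at e
    rw [e]
    unfold Ef at h0
    rw [h0, mul_zero]
  · have h := key (EH (X 0) (X 1) (X 6) (X 8) 1 1 (X 5) (X 7) (X 5 - X 12) (X 0 - X 3))
      (EH a.P0 a.P1 a.R3 a.l13 1 1 a.R2 a.l12 (a.R2 - a.l32) (a.P0 - a.P3))
      (by simp [EH, cA, cB, cC, Par.vec]) (by simp [EH, cA, cB, cC, pt]; norm_num)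
    intro h0
    apply h
    have e := EH_smul_right a.P0 a.P1 a.R3 a.l13 1 1 a.R2 a.l12 (a.P0 - a.P3)
      ((a.R2 - a.l32) / (a.P0 - a.P3)) 1
    rw [mul_div_cancel₀ _ P03, mul_one] at e
    rw [e]
    unfold Ef at h0
    rw [h0, mul_zero]
  · have h := key (EH (X 0) (X 1) (X 6) (X 8) (X 6 - X 10) (X 0 - X 2) (X 5) (X 7) 1 1)
      (EH a.P0 a.P1 a.R3 a.l13 (a.R3 - a.l23) (a.P0 - a.P2) a.R2 a.l12 1 1)
      (by simp [EH, cA, cB, cC, Par.vec]) (by simp [EH, cA, cB, cC, pt]; norm_num)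
    intro h0
    apply h
    have e := EH_smul_left a.P0 a.P1 a.R3 a.l13 (a.P0 - a.P2)
      ((a.R3 - a.l23) / (a.P0 - a.P2)) 1 a.R2 a.l12 1 1
    rw [mul_div_cancel₀ _ P02, mul_one] at e
    rw [e]
    unfold Ef at h0
    rw [h0, mul_zero]
  · have h := key (EH (X 0) (X 1) (X 6) (X 8) (X 6 - X 10) (X 0 - X 2) (X 5) (X 7)
        (X 5 - X 12) (X 0 - X 3))
      (EH a.P0 a.P1 a.R3 a.l13 (a.R3 - a.l23) (a.P0 - a.P2) a.R2 a.l12
        (a.R2 - a.l32) (a.P0 - a.P3))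
      (by simp [EH, cA, cB, cC, Par.vec]) (by simp [EH, cA, cB, cC, pt]; norm_num)
    intro h0
    apply h
    have e := EH_smul_left a.P0 a.P1 a.R3 a.l13 (a.P0 - a.P2)
      ((a.R3 - a.l23) / (a.P0 - a.P2)) 1 a.R2 a.l12 (a.R2 - a.l32) (a.P0 - a.P3)
    rw [mul_div_cancel₀ _ P02, mul_one] at e
    have e' := EH_smul_right a.P0 a.P1 a.R3 a.l13 ((a.R3 - a.l23) / (a.P0 - a.P2)) 1 a.R2 a.l12
      (a.P0 - a.P3) ((a.R2 - a.l32) / (a.P0 - a.P3)) 1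
    rw [mul_div_cancel₀ _ P03, mul_one] at e'
    rw [e, e']
    unfold Ef at h0
    rw [h0, mul_zero, mul_zero]

/-- A zero of the full eliminant produces a closed chain in projective coordinates. -/
lemma chain_of_NN (a : Par ℂ) (ha : a.Nz) (x : ℂ) (hA : cA a.P0 a.R1 x 1 ≠ 0)
    (h : NN a x = 0) :
    ∃ V W p q p' q' r s : ℂ, (p ≠ 0 ∨ q ≠ 0) ∧ (p' ≠ 0 ∨ q' ≠ 0) ∧ (r ≠ 0 ∨ s ≠ 0) ∧
      cH a.P0 a.P2 a.R1 a.l21 x 1 V 1 = 0 ∧ cH a.P0 a.P3 a.R1 a.l31 x 1 W 1 = 0 ∧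
      cH a.P0 a.P2 a.R3 a.l23 p q V 1 = 0 ∧ cH a.P0 a.P3 a.R2 a.l32 p' q' W 1 = 0 ∧
      cH a.P0 a.P1 a.R3 a.l13 p q r s = 0 ∧ cH a.P0 a.P1 a.R2 a.l12 p' q' r s = 0 := by
  obtain ⟨V₀, V₁, hV⟩ := exists_VRoots a.P0 a.P2 a.R1 a.l21 x hA
  obtain ⟨W₀, W₁, hW⟩ := exists_VRoots a.P0 a.P3 a.R1 a.l31 x hA
  have key : ∀ V W, cH a.P0 a.P2 a.R1 a.l21 x 1 V 1 = 0 → cH a.P0 a.P3 a.R1 a.l31 x 1 W 1 = 0 →
      HH a V W = 0 → ∃ V W p q p' q' r s : ℂ, (p ≠ 0 ∨ q ≠ 0) ∧ (p' ≠ 0 ∨ q' ≠ 0) ∧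
      (r ≠ 0 ∨ s ≠ 0) ∧
      cH a.P0 a.P2 a.R1 a.l21 x 1 V 1 = 0 ∧ cH a.P0 a.P3 a.R1 a.l31 x 1 W 1 = 0 ∧
      cH a.P0 a.P2 a.R3 a.l23 p q V 1 = 0 ∧ cH a.P0 a.P3 a.R2 a.l32 p' q' W 1 = 0 ∧
      cH a.P0 a.P1 a.R3 a.l13 p q r s = 0 ∧ cH a.P0 a.P1 a.R2 a.l12 p' q' r s = 0 := by
    intro V W h1 h2 h3
    obtain ⟨p, q, p', q', r, s, k1, k2, k3, k4, k5, k6, k7⟩ := chain_of_HH a ha V W h3
    exact ⟨V, W, p, q, p', q', r, s, k1, k2, k3, h1, h2, k4, k5, k6, k7⟩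
  rw [NN_eq a x V₀ V₁ W₀ W₁ hV.1 hV.2 hW.1 hW.2] at h
  have h1 := (mul_eq_zero.mp h).resolve_left (pow_ne_zero 64 hA)
  rcases mul_eq_zero.mp h1 with h1 | h1
  · rcases mul_eq_zero.mp h1 with h1 | h1
    · rcases mul_eq_zero.mp h1 with h1 | h1
      · exact key _ _ hV.zero_left hW.zero_left h1
      · exact key _ _ hV.zero_left hW.zero_right h1
    · exact key _ _ hV.zero_right hW.zero_left h1
  · exact key _ _ hV.zero_right hW.zero_right h1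

/-- Solving the bar equation for the bar length. -/
lemma l_mem {F : Subfield ℂ} {P0 P R l x V : ℂ} (h0 : P0 ∈ F) (h1 : P ∈ F) (h2 : R ∈ F)
    (hx : x ∈ F) (hV : V ∈ F) (hx0 : x ≠ 0) (hV0 : V ≠ 0) (h : cH P0 P R l x 1 V 1 = 0) :
    l ∈ F := by
  have e : l = ((1 - x) * (P0 * x - R) * V + P * x * V
      + (P0 * x - R) * V ^ 2 + P * x * (1 - x)) / (x * V) := by
    field_simp
    simp only [cH, cA, cB, cC] at h
    linear_combination -h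
  rw [e]
  have h3 : P0 * x - R ∈ F := F.sub_mem (F.mul_mem h0 hx) h2
  have h4 : 1 - x ∈ F := F.sub_mem F.one_mem hx
  exact F.div_mem (F.add_mem (F.add_mem (F.add_mem (F.mul_mem (F.mul_mem h4 h3) hV)
    (F.mul_mem (F.mul_mem h1 hx) hV)) (F.mul_mem h3 (F.pow_mem hV 2)))
    (F.mul_mem (F.mul_mem h1 hx) h4)) (F.mul_mem hx hV)

lemma not_FP_one {F : Subfield ℂ} (h : ¬ FP F 1 1) : False :=
  h (Or.inr (by simp [F.one_mem]))

/-- Nondegeneracy at a position over `F`. -/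
lemma nondeg_of_mem {F : Subfield ℂ} {P0 P R l x : ℝ} (h0 : (P0 : ℂ) ∈ F) (h1 : (P : ℂ) ∈ F)
    (h2 : (R : ℂ) ∈ F) (hl : (l : ℂ) ∉ F) (hx : (x : ℂ) ∈ F) (hx0 : x ≠ 0) (hP : P ≠ 0)
    (hP0 : P0 ≠ 0) : Nondeg P0 P R l x := by
  have hx0' : (x : ℂ) ≠ 0 := by exact_mod_cast hx0
  have hP' : (P : ℂ) ≠ 0 := by exact_mod_cast hP
  have hP0' : (P0 : ℂ) ≠ 0 := by exact_mod_cast hP0
  constructor
  · intro h
    have e := ofReal_cH P0 P R l x (-1)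
    rw [h] at e
    push_cast at e
    exact hl (l_mem h0 h1 h2 hx (F.neg_mem F.one_mem) hx0' (neg_ne_zero.mpr one_ne_zero) e.symm)
  · intro h
    have e := ofReal_cH P0 P R l x (-(P / P0))
    rw [h] at e
    push_cast at e
    exact hl (l_mem h0 h1 h2 hx (F.neg_mem (F.div_mem h1 h0)) hx0'
      (neg_ne_zero.mpr (div_ne_zero hP' hP0')) e.symm)

lemma genAll_of_gen {a : Par ℝ} (hv : AlgebraicIndependent ℚ a.vec) (hP0 : 0 < a.P0)
    (hR1 : 0 < a.R1) : GenAll a := by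
  have g := gen_of_gen hv
  have nz := g.nz
  have nzC := nz.toC
  obtain ⟨F, hF⟩ := exists_except21 (algInd_toC hv)
  obtain ⟨F', hF'⟩ := exists_except31 (algInd_toC hv)
  have hR01 : (a.P0 : ℂ) - a.R1 ≠ 0 := by
    exact_mod_cast sub_ne_zero.mpr nz.R01
  have hn3 : (a.l21 : ℂ) - a.P2 ≠ 0 := by
    exact_mod_cast sub_ne_zero.mpr g.n3.symm
  have hn4 : (a.l31 : ℂ) - a.P3 ≠ 0 := by
    exact_mod_cast sub_ne_zero.mpr g.n4.symm
  have hV : cH (a.P0 : ℂ) a.P2 a.R1 a.l21 1 1 ((a.l21 - a.P2) / (a.P0 - a.R1)) 1 = 0 := by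
    simp only [cH, cA, cB, cC]
    field_simp
    ring
  have hW : cH (a.P0 : ℂ) a.P3 a.R1 a.l31 1 1 ((a.l31 - a.P3) / (a.P0 - a.R1)) 1 = 0 := by
    simp only [cH, cA, cB, cC]
    field_simp
    ring
  have hV0 : cH (a.P0 : ℂ) a.P2 a.R1 a.l21 1 1 0 1 = 0 := by
    simp only [cH, cA, cB, cC]
    ring
  have hW0 : cH (a.P0 : ℂ) a.P3 a.R1 a.l31 1 1 0 1 = 0 := by
    simp only [cH, cA, cB, cC]
    ring
  have g1 : HH a ((a.l21 - a.P2) / (a.P0 - a.R1)) 0 ≠ 0 := by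
    intro h
    have e := HH_toC a ((a.l21 - a.P2) / (a.P0 - a.R1)) 0
    rw [h] at e
    push_cast at e
    obtain ⟨p, q, p', q', r, s, k1, k2, k3, k4, k5, k6, k7⟩ := chain_of_HH a.toC nzC _ _ e.symm
    exact not_FP_one (no_FP hF nzC one_ne_zero (div_ne_zero hn3 hR01) k1 k2 k3 hV hW0
      k4 k5 k6 k7).1
  have g3 : HH a ((a.l21 - a.P2) / (a.P0 - a.R1)) ((a.l31 - a.P3) / (a.P0 - a.R1)) ≠ 0 := by
    intro h
    have e := HH_toC a ((a.l21 - a.P2) / (a.P0 - a.R1)) ((a.l31 - a.P3) / (a.P0 - a.R1))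
    rw [h] at e
    push_cast at e
    obtain ⟨p, q, p', q', r, s, k1, k2, k3, k4, k5, k6, k7⟩ := chain_of_HH a.toC nzC _ _ e.symm
    exact not_FP_one (no_FP hF nzC one_ne_zero (div_ne_zero hn3 hR01) k1 k2 k3 hV hW
      k4 k5 k6 k7).1
  have g2 : HH a 0 ((a.l31 - a.P3) / (a.P0 - a.R1)) ≠ 0 := by
    intro h
    have e := HH_toC a 0 ((a.l31 - a.P3) / (a.P0 - a.R1))
    rw [h] at e
    push_cast at e
    obtain ⟨p, q, p', q', r, s, k1, k2, k3, k4, k5, k6, k7⟩ := chain_of_HH a.toC nzC _ _ e.symm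
    exact not_FP_one (no_FP (a := a.toC.swap) hF' nzC.swap one_ne_zero (div_ne_zero hn4 hR01)
      k2 k1 k3 hW hV0 k5 k4 k7 k6).1
  refine ⟨g, hP0, hR1, g1, g2, g3, ?_, ?_, ?_⟩
  · exact nondeg_of_mem hF.P0 hF.P2 hF.R1 hF.l21 (by simpa using F.one_mem) one_ne_zero nz.P2 nz.P0
  · exact nondeg_of_mem hF'.P0 hF'.P2 hF'.R1 hF'.l21 (by simpa using F'.one_mem) one_ne_zero
      nz.P3 nz.P0
  · intro c hc
    have hc0 : c ≠ 0 := by rintro rfl; apply nz.R1; rw [← hc]; ring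
    have hc0C : (c : ℂ) ≠ 0 := by exact_mod_cast hc0
    have hcC : (a.P0 : ℂ) * (c : ℂ) ^ 2 = a.R1 := by exact_mod_cast hc
    have hc1 : c ≠ 1 := by
      rintro rfl; apply nz.R01; rw [← hc]; ring
    have mem : ∀ {F : Subfield ℂ}, QuadClosed F → (a.P0 : ℂ) ∈ F → (a.R1 : ℂ) ∈ F →
        (c : ℂ) ∈ F := by
      intro F hq h0 h1
      refine hq (a.P0 : ℂ) h0 0 F.zero_mem (-(a.R1 : ℂ)) (F.neg_mem h1) ?_ c ?_
      · rintro ⟨h, -, -⟩
        exact nzC.P0 h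
      · linear_combination hcC
    have m1 : (c : ℂ) ∈ F := mem hF.quad hF.P0 hF.R1
    have m2 : (c : ℂ) ∈ F' := mem hF'.quad hF'.P0 hF'.R1
    have nd1 : Nondeg a.P0 a.P2 a.R1 a.l21 c :=
      nondeg_of_mem hF.P0 hF.P2 hF.R1 hF.l21 m1 hc0 nz.P2 nz.P0
    have nd2 : Nondeg a.P0 a.P3 a.R1 a.l31 c :=
      nondeg_of_mem hF'.P0 hF'.P2 hF'.R1 hF'.l21 m2 hc0 nz.P3 nz.P0
    refine ⟨nd1, nd2, ?_⟩
    intro h
    have e := NN_toC a c
    rw [h] at e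
    have hA : cA (a.P0 : ℂ) a.R1 c 1 ≠ 0 := by
      rw [← ofReal_cA]
      have : cA a.P0 a.R1 c 1 = a.P0 * c * (1 - c) := by
        simp only [cA]; rw [← hc]; ring
      rw [this]
      exact_mod_cast mul_ne_zero (mul_ne_zero nz.P0 hc0) (sub_ne_zero.mpr hc1.symm)
    obtain ⟨V, W, p, q, p', q', r, s, k1, k2, k3, k4, k5, k6, k7, k8, k9⟩ :=
      chain_of_NN a.toC nzC c hA (by rw [← e]; simp)
    have hVne : V ≠ 0 := by
      rintro rfl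
      have : cH a.toC.P0 a.toC.P2 a.toC.R1 a.toC.l21 c 1 0 1 = cC a.toC.P2 c 1 := by
        simp only [cH]; ring
      rw [this] at k4
      have h2 : cC a.toC.P2 (c : ℂ) 1 = (a.P2 : ℂ) * c * (1 - c) := rfl
      rw [h2] at k4
      have : a.P2 * c * (1 - c) = 0 := by exact_mod_cast k4
      exact mul_ne_zero (mul_ne_zero nz.P2 hc0) (sub_ne_zero.mpr hc1.symm) this
    exact (no_FP hF nzC hc0C hVne k1 k2 k3 k4 k5 k6 k7 k8 k9).1 (Or.inr (by simpa using m1))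

end Pool.Agent.MP01c1f4
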