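import Mathlib
import Pool.Agent.MP01c1f4.GenericTwo
import Pool.Agent.MP01c1f4.Finiteness

set_option autoImplicit false

open Polynomial

namespace Pool.Agent.MP01c1f4

/-- Homogeneity of the bar equation. -/
lemma cH_smul {K : Type*} [Field K] (P0 P R l t p q u r s : K) :
    cH P0 P R l (t * p) (t * q) (u * r) (u * s) = t ^ 2 * u ^ 2 * cH P0 P R l p q r s := by
  simp only [cH, cA, cB, cC]; ring

lemma cH_dehom {K : Type*} [Field K] {P0 P R l p q r s : K} (hq : q ≠ 0) (hs : s ≠ 0)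
    (h : cH P0 P R l p q r s = 0) : cH P0 P R l (p / q) 1 (r / s) 1 = 0 := by
  have e := cH_smul P0 P R l q (p / q) 1 s (r / s) 1
  rw [mul_div_cancel₀ _ hq, mul_div_cancel₀ _ hs, mul_one, mul_one, h] at e
  exact (mul_eq_zero.mp e.symm).resolve_left (mul_ne_zero (pow_ne_zero 2 hq) (pow_ne_zero 2 hs))

lemma FP_zero {F : Subfield ℂ} {q : ℂ} : FP F 0 q := Or.inr (by simp [F.zero_mem])

/-- Existence of a complex hexagon with real first vertex strictly inside the forbidden range. -/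
theorem exists_hexagon {a : Par ℝ} (hv : AlgebraicIndependent ℚ a.vec) (hP0 : 0 < a.P0)
    (hR1 : 0 < a.R1) :
    ∃ x1 : ℝ, ∃ x2 x3 V1 V2 V3 : ℂ, x1 ≠ 0 ∧ x2 ≠ 0 ∧ x3 ≠ 0 ∧ V1 ≠ 0 ∧ V2 ≠ 0 ∧ V3 ≠ 0 ∧
      a.P0 * x1 ^ 2 < a.R1 ∧
      cH (a.P0 : ℂ) a.P2 a.R1 a.l21 x1 1 V2 1 = 0 ∧ cH (a.P0 : ℂ) a.P3 a.R1 a.l31 x1 1 V3 1 = 0 ∧
      cH (a.P0 : ℂ) a.P2 a.R3 a.l23 x3 1 V2 1 = 0 ∧ cH (a.P0 : ℂ) a.P3 a.R2 a.l32 x2 1 V3 1 = 0 ∧
      cH (a.P0 : ℂ) a.P1 a.R3 a.l13 x3 1 V1 1 = 0 ∧ cH (a.P0 : ℂ) a.P1 a.R2 a.l12 x2 1 V1 1 = 0 := by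
  have gA := genAll_of_gen hv hP0 hR1
  have nz := gA.gen.nz
  have nzC := nz.toC
  obtain ⟨F, hF⟩ := exists_except21 (algInd_toC hv)
  obtain ⟨x, hx0, hx1, hxk, hxc, hN⟩ := exists_zero a gA
  have hx0C : (x : ℂ) ≠ 0 := by exact_mod_cast hx0
  have hA : cA a.toC.P0 a.toC.R1 (x : ℂ) 1 ≠ 0 := by
    have e : cA a.toC.P0 a.toC.R1 (x : ℂ) 1 = ((a.P0 * x - a.R1 : ℝ) : ℂ) := by
      simp [cA, Par.toC, Par.map]
    rw [e]
    exact_mod_cast sub_ne_zero.mpr hxk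
  obtain ⟨V, W, p, q, p', q', r, s, k1, k2, k3, k4, k5, k6, k7, k8, k9⟩ :=
    chain_of_NN a.toC nzC x hA (by rw [← NN_toC, hN]; simp)
  have hc : ∀ P : ℝ, P ≠ 0 → ((P : ℂ)) * x * (1 - x) ≠ 0 := by
    intro P hP
    exact_mod_cast mul_ne_zero (mul_ne_zero hP hx0) (sub_ne_zero.mpr hx1.symm)
  have hV : V ≠ 0 := by
    rintro rfl
    have : cH a.toC.P0 a.toC.P2 a.toC.R1 a.toC.l21 x 1 0 1 = (a.P2 : ℂ) * x * (1 - x) := by
      simp only [cH, cC]
      simp [Par.toC, Par.map]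
    rw [this] at k4
    exact hc _ nz.P2 k4
  have hW : W ≠ 0 := by
    rintro rfl
    have : cH a.toC.P0 a.toC.P3 a.toC.R1 a.toC.l31 x 1 0 1 = (a.P3 : ℂ) * x * (1 - x) := by
      simp only [cH, cC]
      simp [Par.toC, Par.map]
    rw [this] at k5
    exact hc _ nz.P3 k5
  obtain ⟨f1, f2, f3, f4, f5⟩ := no_FP hF nzC hx0C hV k1 k2 k3 k4 k5 k6 k7 k8 k9
  have hq' : q' ≠ 0 := fun h => f3 (Or.inl h)
  have hp' : p' ≠ 0 := by rintro rfl; exact f3 FP_zero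
  have hq : q ≠ 0 := fun h => f5 (Or.inl h)
  have hp : p ≠ 0 := by rintro rfl; exact f5 FP_zero
  have hs : s ≠ 0 := fun h => f4 (Or.inl h)
  have hr : r ≠ 0 := by rintro rfl; exact f4 FP_zero
  refine ⟨x, p' / q', p / q, r / s, V, W, hx0, div_ne_zero hp' hq', div_ne_zero hp hq,
    div_ne_zero hr hs, hV, hW, hxc, k4, k5, ?_, ?_, ?_, ?_⟩
  · have := cH_dehom hq one_ne_zero k6
    rwa [div_one] at this
  · have := cH_dehom hq' one_ne_zero k7
    rwa [div_one] at this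
  · exact cH_dehom hq hs k8
  · exact cH_dehom hq' hs k9

lemma bar_eq {P0 P R l x V : ℂ} (hx : x ≠ 0) (hV : V ≠ 0) (h : cH P0 P R l x 1 V 1 = 0) :
    (1 + V - x) * (P0 + P / V - R / x) = l := by
  simp only [cH, cA, cB, cC] at h
  field_simp
  linear_combination h

/-- The parameter set attached to thirteen numbers. -/
def parOf (l : Fin 13 → ℝ) : Par ℝ :=
  ⟨l 0, l 1, l 2, l 3, l 4, l 5, l 6, l 7, l 8, l 9, l 10, l 11, l 12⟩

lemma vec_parOf (l : Fin 13 → ℝ) : (parOf l).vec = l := by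
  funext i
  fin_cases i <;> rfl

/-- The placement with given isotropic coordinates. -/
noncomputable def isoP (z w : Fin 8 → ℂ) : Fin 8 → Fin 2 → ℂ :=
  fun v => ![(z v + w v) / 2, (z v - w v) / (2 * Complex.I)]

lemma sqd_isoP (z w : Fin 8 → ℂ) (i j : Fin 8) :
    sqd (isoP z w) i j = (z i - z j) * (w i - w j) := by
  have hI : (Complex.I) ≠ 0 := Complex.I_ne_zero
  have h2 : Complex.I ^ 2 = -1 := Complex.I_sq
  simp only [sqd, isoP, Fin.sum_univ_two, Matrix.cons_val_zero, Matrix.cons_val_one]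
  field_simp
  rw [h2]
  ring

/-- Existence of a complex placement with the prescribed edge lengths whose `b₀b₁` distance is
real but outside the Euclidean range. -/
theorem exists_placement {l : Fin 13 → ℝ} (hv : AlgebraicIndependent ℚ l) (h0 : 0 < l 0)
    (h4 : 0 < l 4) :
    ∃ (q : Fin 8 → Fin 2 → ℂ) (d : ℝ), (∀ e, sqd q (eI e) (eJ e) = (l e : ℂ)) ∧
      sqd q 4 5 = (d : ℂ) ∧ 4 * l 0 * l 4 < (d - l 0 - l 4) ^ 2 := by
  have hv' : AlgebraicIndependent ℚ (parOf l).vec := by rw [vec_parOf]; exact hv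
  obtain ⟨x1, x2, x3, V1, V2, V3, hx1, hx2, hx3, hV1, hV2, hV3, hlt, e21, e31, e23, e32, e13,
    e12⟩ := exists_hexagon hv' h0 h4
  have hx1C : (x1 : ℂ) ≠ 0 := by exact_mod_cast hx1
  simp only [parOf] at hlt e21 e31 e23 e32 e13 e12
  have b21 := bar_eq hx1C hV2 e21
  have b31 := bar_eq hx1C hV3 e31
  have b23 := bar_eq hx3 hV2 e23
  have b32 := bar_eq hx2 hV3 e32
  have b13 := bar_eq hx3 hV1 e13
  have b12 := bar_eq hx2 hV1 e12
  let z : Fin 8 → ℂ := ![0, 1 + V1, 1 + V2, 1 + V3, 1, x1, x2, x3]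
  let w : Fin 8 → ℂ := ![0, l 0 + l 1 / V1, l 0 + l 2 / V2, l 0 + l 3 / V3, l 0, l 4 / x1,
    l 5 / x2, l 6 / x3]
  refine ⟨isoP z w, l 4 + l 0 - l 0 * x1 - l 4 / x1, ?_, ?_, ?_⟩
  · intro e
    rw [sqd_isoP]
    fin_cases e
    · simp [eI, eJ, z, w]
    · simp [eI, eJ, z, w]; field_simp
    · simp [eI, eJ, z, w]; field_simp
    · simp [eI, eJ, z, w]; field_simp
    · simp [eI, eJ, z, w]; field_simp
    · simp [eI, eJ, z, w]; field_simp
    · simp [eI, eJ, z, w]; field_simp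
    · simpa [eI, eJ, z, w] using b12
    · simpa [eI, eJ, z, w] using b13
    · simpa [eI, eJ, z, w] using b21
    · simpa [eI, eJ, z, w] using b23
    · simpa [eI, eJ, z, w] using b31
    · simpa [eI, eJ, z, w] using b32
  · rw [sqd_isoP]
    simp only [z, w]
    simp
    field_simp
    ring
  · have hne : l 0 * x1 - l 4 / x1 ≠ 0 := by
      intro h
      have : l 0 * x1 ^ 2 = l 4 := by
        field_simp at h
        linear_combination h
      linarith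
    have hpos : 0 < (l 0 * x1 - l 4 / x1) ^ 2 := by positivity
    have e : (l 4 + l 0 - l 0 * x1 - l 4 / x1 - l 0 - l 4) ^ 2
        = (l 0 * x1 - l 4 / x1) ^ 2 + 4 * l 0 * l 4 := by
      field_simp; ring
    rw [e]
    linarith

end Pool.Agent.MP01c1f4
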