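import Mathlib
import Pool.Agent.MP01c1f4.Realise

set_option autoImplicit false

open Matrix

namespace Pool.Agent.MP01c1f4

/-- The complete bipartite graph `K₄,₄` minus three independent edges. -/
def theG : SimpleGraph (Fin 8) where
  Adj i j := ∃ e, (i = eI e ∧ j = eJ e) ∨ (i = eJ e ∧ j = eI e)
  symm := by
    constructor
    rintro i j ⟨e, h | h⟩
    · exact ⟨e, Or.inr ⟨h.2, h.1⟩⟩
    · exact ⟨e, Or.inl ⟨h.2, h.1⟩⟩
  loopless := by
    constructor
    rintro i ⟨e, h⟩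
    have : ∀ e, eI e ≠ eJ e := by decide
    rcases h with h | h
    · exact this e (h.1.symm.trans h.2)
    · exact this e (h.2.symm.trans h.1)

lemma theG_adj (e : Fin 13) : theG.Adj (eI e) (eJ e) := ⟨e, Or.inl ⟨rfl, rfl⟩⟩

/-- The graph is infinitesimally rigid at every generic placement. -/
lemma theG_rigid (p : Fin 8 → Fin 2 → ℝ)
    (hp : AlgebraicIndependent ℚ (fun x : Fin 8 × Fin 2 => p x.1 x.2))
    (u : Fin 8 → Fin 2 → ℝ)
    (hu : ∀ i j, theG.Adj i j → ∑ k, (p i k - p j k) * (u i k - u j k) = 0) :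
    ∀ i j, ∑ k, (p i k - p j k) * (u i k - u j k) = 0 := by
  have hd : p 4 1 - p 0 1 ≠ 0 := by
    intro h
    have h1 : (fun x : Fin 8 × Fin 2 => p x.1 x.2) (4, 1)
        = (fun x : Fin 8 × Fin 2 => p x.1 x.2) (0, 1) := sub_eq_zero.mp h
    have h2 := hp.injective h1
    exact absurd h2 (by decide)
  set r : ℝ := -(u 4 0 - u 0 0) / (p 4 1 - p 0 1) with hr
  let u' : Fin 8 → Fin 2 → ℝ := fun v =>
    ![u v 0 - u 0 0 + r * (p v 1 - p 0 1), u v 1 - u 0 1 - r * (p v 0 - p 0 0)]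
  have h1 : rmat p *ᵥ (fun c => u' c.1 c.2) = 0 := by
    funext s
    rcases s with e | s
    · rw [rmat_mulVec_inl]
      have h2 := hu _ _ (theG_adj e)
      simp only [Fin.sum_univ_two] at h2
      simp only [Fin.sum_univ_two, u', Matrix.cons_val_zero, Matrix.cons_val_one, Pi.zero_apply]
      linear_combination h2
    · rw [rmat_mulVec_inr]
      fin_cases s
      · simp [pin, u']
      · simp [pin, u']
      · simp only [pin, u', Pi.zero_apply]
        simp
        rw [hr]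
        field_simp
        ring
  have h2 := rmat_ker (det_rsq_of_gen hp) h1
  have h3 : ∀ v k, u' v k = 0 := fun v k => congrFun h2 (v, k)
  intro i j
  have a0 := h3 i 0
  have a1 := h3 i 1
  have b0 := h3 j 0
  have b1 := h3 j 1
  simp only [u', Matrix.cons_val_zero, Matrix.cons_val_one] at a0 a1 b0 b1
  simp only [Fin.sum_univ_two]
  linear_combination (p i 0 - p j 0) * (a0 - b0) + (p i 1 - p j 1) * (a1 - b1)

theorem no_equality (p : Fin 8 → Fin 2 → ℝ)
    (hp : AlgebraicIndependent ℚ (fun x : Fin 8 × Fin 2 => p x.1 x.2)) :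
    {D : Fin 8 → Fin 8 → ℝ | ∃ q : Fin 8 → Fin 2 → ℝ,
          (∀ i j, theG.Adj i j → ∑ k, (q i k - q j k) ^ 2 = ∑ k, (p i k - p j k) ^ 2) ∧
          D = fun i j => ∑ k, (q i k - q j k) ^ 2}.ncard ≠
      {D : Fin 8 → Fin 8 → ℂ | ∃ q : Fin 8 → Fin 2 → ℂ,
          (∀ i j, theG.Adj i j →
            ∑ k, (q i k - q j k) ^ 2 = ∑ k, ((p i k : ℂ) - (p j k : ℂ)) ^ 2) ∧
          D = fun i j => ∑ k, (q i k - q j k) ^ 2}.ncard := by
  have hl := algInd_lam hp
  have pos : ∀ i j : Fin 8, i ≠ j → 0 < sqd p i j := by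
    intro i j hij
    have hne : p i 0 - p j 0 ≠ 0 := by
      intro h
      have h1 : (fun x : Fin 8 × Fin 2 => p x.1 x.2) (i, 0)
          = (fun x : Fin 8 × Fin 2 => p x.1 x.2) (j, 0) := sub_eq_zero.mp h
      have h2 := hp.injective h1
      exact hij (congrArg Prod.fst h2)
    have : 0 < (p i 0 - p j 0) ^ 2 := by positivity
    simp only [sqd, Fin.sum_univ_two]
    nlinarith [sq_nonneg (p i 1 - p j 1)]
  set SR : Set (Fin 8 → Fin 8 → ℝ) := {D : Fin 8 → Fin 8 → ℝ | ∃ q : Fin 8 → Fin 2 → ℝ,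
          (∀ i j, theG.Adj i j → ∑ k, (q i k - q j k) ^ 2 = ∑ k, (p i k - p j k) ^ 2) ∧
          D = fun i j => ∑ k, (q i k - q j k) ^ 2} with hSR
  set SC : Set (Fin 8 → Fin 8 → ℂ) := {D : Fin 8 → Fin 8 → ℂ | ∃ q : Fin 8 → Fin 2 → ℂ,
          (∀ i j, theG.Adj i j →
            ∑ k, (q i k - q j k) ^ 2 = ∑ k, ((p i k : ℂ) - (p j k : ℂ)) ^ 2) ∧
          D = fun i j => ∑ k, (q i k - q j k) ^ 2} with hSC
  -- the real set is finite
  have hfin : SR.Finite := by
    have h1 : {D : Fin 8 → Fin 8 → ℝ | ∀ i, D i ∈ {E : Fin 8 → ℝ | ∀ j, E j ∈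
        {d : ℝ | ∃ q : Fin 8 → Fin 2 → ℝ, lam q = lam p ∧ d = sqd q i j}}}.Finite :=
      Set.Finite.pi' fun i => Set.Finite.pi' fun j => finite_values hl (pos 0 4 (by decide)) i j
    refine h1.subset ?_
    rintro D ⟨q, hq, rfl⟩ i j
    exact ⟨q, funext fun e => hq _ _ (theG_adj e), rfl⟩
  -- it is nonempty
  have hne : SR.Nonempty := ⟨_, p, fun _ _ _ => rfl, rfl⟩
  -- the embedding
  let ι : (Fin 8 → Fin 8 → ℝ) → (Fin 8 → Fin 8 → ℂ) := fun D i j => (D i j : ℂ)
  have hι : Function.Injective ι := by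
    intro D D' h
    funext i j
    have := congrFun (congrFun h i) j
    exact Complex.ofReal_injective this
  have hsub : ι '' SR ⊆ SC := by
    rintro _ ⟨D, ⟨q, hq, rfl⟩, rfl⟩
    refine ⟨fun v k => (q v k : ℂ), ?_, ?_⟩
    · intro i j hij
      have := congrArg (fun x : ℝ => (x : ℂ)) (hq i j hij)
      push_cast at this
      exact this
    · funext i j
      simp only [ι]
      push_cast
      rfl
  -- the extra element
  obtain ⟨q, d, hq, hd, hlt⟩ := exists_placement hl (pos 0 4 (by decide)) (pos 0 5 (by decide))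
  have hmem : (fun i j => sqd q i j) ∈ SC := by
    refine ⟨q, ?_, rfl⟩
    have key : ∀ e, sqd q (eI e) (eJ e) = ∑ k, ((p (eI e) k : ℂ) - (p (eJ e) k : ℂ)) ^ 2 := by
      intro e
      rw [hq e]
      simp only [lam, sqd]
      push_cast
      rfl
    rintro i j ⟨e, ⟨rfl, rfl⟩ | ⟨rfl, rfl⟩⟩
    · exact key e
    · have h1 : ∑ k, (q (eJ e) k - q (eI e) k) ^ 2 = sqd q (eI e) (eJ e) := by
        simp only [sqd]
        exact Finset.sum_congr rfl fun k _ => by ring
      rw [h1, key e]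
      exact Finset.sum_congr rfl fun k _ => by ring
  have hnot : (fun i j => sqd q i j) ∉ ι '' SR := by
    rintro ⟨D, ⟨q', hq', rfl⟩, he⟩
    have e1 := congrFun (congrFun he 4) 5
    simp only [ι] at e1
    rw [hd] at e1
    have e2 : sqd q' 4 5 = d := Complex.ofReal_injective e1
    have e3 : sqd q' 0 4 = sqd p 0 4 := hq' _ _ (theG_adj 0)
    have e4 : sqd q' 0 5 = sqd p 0 5 := hq' _ _ (theG_adj 4)
    have e5 : lam p 0 = sqd q' 0 4 := e3.symm
    have e6 : lam p 4 = sqd q' 0 5 := e4.symm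
    rw [e5, e6, ← e2] at hlt
    simp only [sqd, Fin.sum_univ_two] at hlt
    nlinarith [sq_nonneg ((q' 0 0 - q' 4 0) * (q' 0 1 - q' 5 1)
      - (q' 0 1 - q' 4 1) * (q' 0 0 - q' 5 0))]
  have hss : ι '' SR ⊂ SC := ⟨hsub, fun h => hnot (h hmem)⟩
  intro heq
  have hposR : 0 < SR.ncard := (Set.ncard_pos hfin).mpr hne
  by_cases hC : SC.Finite
  · have h1 := Set.ncard_lt_ncard hss hC
    rw [Set.ncard_image_of_injective _ hι] at h1
    omega
  · have h1 : SC.ncard = 0 := Set.Infinite.ncard hC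
    omega

end Pool.Agent.MP01c1f4
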